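import Pool.Agent.Helper36.AS.Key

/-!
# The long exact sequence of a closed subset, and excision for compact supports

For a closed set `F` the relative groups are `HS R (Off Φ F) T n`: supports in `Φ` which do not
meet `F`. For `Φ = IsCompact` they are the compactly supported cohomology of `T \ F` (`exc`).
-/

namespace Pool.Agent.Helper36.AS

open Set Filter Topology

variable {X Y Z R : Type*}

section Top
variable [TopologicalSpace X] [TopologicalSpace Y] [TopologicalSpace Z] [CommRing R]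

/-- The supports in `Φ` which do not meet `F`. -/
def Off (Φ : Set X → Prop) (F : Set X) : Set X → Prop := fun K => Φ K ∧ Disjoint K F

instance Off.suppFam (Φ : Set X → Prop) [SuppFam Φ] (F : Set X) : SuppFam (Off Φ F) where
  empty := ⟨SuppFam.empty, empty_disjoint F⟩
  union := fun K L hK hL => ⟨SuppFam.union K L hK.1 hL.1, disjoint_union_left.2 ⟨hK.2, hL.2⟩⟩
  inter := fun K L hK hL => ⟨SuppFam.inter K L hK.1 hL, hK.2.mono_left inter_subset_left⟩

/-- Enlarging the family of supports. -/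
theorem SMap.weaken {Φ Ψ : Set X → Prop} (h : ∀ K, Φ K → Ψ K) (T : Set X) :
    SMap Ψ Φ T T (fun x => x) :=
  ⟨continuousOn_id, fun _ h => h, fun K hK h' => by
    have : T ∩ (fun x => x) ⁻¹' K = K := inter_eq_right.2 hK
    rw [this]; exact h K h'⟩

theorem SMap.ofOff (Φ : Set X → Prop) (F T : Set X) : SMap Φ (Off Φ F) T T (fun x => x) :=
  SMap.weaken (fun _ h => h.1) T

theorem LZat_sdiff_iff {T F : Set X} (hF : IsClosed F) {x : X} (hx : x ∉ F) {m : ℕ}
    {f : List X → R} : LZat (T \ F) m f x ↔ LZat T m f x := by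
  refine ⟨fun h => ?_, fun h => h.mono diff_subset⟩
  obtain ⟨U, hU, h⟩ := h
  refine ⟨U ∩ Fᶜ, inter_mem hU (hF.isOpen_compl.mem_nhds hx), fun l hl hl' => h l hl fun y hy => ?_⟩
  have := hl' y hy
  exact ⟨this.1.1, this.2, this.1.2⟩

/-- A cochain with support in `Φ` which is locally zero at the points of `T ∩ F` has support in
`Off Φ F`. -/
theorem HasSupp.off {Φ : Set X → Prop} [SuppFam Φ] {T F : Set X} {m : ℕ} {f : List X → R}
    (hf : HasSupp Φ T m f) (h : ∀ x ∈ T ∩ F, LZat T m f x) : HasSupp (Off Φ F) T m f := by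
  refine ⟨AS.supp T m f, supp_subset _ _ _, ⟨hf.supp, ?_⟩, fun _ hx hx' => LZat_of_notMem_supp hx hx'⟩
  rw [Set.disjoint_left]
  exact fun x hx hxF => hx.2 (h x ⟨hx.1, hxF⟩)

theorem HasSupp.of_off {Φ : Set X → Prop} {T F : Set X} {m : ℕ} {f : List X → R}
    (hf : HasSupp (Off Φ F) T m f) : HasSupp Φ T m f := by
  obtain ⟨K, hK, hK', hf⟩ := hf
  exact ⟨K, hK, hK'.1, hf⟩

theorem HasSupp.off_LZat {Φ : Set X → Prop} {T F : Set X} {m : ℕ} {f : List X → R}
    (hf : HasSupp (Off Φ F) T m f) {x : X} (hx : x ∈ T ∩ F) : LZat T m f x := by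
  obtain ⟨K, hK, hK', hf⟩ := hf
  exact hf x hx.1 fun h => Set.disjoint_left.1 hK'.2 h hx.2

theorem restr_mem_cocycles {Φ : Set X → Prop} [SuppFam Φ] {T F : Set X} (hF : IsClosed F) {n : ℕ}
    {f : List X → R} (hs : HasSupp Φ T (n + 1) f) (hd : ∀ x ∈ T ∩ F, LZat T (n + 2) (d f) x) :
    f ∈ cocycles R Φ (T ∩ F) n :=
  ⟨by
    obtain ⟨K, hK, hΦK, hf⟩ := hs
    exact ⟨K ∩ F, fun x hx => ⟨hK hx.1, hx.2⟩, SuppFam.inter K F hΦK hF,
      fun x hx hx' => (hf x hx.1 fun h => hx' ⟨h, hx.2⟩).mono inter_subset_left⟩,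
    fun x hx => (hd x hx).mono inter_subset_left⟩

theorem d_mem_cocycles_off {Φ : Set X → Prop} [SuppFam Φ] {T F : Set X} {n : ℕ}
    {f : List X → R} (hs : HasSupp Φ T (n + 1) f) (hd : ∀ x ∈ T ∩ F, LZat T (n + 2) (d f) x) :
    d f ∈ cocycles R (Off Φ F) T (n + 1) :=
  ⟨hs.d.off hd, by rw [d_d']; exact LZ.zero T _⟩

/-- Restriction to a closed subset on representatives. -/
theorem incl_cls {Φ : Set X → Prop} [SuppFam Φ] {T F : Set X} (hF : IsClosed F) {n : ℕ}
    {f : List X → R} (hf : f ∈ cocycles R Φ T n) :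
    (SMap.incl Φ T F hF).map R n (cls f hf) =
      cls f (restr_mem_cocycles hF hf.1 fun x hx => hf.2 x hx.1) := by
  rw [SMap.map_cls, cls_eq_iff]
  refine LZ.mem_coboundaries fun x _ => LZat.of_eq_zero x fun l _ _ => ?_
  simp [pull]

theorem ofOff_cls {Φ : Set X → Prop} [SuppFam Φ] {T F : Set X} {n : ℕ}
    {f : List X → R} (hf : f ∈ cocycles R (Off Φ F) T n) :
    (SMap.ofOff Φ F T).map R n (cls f hf) = cls f ⟨hf.1.of_off, hf.2⟩ := by
  rw [SMap.map_cls, cls_eq_iff]
  refine LZ.mem_coboundaries fun x _ => LZat.of_eq_zero x fun l _ _ => ?_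
  simp [pull]

end Top

section Metric
variable [MetricSpace X] [CommRing R] {Φ : Set X → Prop} [SuppFam Φ] {T F : Set X}

/-- Exactness at `T`. -/
theorem incl_eq_zero_iff (hF : IsClosed F) (hΦ : Good Φ T) {n : ℕ} (α : HS R Φ T n) :
    (SMap.incl Φ T F hF).map R n α = 0 ↔
      ∃ β : HS R (Off Φ F) T n, (SMap.ofOff Φ F T).map R n β = α := by
  constructor
  · intro h
    obtain ⟨f, hf, rfl⟩ := cls_surj α
    rw [incl_cls hF, cls_eq_zero_iff] at h
    obtain ⟨g, hg0, hg, hfg⟩ := key_R hF hΦ hf.1 (fun x hx => hf.2 x hx.1) h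
    have h1 : f - d g ∈ cocycles R (Off Φ F) T n :=
      ⟨(hf.1.sub hg.d).off hfg, by rw [d_sub', d_d', sub_zero]; exact hf.2⟩
    refine ⟨cls _ h1, ?_⟩
    rw [ofOff_cls, cls_eq_iff]
    refine ⟨-g, fun hn => by simp [hg0 hn], hg.neg, ?_⟩
    rw [d_neg', sub_sub_cancel_left, sub_neg_eq_add, neg_add_cancel]
    exact LZ.zero T _
  · rintro ⟨β, rfl⟩
    obtain ⟨f, hf, rfl⟩ := cls_surj β
    rw [ofOff_cls, incl_cls hF, cls_eq_zero_iff]
    exact LZ.mem_coboundaries fun x hx => (hf.1.off_LZat hx).mono inter_subset_left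

/-- A choice of an extension. -/
theorem exists_delta (hF : IsClosed F) (hΦ : Good Φ T) {n : ℕ} (α : HS R Φ (T ∩ F) n) :
    ∃ h : List X → R, ∃ hs : HasSupp Φ T (n + 1) h, ∃ hd : ∀ x ∈ T ∩ F, LZat T (n + 2) (d h) x,
      cls h (restr_mem_cocycles hF hs hd) = α := by
  obtain ⟨c, hc, rfl⟩ := cls_surj α
  obtain ⟨h, hs, hc', hd⟩ := exists_extension hF hΦ hc
  exact ⟨h, hs, hd, cls_eq_iff.2 hc'.mem_coboundaries⟩

theorem delta_aux (hF : IsClosed F) (hΦ : Good Φ T) {n : ℕ} {h h' : List X → R}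
    (hs : HasSupp Φ T (n + 1) h) (hd : ∀ x ∈ T ∩ F, LZat T (n + 2) (d h) x)
    (hs' : HasSupp Φ T (n + 1) h') (hd' : ∀ x ∈ T ∩ F, LZat T (n + 2) (d h') x)
    (hc : cls h (restr_mem_cocycles hF hs hd) = cls h' (restr_mem_cocycles hF hs' hd')) :
    cls (d h) (d_mem_cocycles_off hs hd) = cls (d h') (d_mem_cocycles_off hs' hd') := by
  rw [cls_eq_iff] at hc ⊢
  obtain ⟨g, hg0, hg, hfg⟩ := key_R hF hΦ (hs.sub hs')
    (fun x hx => by rw [d_sub']; exact (hd x hx).sub (hd' x hx)) hc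
  refine ⟨h - h' - d g, nofun, ((hs.sub hs').sub hg.d).off hfg, ?_⟩
  rw [d_sub', d_sub', d_d', sub_zero, sub_self]
  exact LZ.zero T _

variable (R) in
/-- The connecting map of the closed subset `T ∩ F` of `T`. -/
noncomputable def delta (hF : IsClosed F) (hΦ : Good Φ T) (n : ℕ) :
    HS R Φ (T ∩ F) n →ₗ[R] HS R (Off Φ F) T (n + 1) where
  toFun α := cls _ (d_mem_cocycles_off (exists_delta hF hΦ α).choose_spec.choose
    (exists_delta hF hΦ α).choose_spec.choose_spec.choose)
  map_add' α β := by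
    have h1 := (exists_delta hF hΦ α).choose_spec.choose_spec.choose_spec
    have h2 := (exists_delta hF hΦ β).choose_spec.choose_spec.choose_spec
    have h3 := (exists_delta hF hΦ (α + β)).choose_spec.choose_spec.choose_spec
    set a := (exists_delta hF hΦ α).choose
    set b := (exists_delta hF hΦ β).choose
    have ha := (exists_delta hF hΦ α).choose_spec.choose
    have hb := (exists_delta hF hΦ β).choose_spec.choose
    have ha' := (exists_delta hF hΦ α).choose_spec.choose_spec.choose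
    have hb' := (exists_delta hF hΦ β).choose_spec.choose_spec.choose
    have h4 : ∀ x ∈ T ∩ F, LZat T (n + 2) (d (a + b)) x := fun x hx => by
      rw [d_add']; exact (ha' x hx).add (hb' x hx)
    refine (delta_aux hF hΦ (exists_delta hF hΦ (α + β)).choose_spec.choose
      (exists_delta hF hΦ (α + β)).choose_spec.choose_spec.choose (ha.add hb) h4 ?_).trans ?_
    · rw [h3]
      conv_lhs => rw [← h1, ← h2]
      rfl
    · rw [cls_add, cls_eq_iff, d_add', sub_self]
      exact zero_mem _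
  map_smul' c α := by
    have h1 := (exists_delta hF hΦ α).choose_spec.choose_spec.choose_spec
    have h3 := (exists_delta hF hΦ (c • α)).choose_spec.choose_spec.choose_spec
    set a := (exists_delta hF hΦ α).choose
    have ha := (exists_delta hF hΦ α).choose_spec.choose
    have ha' := (exists_delta hF hΦ α).choose_spec.choose_spec.choose
    have h4 : ∀ x ∈ T ∩ F, LZat T (n + 2) (d (c • a)) x := fun x hx => by
      rw [d_smul']; exact (ha' x hx).smul c
    refine (delta_aux hF hΦ (exists_delta hF hΦ (c • α)).choose_spec.choose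
      (exists_delta hF hΦ (c • α)).choose_spec.choose_spec.choose (ha.smul c) h4 ?_).trans ?_
    · rw [h3]
      conv_lhs => rw [← h1]
      rfl
    · rw [RingHom.id_apply, cls_smul, cls_eq_iff, d_smul', sub_self]
      exact zero_mem _

/-- The connecting map on representatives: every extension can be used. -/
theorem delta_cls (hF : IsClosed F) (hΦ : Good Φ T) {n : ℕ} {h : List X → R}
    (hs : HasSupp Φ T (n + 1) h) (hd : ∀ x ∈ T ∩ F, LZat T (n + 2) (d h) x) :
    delta R hF hΦ n (cls h (restr_mem_cocycles hF hs hd)) = cls (d h) (d_mem_cocycles_off hs hd) :=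
  delta_aux hF hΦ (exists_delta hF hΦ (cls h (restr_mem_cocycles hF hs hd))).choose_spec.choose
    (exists_delta hF hΦ (cls h (restr_mem_cocycles hF hs hd))).choose_spec.choose_spec.choose hs hd
    (exists_delta hF hΦ (cls h (restr_mem_cocycles hF hs hd))).choose_spec.choose_spec.choose_spec

/-- Exactness at the closed subset. -/
theorem delta_eq_zero_iff (hF : IsClosed F) (hΦ : Good Φ T) {n : ℕ} (α : HS R Φ (T ∩ F) n) :
    delta R hF hΦ n α = 0 ↔ ∃ β : HS R Φ T n, (SMap.incl Φ T F hF).map R n β = α := by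
  constructor
  · intro h
    obtain ⟨f, hs, hd, rfl⟩ := exists_delta hF hΦ α
    rw [delta_cls hF hΦ hs hd, cls_eq_zero_iff] at h
    obtain ⟨k, hk0, hk, hfk⟩ := h
    have h1 : f - k ∈ cocycles R Φ T n := ⟨hs.sub hk.of_off, by rw [d_sub']; exact hfk⟩
    refine ⟨cls _ h1, ?_⟩
    rw [incl_cls hF, cls_eq_iff]
    refine LZ.mem_coboundaries fun x hx => ?_
    rw [sub_sub_cancel_left]
    exact ((hk.off_LZat hx).mono inter_subset_left).neg
  · rintro ⟨β, rfl⟩
    obtain ⟨f, hf, rfl⟩ := cls_surj β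
    rw [incl_cls hF, delta_cls hF hΦ hf.1 fun x hx => hf.2 x hx.1, cls_eq_zero_iff]
    exact hf.2.mem_coboundaries

/-- Exactness at the relative group. -/
theorem ofOff_eq_zero_iff (hF : IsClosed F) (hΦ : Good Φ T) {n : ℕ}
    (β : HS R (Off Φ F) T (n + 1)) :
    (SMap.ofOff Φ F T).map R (n + 1) β = 0 ↔ ∃ α : HS R Φ (T ∩ F) n, delta R hF hΦ n α = β := by
  constructor
  · intro h
    obtain ⟨f, hf, rfl⟩ := cls_surj β
    rw [ofOff_cls, cls_eq_zero_iff] at h
    obtain ⟨g, hg0, hg, hfg⟩ := h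
    have hd : ∀ x ∈ T ∩ F, LZat T (n + 2) (d g) x := fun x hx => by
      have := (hf.1.off_LZat hx).sub (hfg x hx.1)
      rwa [sub_sub_cancel] at this
    refine ⟨cls g (restr_mem_cocycles hF hg hd), ?_⟩
    rw [delta_cls hF hΦ hg hd, cls_eq_iff]
    refine LZ.mem_coboundaries ?_
    have := hfg.neg
    rwa [neg_sub] at this
  · rintro ⟨α, rfl⟩
    obtain ⟨f, hs, hd, rfl⟩ := exists_delta hF hΦ α
    rw [delta_cls hF hΦ hs hd, ofOff_cls, cls_eq_zero_iff]
    exact ⟨f, nofun, hs, by rw [sub_self]; exact LZ.zero T _⟩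

end Metric

/-! ### Excision for compact supports -/

section Exc
variable [MetricSpace X] [CommRing R]

theorem HasSupp.compact_sdiff {T F : Set X} {m : ℕ} {f : List X → R}
    (hf : HasSupp (Off IsCompact F) T m f) : HasSupp IsCompact (T \ F) m f := by
  obtain ⟨K, hK, hK', hf⟩ := hf
  exact ⟨K, fun x hx => ⟨hK hx, Set.disjoint_left.1 hK'.2 hx⟩, hK'.1,
    fun x hx hx' => (hf x hx.1 hx').mono diff_subset⟩

/-- Extension by zero of a cochain with compact support in `T \ F`. -/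
theorem exists_cut {T F : Set X} (hF : IsClosed F) {m : ℕ} {f : List X → R}
    (hf : HasSupp IsCompact (T \ F) (m + 1) f) :
    ∃ V : Set X, HasSupp (Off IsCompact F) T (m + 1) (cut V f) ∧
      (∀ x ∈ T \ F, LZat T (m + 1) (cut V f - f) x) ∧
      ∀ x ∈ T ∩ F, LZat T (m + 1) (cut V f) x := by
  have hK := hf.supp
  have hKF : Disjoint (supp (T \ F) (m + 1) f) F := by
    rw [Set.disjoint_left]; exact fun x hx => hx.1.2
  obtain ⟨V, U, hV, hU, hKV, hFU, hVU⟩ := SeparatedNhds.of_isCompact_isClosed hK hF hKF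
  have h0 : ∀ x ∈ T ∩ F, LZat T (m + 1) (cut V f) x := by
    intro x hx
    refine ⟨U, hU.mem_nhds (hFU hx.2), fun l hl hl' => cut_of_not fun h => ?_⟩
    cases l with
    | nil => simp at hl
    | cons y l => exact Set.disjoint_left.1 hVU (h y (by simp)) (hl' y (by simp)).1
  refine ⟨V, ⟨supp (T \ F) (m + 1) f, (supp_subset _ _ _).trans diff_subset, ⟨hK, hKF⟩,
    fun x hx hx' => ?_⟩, fun x hx => ?_, h0⟩
  · by_cases hxF : x ∈ F
    · exact h0 x ⟨hx, hxF⟩
    · exact ((LZat_sdiff_iff hF hxF).1 (LZat_of_notMem_supp ⟨hx, hxF⟩ hx')).cut V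
  · by_cases hxK : x ∈ supp (T \ F) (m + 1) f
    · exact LZat.cut_sub_self (hV.mem_nhds (hKV hxK)) _ _
    · have := (LZat_sdiff_iff hF hx.2).1 (LZat_of_notMem_supp hx hxK)
      exact (this.cut V).sub this

theorem SMap.exc (T F : Set X) : SMap IsCompact (Off IsCompact F) (T \ F) T (fun x => x) :=
  ⟨continuousOn_id, fun _ h => h.1, fun K hK h => by
    have : T \ F ∩ (fun x => x) ⁻¹' K = K :=
      inter_eq_right.2 fun x hx => ⟨hK hx, Set.disjoint_left.1 h.2 hx⟩
    rw [this]; exact h.1⟩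

theorem exc_cls {T F : Set X} {n : ℕ} {f : List X → R}
    (hf : f ∈ cocycles R (Off IsCompact F) T n) :
    (SMap.exc T F).map R n (cls f hf) =
      cls f ⟨hf.1.compact_sdiff, hf.2.mono diff_subset⟩ := by
  rw [SMap.map_cls, cls_eq_iff]
  refine LZ.mem_coboundaries fun x _ => LZat.of_eq_zero x fun l _ _ => ?_
  simp [pull]

theorem exc_bijective {T F : Set X} (hF : IsClosed F) (n : ℕ) :
    Function.Bijective ((SMap.exc T F).map R n) := by
  constructor
  · rw [injective_iff_map_eq_zero]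
    intro α hα
    obtain ⟨f, hf, rfl⟩ := cls_surj α
    rw [exc_cls, cls_eq_zero_iff] at hα
    obtain ⟨g, hg0, hg, hfg⟩ := hα
    rw [cls_eq_zero_iff]
    cases n with
    | zero =>
      refine ⟨0, fun _ => rfl, HasSupp.of_LZ (LZ.zero T _), fun x hx => ?_⟩
      rw [d_zero, sub_zero]
      by_cases hxF : x ∈ F
      · exact hf.1.off_LZat ⟨hx, hxF⟩
      · rw [← LZat_sdiff_iff hF hxF]
        refine (hfg x ⟨hx, hxF⟩).congr fun l hl _ => ?_
        match l, hl with
        | [y], _ => simp [d_cons, hg0 rfl]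
    | succ n =>
      obtain ⟨V, h1, h2, h3⟩ := exists_cut hF hg
      refine ⟨cut V g, nofun, h1, fun x hx => ?_⟩
      by_cases hxF : x ∈ F
      · exact (hf.1.off_LZat ⟨hx, hxF⟩).sub (h3 x ⟨hx, hxF⟩).d
      · have h4 := (LZat_sdiff_iff hF hxF).1 (hfg x ⟨hx, hxF⟩)
        have h5 := (h2 x ⟨hx, hxF⟩).d
        rw [d_sub'] at h5
        have := h4.sub h5
        rwa [sub_sub_sub_cancel_right] at this
  · intro α
    obtain ⟨f, hf, rfl⟩ := cls_surj α
    obtain ⟨V, h1, h2, h3⟩ := exists_cut hF hf.1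
    have h4 : cut V f ∈ cocycles R (Off IsCompact F) T n := by
      refine ⟨h1, fun x hx => ?_⟩
      by_cases hxF : x ∈ F
      · exact (h3 x ⟨hx, hxF⟩).d
      · have h5 := (h2 x ⟨hx, hxF⟩).d
        rw [d_sub'] at h5
        have := h5.add ((LZat_sdiff_iff hF hxF).1 (hf.2 x ⟨hx, hxF⟩))
        rwa [sub_add_cancel] at this
    refine ⟨cls _ h4, ?_⟩
    rw [exc_cls, cls_eq_iff]
    exact LZ.mem_coboundaries fun x hx => (h2 x hx).mono diff_subset

variable (R) in
/-- Excision: cohomology of `T` with compact supports outside of `F` is the compactly supported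
cohomology of `T \ F`. -/
noncomputable def exc {T F : Set X} (hF : IsClosed F) (n : ℕ) :
    HS R (Off IsCompact F) T n ≃ₗ[R] Hc R (T \ F) n :=
  LinearEquiv.ofBijective _ (exc_bijective hF n)

variable (R) in
/-- Extension by zero. -/
noncomputable def ext {T F : Set X} (hF : IsClosed F) (n : ℕ) :
    Hc R (T \ F) n →ₗ[R] Hc R T n :=
  ((SMap.ofOff IsCompact F T).map R n).comp (exc R hF n).symm.toLinearMap

theorem ext_cls {T F : Set X} (hF : IsClosed F) {n : ℕ} {f : List X → R}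
    (hf : f ∈ cocycles R (Off IsCompact F) T n) :
    ext R hF n (cls f ⟨hf.1.compact_sdiff, hf.2.mono diff_subset⟩) =
      cls f ⟨hf.1.of_off, hf.2⟩ := by
  have h1 : (exc R hF n).symm (cls f ⟨hf.1.compact_sdiff, hf.2.mono diff_subset⟩) = cls f hf := by
    rw [LinearEquiv.symm_apply_eq]
    exact (exc_cls hf).symm
  unfold ext
  rw [LinearMap.comp_apply]
  erw [h1]
  exact ofOff_cls hf

/-- Exactness of `Hc (T \ F) → Hc T → Hc (T ∩ F)`. -/
theorem incl_eq_zero_iff_ext {T F : Set X} (hF : IsClosed F) (hT : Good IsCompact T) {n : ℕ}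
    (α : Hc R T n) :
    (SMap.incl IsCompact T F hF).map R n α = 0 ↔ ∃ β : Hc R (T \ F) n, ext R hF n β = α := by
  rw [incl_eq_zero_iff hF hT]
  constructor
  · rintro ⟨β, rfl⟩
    exact ⟨exc R hF n β, by simp [ext]⟩
  · rintro ⟨β, rfl⟩
    exact ⟨(exc R hF n).symm β, rfl⟩

end Exc

end Pool.Agent.Helper36.AS
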