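import Pool.Agent.Helper36.AS.Line

/-!
# Compactly supported cohomology of `ℝ ^ m` (`Fin m → ℝ`) and its standard generator
-/

namespace Pool.Agent.Helper36.AS

open Set Filter Topology

variable {X Y Z R : Type*}

section Alg
variable [CommRing R]

/-- The product of a list of cochains of degree one. -/
def prodc : List (List X → R) → List X → R
  | [] => fun _ => 1
  | f :: fs => cup 1 f (prodc fs)

theorem pull_prodc (φ : X → Y) (L : List (List Y → R)) :
    pull φ (prodc L) = prodc (L.map (pull φ)) := by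
  induction L with
  | nil => rfl
  | cons f L ih =>
    funext l
    rw [prodc, List.map_cons, prodc, pull_cup, ih]

/-- The standard cocycle of degree `m` on `ℝ ^ m`. -/
noncomputable def stm (R : Type*) [CommRing R] (m : ℕ) : List (Fin m → ℝ) → R :=
  prodc (List.ofFn fun i : Fin m => d (ind fun x : Fin m → ℝ => 0 < x i))

/-- The product cocycle in terms of the projection to `ℝ × ℝ ^ m`. -/
theorem stm_succ (m : ℕ) : stm R (m + 1) =
    pull (fun x : Fin (m + 1) → ℝ => (x 0, Fin.tail x)) (lineC (stm R m)) := by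
  have h1 : pull (fun x : Fin (m + 1) → ℝ => (x 0, Fin.tail x)) (lineC (stm R m)) =
      cup 1 (pull (fun x : Fin (m + 1) → ℝ => (x 0, Fin.tail x))
        (d (ind fun p : ℝ × (Fin m → ℝ) => 0 < p.1)))
        (pull (fun x : Fin (m + 1) → ℝ => (x 0, Fin.tail x)) (pull Prod.snd (stm R m))) := by
    funext l; rw [lineC, pull_cup]
  rw [h1, ← d_pull', pull_ind]
  have h2 : pull (fun x : Fin (m + 1) → ℝ => (x 0, Fin.tail x)) (pull Prod.snd (stm R m)) =
      pull (Fin.tail : (Fin (m + 1) → ℝ) → Fin m → ℝ) (stm R m) := by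
    funext l; simp [pull, List.map_map, Function.comp_def]
  rw [h2, stm, stm, pull_prodc, List.ofFn_succ, prodc, List.map_ofFn]
  congr 3
  funext i
  simp only [Function.comp]
  rw [← d_pull', pull_ind]
  rfl

end Alg

section Point
variable [TopologicalSpace X] [CommRing R]

theorem hasSupp_of_isCompact {T : Set X} (hT : IsCompact T) (m : ℕ) (f : List X → R) :
    HasSupp IsCompact T m f := ⟨T, Subset.rfl, hT, fun _ hx hx' => absurd hx hx'⟩

/-- A cochain on a point is locally zero iff it is zero. -/
theorem LZ_singleton {p : X} {m : ℕ} {f : List X → R} :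
    LZ {p} m f ↔ f (List.replicate m p) = 0 := by
  constructor
  · intro h
    obtain ⟨U, hU, h⟩ := h p rfl
    exact h _ (List.length_replicate ..) fun y hy => by
      rw [List.eq_of_mem_replicate hy]; exact ⟨mem_of_mem_nhds hU, rfl⟩
  · intro h x _
    refine LZat.of_eq_zero x fun l hl hl' => ?_
    rw [List.eq_replicate_iff.2 ⟨hl, hl'⟩, h]

theorem point_succ (p : X) (n : ℕ) : Subsingleton (Hc R ({p} : Set X) (n + 1)) := by
  have key : ∀ α : Hc R ({p} : Set X) (n + 1), α = 0 := by
    intro α
    obtain ⟨f, hf, rfl⟩ := cls_surj α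
    rw [cls_eq_zero_iff]
    refine ⟨fun l => f (p :: l), fun h => by omega, hasSupp_of_isCompact isCompact_singleton _ _,
      LZ_singleton.2 ?_⟩
    have h1 := LZ_singleton.1 hf.2
    rw [List.replicate_succ, d_cons] at h1
    rw [Pi.sub_apply]
    exact h1
  exact ⟨fun α β => by rw [key α, key β]⟩

end Point

section Ball
variable [CommRing R]

theorem split_left (m : ℕ) : Continuous fun x : Fin (m + 1) → ℝ => (x 0, Fin.tail x) := by
  refine (continuous_apply 0).prodMk (continuous_pi fun i => continuous_apply _)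

theorem split_right (m : ℕ) : Continuous fun p : ℝ × (Fin m → ℝ) =>
    (Fin.cons p.1 p.2 : Fin (m + 1) → ℝ) := by
  refine continuous_pi fun i => ?_
  refine Fin.cases ?_ (fun j => ?_) i
  · simpa using continuous_fst
  · simp only [Fin.cons_succ]
    exact (continuous_apply j).comp continuous_snd

theorem split_smap (m : ℕ) : SMap IsCompact IsCompact (univ : Set (Fin (m + 1) → ℝ))
    (univ ×ˢ (univ : Set (Fin m → ℝ))) fun x => (x 0, Fin.tail x) :=
  SMap.of_homeo (ψ := fun p => (Fin.cons p.1 p.2 : Fin (m + 1) → ℝ))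
    (split_left m).continuousOn (fun _ _ => ⟨mem_univ _, mem_univ _⟩)
    (split_right m).continuousOn (fun _ _ => mem_univ _) fun x _ => Fin.cons_self_tail x

theorem split_bijective (m n : ℕ) : Function.Bijective ((split_smap m).map R n) :=
  homeo_bijective (T := (univ : Set (Fin (m + 1) → ℝ))) (B := univ ×ˢ (univ : Set (Fin m → ℝ)))
    (ψ := fun p => (Fin.cons p.1 p.2 : Fin (m + 1) → ℝ))
    (split_left m).continuousOn (fun _ _ => ⟨mem_univ _, mem_univ _⟩)
    (split_right m).continuousOn (fun _ _ => mem_univ _) (fun x _ => Fin.cons_self_tail x)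
    (fun p _ => by simp) n

theorem LCpt_univ_pi (m : ℕ) : LCpt (univ : Set (Fin m → ℝ)) := LCpt.univ

theorem stm_mem (m : ℕ) : stm R m ∈ cocycles R IsCompact (univ : Set (Fin m → ℝ)) m := by
  induction m with
  | zero =>
    have h : (univ : Set (Fin 0 → ℝ)) = {fun i => i.elim0} := by
      ext x; simp only [mem_univ, mem_singleton_iff, true_iff]; funext i; exact i.elim0
    rw [h]
    refine ⟨hasSupp_of_isCompact isCompact_singleton _ _, LZ_singleton.2 ?_⟩
    simp [stm, prodc, d_cons]
  | succ m ih =>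
    rw [stm_succ]
    exact (split_smap m).pull_mem_cocycles (lineC_mem ih)

/-- The cohomology of `ℝ ^ m` vanishes in all degrees different from `m`. -/
theorem Hc_ball_ne {m n : ℕ} (h : n ≠ m) :
    Subsingleton (Hc R (univ : Set (Fin m → ℝ)) n) := by
  induction m generalizing n with
  | zero =>
    have h0 : (univ : Set (Fin 0 → ℝ)) = {fun i => i.elim0} := by
      ext x; simp only [mem_univ, mem_singleton_iff, true_iff]; funext i; exact i.elim0
    obtain ⟨k, rfl⟩ := Nat.exists_eq_succ_of_ne_zero h
    rw [h0]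
    exact point_succ _ k
  | succ m ih =>
    have hs : Subsingleton (Hc R (univ ×ˢ (univ : Set (Fin m → ℝ)) : Set (ℝ × (Fin m → ℝ))) n) := by
      cases n with
      | zero => exact line_zero (LCpt_univ_pi m)
      | succ n =>
        have hn : n ≠ m := fun e => h (by rw [e])
        haveI := ih hn
        have key : ∀ α : Hc R (univ ×ˢ (univ : Set (Fin m → ℝ)) : Set (ℝ × (Fin m → ℝ))) (n + 1),
            α = 0 := by
          intro α
          obtain ⟨f, hf, rfl⟩ := line_surj (LCpt_univ_pi m) α
          have h1 : cls f hf = 0 := Subsingleton.elim _ _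
          rw [← line_delta (LCpt_univ_pi m) hf]
          obtain ⟨g, hg0, hg, hfg⟩ := cls_eq_zero_iff.1 h1
          have h2 : (cls _ (mid_mem hf) : HS R IsCompact
              ((Iic (0 : ℝ) ×ˢ (univ : Set (Fin m → ℝ))) ∩ (Ici (0 : ℝ) ×ˢ univ)) n) = 0 := by
            rw [cls_eq_zero_iff]
            have hm : SMap IsCompact IsCompact
                ((Iic (0 : ℝ) ×ˢ (univ : Set (Fin m → ℝ))) ∩ (Ici (0 : ℝ) ×ˢ univ)) univ
                (Prod.snd : ℝ × (Fin m → ℝ) → Fin m → ℝ) :=
              SMap.of_homeo (ψ := fun y => ((0 : ℝ), y)) continuous_snd.continuousOn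
                (fun _ _ => mem_univ _) (by fun_prop)
                (fun y _ => ⟨⟨le_refl (0 : ℝ), mem_univ _⟩, ⟨le_refl (0 : ℝ), mem_univ _⟩⟩)
                fun p hp => Prod.ext (le_antisymm hp.2.1 hp.1.1) rfl
            exact hm.pull_mem_coboundaries ⟨g, hg0, hg, hfg⟩
          rw [h2, map_zero]
        exact ⟨fun α β => by rw [key α, key β]⟩
    exact (LinearEquiv.ofBijective _ (split_bijective (R := R) m n)).symm.toEquiv.subsingleton

/-- Every class in the top degree is a multiple of the standard class. -/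
theorem ball_surj {m : ℕ} (α : Hc R (univ : Set (Fin m → ℝ)) m) :
    ∃ c : R, α = c • cls _ (stm_mem m) := by
  induction m with
  | zero =>
    obtain ⟨f, hf, rfl⟩ := cls_surj α
    refine ⟨f [fun i => i.elim0], ?_⟩
    rw [cls_smul]
    refine cls_eq_of_LZ fun x _ => LZat.of_eq_zero x fun l hl _ => ?_
    match l, hl with
    | [y], _ =>
      have : y = fun i => i.elim0 := funext fun i => i.elim0
      subst this
      simp [stm, prodc]
  | succ m ih =>
    obtain ⟨β, rfl⟩ := (split_bijective (R := R) m (m + 1)).2 α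
    obtain ⟨f, hf, rfl⟩ := line_surj (LCpt_univ_pi m) β
    obtain ⟨c, hc⟩ := ih (cls f hf)
    refine ⟨c, ?_⟩
    -- linearity of `lineC`
    have h1 : f - c • stm R m ∈ coboundaries R IsCompact (univ : Set (Fin m → ℝ)) m := by
      rw [cls_smul, cls_eq_iff] at hc; exact hc
    have hfc : f - c • stm R m ∈ cocycles R IsCompact (univ : Set (Fin m → ℝ)) m :=
      sub_mem hf (Submodule.smul_mem _ c (stm_mem m))
    have h2 : (cls _ (lineC_mem hfc) : Hc R (univ ×ˢ (univ : Set (Fin m → ℝ))
        : Set (ℝ × (Fin m → ℝ))) (m + 1)) = 0 := by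
      rw [← line_delta (LCpt_univ_pi m) hfc]
      have h2 : (cls _ (mid_mem hfc) : HS R IsCompact
          ((Iic (0 : ℝ) ×ˢ (univ : Set (Fin m → ℝ))) ∩ (Ici (0 : ℝ) ×ˢ univ)) m) = 0 := by
        rw [cls_eq_zero_iff]
        have hm : SMap IsCompact IsCompact
            ((Iic (0 : ℝ) ×ˢ (univ : Set (Fin m → ℝ))) ∩ (Ici (0 : ℝ) ×ˢ univ)) univ
            (Prod.snd : ℝ × (Fin m → ℝ) → Fin m → ℝ) :=
          SMap.of_homeo (ψ := fun y => ((0 : ℝ), y)) continuous_snd.continuousOn
            (fun _ _ => mem_univ _) (by fun_prop)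
            (fun y _ => ⟨⟨le_refl (0 : ℝ), mem_univ _⟩, ⟨le_refl (0 : ℝ), mem_univ _⟩⟩)
            fun p hp => Prod.ext (le_antisymm hp.2.1 hp.1.1) rfl
        exact hm.pull_mem_coboundaries h1
      rw [h2, map_zero]
    have h3 : lineC (f - c • stm R m) = lineC f - c • lineC (stm R m) := by
      unfold lineC
      rw [pull_sub, cup_sub_right]
      congr 1
      exact cup_smul_right _ _ _ _
    have h4 : (cls (lineC f) (lineC_mem hf) : Hc R (univ ×ˢ (univ : Set (Fin m → ℝ))
        : Set (ℝ × (Fin m → ℝ))) (m + 1)) = c • cls _ (lineC_mem (stm_mem m)) := by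
      rw [cls_smul, cls_eq_iff, ← h3]
      exact cls_eq_zero_iff.1 h2
    rw [h4, map_smul, SMap.map_cls]
    congr 1
    refine cls_eq_of_LZ ?_
    rw [stm_succ, sub_self]; exact LZ.zero _ _

/-- The multiples of the standard class are different from zero. -/
theorem ball_inj {m : ℕ} {c : R}
    (h : c • (cls _ (stm_mem m) : Hc R (univ : Set (Fin m → ℝ)) m) = 0) : c = 0 := by
  induction m with
  | zero =>
    rw [cls_smul, cls_eq_zero_iff] at h
    obtain ⟨g, hg0, _, h⟩ := h
    obtain ⟨U, hU, h⟩ := h (fun i => i.elim0) (mem_univ _)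
    have h1 := h [fun i => i.elim0] rfl (by
      intro y hy
      rw [List.mem_singleton.1 hy]
      exact ⟨mem_of_mem_nhds hU, mem_univ _⟩)
    simpa [stm, prodc, d_cons, hg0 rfl] using h1
  | succ m ih =>
    apply ih
    have hfc : c • stm R m ∈ cocycles R IsCompact (univ : Set (Fin m → ℝ)) m :=
      Submodule.smul_mem _ c (stm_mem m)
    rw [cls_smul]
    apply line_inj (LCpt_univ_pi m) hfc
    apply (split_bijective (R := R) m (m + 1)).1
    rw [map_zero, SMap.map_cls, ← h, cls_smul]
    refine cls_eq_of_LZ ?_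
    have : lineC (c • stm R m) = c • lineC (stm R m) := cup_smul_right _ _ _ _
    rw [this, stm_succ]
    have e : pull (fun x : Fin (m + 1) → ℝ => (x 0, Fin.tail x)) (c • lineC (stm R m)) =
      c • pull (fun x : Fin (m + 1) → ℝ => (x 0, Fin.tail x)) (lineC (stm R m)) := rfl
    rw [e, sub_self]; exact LZ.zero _ _

/-- The standard cocycle is not a coboundary. -/
theorem stm_notMem [Nontrivial R] (m : ℕ) :
    stm R m ∉ coboundaries R IsCompact (univ : Set (Fin m → ℝ)) m := fun h => by
  have : (1 : R) • (cls _ (stm_mem m) : Hc R (univ : Set (Fin m → ℝ)) m) = 0 := by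
    rw [one_smul]; exact cls_eq_zero_iff.2 h
  exact one_ne_zero (ball_inj this)

end Ball

end Pool.Agent.Helper36.AS
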