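import Pool.Agent.Helper36.AS.Homotopy

/-!
# Cup products

`CupFam Φ Ψ Θ T`: the intersection of a support in `Φ` and a support in `Ψ` is in `Θ`. The cases
`Θ = Φ` (`cupFam_left`) and `Θ = Ψ` (`cupFam_right`) always hold.
-/

namespace Pool.Agent.Helper36.AS

open Set Filter Topology

variable {X Y Z R : Type*}

section Alg
variable [CommRing R]

theorem cup_add_left (p : ℕ) (f f' g : List X → R) : cup p (f + f') g = cup p f g + cup p f' g := by
  funext l; simp [cup, add_mul]

theorem cup_add_right (p : ℕ) (f g g' : List X → R) :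
    cup p f (g + g') = cup p f g + cup p f g' := by
  funext l; simp [cup, mul_add]

theorem cup_sub_left (p : ℕ) (f f' g : List X → R) : cup p (f - f') g = cup p f g - cup p f' g := by
  funext l; simp [cup, sub_mul]

theorem cup_sub_right (p : ℕ) (f g g' : List X → R) :
    cup p f (g - g') = cup p f g - cup p f g' := by
  funext l; simp [cup, mul_sub]

theorem cup_smul_left (p : ℕ) (c : R) (f g : List X → R) : cup p (c • f) g = c • cup p f g := by
  funext l; simp [cup, mul_assoc]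

theorem cup_smul_right (p : ℕ) (c : R) (f g : List X → R) : cup p f (c • g) = c • cup p f g := by
  funext l; simp only [cup, Pi.smul_apply, smul_eq_mul]; ring

end Alg

section Top
variable [TopologicalSpace X] [TopologicalSpace Y] [TopologicalSpace Z] [CommRing R]

/-- The intersection of a support in `Φ` and a support in `Ψ` is a support in `Θ`. -/
def CupFam (Φ Ψ Θ : Set X → Prop) (T : Set X) : Prop :=
  ∀ K ⊆ T, ∀ L ⊆ T, Φ K → Ψ L → closure K ∩ T ⊆ K → closure L ∩ T ⊆ L → Θ (K ∩ L)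

theorem cupFam_left (Φ Ψ : Set X → Prop) [SuppFam Φ] (T : Set X) : CupFam Φ Ψ Φ T := by
  intro K hK L hL hΦ _ _ hcl
  have : K ∩ L = K ∩ closure L :=
    Subset.antisymm (inter_subset_inter_right K subset_closure)
      fun x hx => ⟨hx.1, hcl ⟨hx.2, hK hx.1⟩⟩
  rw [this]; exact SuppFam.inter K _ hΦ isClosed_closure

theorem cupFam_right (Φ Ψ : Set X → Prop) [SuppFam Ψ] (T : Set X) : CupFam Φ Ψ Ψ T := by
  intro K hK L hL h1 h2 h3 h4
  rw [inter_comm]; exact cupFam_left Ψ Φ T L hL K hK h2 h1 h4 h3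

variable {Φ Ψ Θ : Set X → Prop} [SuppFam Φ] [SuppFam Ψ] [SuppFam Θ] {T : Set X}

theorem HasSupp.cup (h : CupFam Φ Ψ Θ T) {p q : ℕ} {f g : List X → R}
    (hf : HasSupp Φ T (p + 1) f) (hg : HasSupp Ψ T (q + 1) g) :
    HasSupp Θ T (p + q + 1) (cup p f g) := by
  refine ⟨AS.supp T (p + 1) f ∩ AS.supp T (q + 1) g, fun x hx => hx.1.1,
    h _ (supp_subset _ _ _) _ (supp_subset _ _ _) hf.supp hg.supp (closure_supp_inter _ _ _)
      (closure_supp_inter _ _ _), fun x hx hx' => ?_⟩
  by_cases hxf : x ∈ AS.supp T (p + 1) f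
  · exact (LZat_of_notMem_supp hx fun h' => hx' ⟨hxf, h'⟩).cup_right f
  · exact (LZat_of_notMem_supp hx hxf).cup_left g

theorem LZat_d_cup {p q : ℕ} {f g : List X → R} {x : X}
    (hf : LZat T (p + 2) (d f) x) (hg : LZat T (q + 2) (d g) x) :
    LZat T (p + q + 2) (d (cup p f g)) x := by
  have h1 : LZat T (p + q + 2) (cup (p + 1) (AS.d f) g) x := by
    have := hf.cup_left (p := p + 1) (q := q) g
    rwa [show p + 1 + q + 1 = p + q + 2 by omega] at this
  have h2 : LZat T (p + q + 2) (cup p f (AS.d g)) x := hg.cup_right (p := p) (q := q + 1) f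
  refine (h1.add (h2.smul ((-1) ^ p))).congr fun l hl _ => ?_
  rw [AS.d_cup p f g l (by omega)]
  rfl

theorem cup_mem_cocycles (h : CupFam Φ Ψ Θ T) {p q : ℕ} {f g : List X → R}
    (hf : f ∈ cocycles R Φ T p) (hg : g ∈ cocycles R Ψ T q) :
    cup p f g ∈ cocycles R Θ T (p + q) :=
  ⟨hf.1.cup h hg.1, fun x hx => LZat_d_cup (hf.2 x hx) (hg.2 x hx)⟩

theorem cup_coboundary_left (h : CupFam Φ Ψ Θ T) {p q : ℕ} {f g : List X → R}
    (hf : f ∈ coboundaries R Φ T p) (hg : g ∈ cocycles R Ψ T q) :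
    cup p f g ∈ coboundaries R Θ T (p + q) := by
  obtain ⟨k, hk0, hk, hfk⟩ := hf
  have h1 : LZ T (p + q + 1) (cup p (f - d k) g) := fun x hx => (hfk x hx).cup_left g
  have h2 : cup p (d k) g ∈ coboundaries R Θ T (p + q) := by
    cases p with
    | zero =>
      refine LZ.mem_coboundaries fun x _ => LZat.of_eq_zero x fun l hl _ => ?_
      cases l with
      | nil => simp at hl
      | cons y l => rw [cup_zero_cons]; simp [d_cons, hk0 rfl]
    | succ p =>
      refine ⟨cup p k g, fun h => by omega, ?_, fun x hx => ?_⟩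
      · have := hk.cup h hg.1
        rwa [show p + q + 1 = p + 1 + q by omega] at this
      · have h3 : LZat T (p + 1 + q + 1) (cup p k (d g)) x := by
          have := (hg.2 x hx).cup_right (p := p) (q := q + 1) k
          rwa [show p + (q + 1) + 1 = p + 1 + q + 1 by omega] at this
        refine ((h3.smul ((-1) ^ p)).neg).congr fun l hl _ => ?_
        rw [Pi.sub_apply, AS.d_cup p k g l (by omega)]
        simp
  have := add_mem h1.mem_coboundaries h2
  rwa [← cup_add_left, sub_add_cancel] at this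

theorem cup_coboundary_right (h : CupFam Φ Ψ Θ T) {p q : ℕ} {f g : List X → R}
    (hf : f ∈ cocycles R Φ T p) (hg : g ∈ coboundaries R Ψ T q) :
    cup p f g ∈ coboundaries R Θ T (p + q) := by
  obtain ⟨k, hk0, hk, hgk⟩ := hg
  have h1 : LZ T (p + q + 1) (cup p f (g - d k)) := fun x hx => (hgk x hx).cup_right f
  have h2 : cup p f (d k) ∈ coboundaries R Θ T (p + q) := by
    cases q with
    | zero =>
      refine LZ.mem_coboundaries fun x _ => LZat.of_eq_zero x fun l hl _ => ?_
      have h3 : (l.drop p).length = 1 := by rw [List.length_drop]; omega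
      obtain ⟨y, hy⟩ := List.length_eq_one_iff.1 h3
      rw [cup, hy, d_cons]; simp [hk0 rfl]
    | succ q =>
      have hs : (-1 : R) ^ p * (-1) ^ p = 1 := by
        rw [← mul_pow]; simp
      refine ⟨(-1 : R) ^ p • cup p f k, fun h => by omega, (hf.1.cup h hk).smul _, fun x hx => ?_⟩
      have h3 : LZat T (p + (q + 1) + 1) (cup (p + 1) (d f) k) x := by
        have := (hf.2 x hx).cup_left (p := p + 1) (q := q) k
        rwa [show p + 1 + q + 1 = p + (q + 1) + 1 by omega] at this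
      refine ((h3.smul ((-1) ^ p)).neg).congr fun l hl _ => ?_
      rw [Pi.sub_apply, d_smul', Pi.smul_apply, AS.d_cup p f k l (by omega), Pi.neg_apply,
        Pi.smul_apply, smul_eq_mul, smul_eq_mul]
      linear_combination (- cup p f (d k) l) * hs
  have := add_mem h1.mem_coboundaries h2
  rwa [← cup_add_right, sub_add_cancel] at this

variable (R) in
/-- The cup product in cohomology. -/
noncomputable def cupH (h : CupFam Φ Ψ Θ T) (p q : ℕ) :
    HS R Φ T p →ₗ[R] HS R Ψ T q →ₗ[R] HS R Θ T (p + q) :=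
  Submodule.liftQ _
    { toFun := fun f => Submodule.liftQ _
        { toFun := fun g => cls (cup p f.1 g.1) (cup_mem_cocycles h f.2 g.2)
          map_add' := fun g g' => by
            rw [cls_add, cls_eq_iff, Submodule.coe_add, cup_add_right, sub_self]; exact zero_mem _
          map_smul' := fun c g => by
            rw [RingHom.id_apply, cls_smul, cls_eq_iff, Submodule.coe_smul, cup_smul_right,
              sub_self]
            exact zero_mem _ }
        (fun g hg => by
          rw [LinearMap.mem_ker, LinearMap.coe_mk, AddHom.coe_mk, cls_eq_zero_iff]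
          exact cup_coboundary_right h f.2 hg)
      map_add' := fun f f' => by
        refine LinearMap.ext fun α => ?_
        obtain ⟨g, hg, rfl⟩ := cls_surj α
        change (cls _ _ : HS R Θ T (p + q)) = (cls _ _ : HS R Θ T (p + q)) + cls _ _
        rw [cls_add, cls_eq_iff, Submodule.coe_add, cup_add_left, sub_self]; exact zero_mem _
      map_smul' := fun c f => by
        refine LinearMap.ext fun α => ?_
        obtain ⟨g, hg, rfl⟩ := cls_surj α
        rw [RingHom.id_apply]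
        change (cls _ _ : HS R Θ T (p + q)) = c • (cls _ _ : HS R Θ T (p + q))
        rw [cls_smul, cls_eq_iff, Submodule.coe_smul, cup_smul_left, sub_self]
        exact zero_mem _ }
    (fun f hf => by
      rw [LinearMap.mem_ker]
      refine LinearMap.ext fun α => ?_
      obtain ⟨g, hg, rfl⟩ := cls_surj α
      change (cls _ _ : HS R Θ T (p + q)) = 0
      rw [cls_eq_zero_iff]
      exact cup_coboundary_left h hf hg)

@[simp] theorem cupH_cls (h : CupFam Φ Ψ Θ T) {p q : ℕ} {f g : List X → R}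
    (hf : f ∈ cocycles R Φ T p) (hg : g ∈ cocycles R Ψ T q) :
    cupH R h p q (cls f hf) (cls g hg) = cls (cup p f g) (cup_mem_cocycles h hf hg) := rfl

/-- Naturality. -/
theorem map_cupH {Φ' Ψ' Θ' : Set Y → Prop} [SuppFam Φ'] [SuppFam Ψ'] [SuppFam Θ'] {B : Set Y}
    {φ : X → Y} (h : CupFam Φ Ψ Θ T) (h' : CupFam Φ' Ψ' Θ' B) (h1 : SMap Φ Φ' T B φ)
    (h2 : SMap Ψ Ψ' T B φ) (h3 : SMap Θ Θ' T B φ) (p q : ℕ) (α : HS R Φ' B p)
    (β : HS R Ψ' B q) :
    h3.map R (p + q) (cupH R h' p q α β) = cupH R h p q (h1.map R p α) (h2.map R q β) := by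
  obtain ⟨f, hf, rfl⟩ := cls_surj α
  obtain ⟨g, hg, rfl⟩ := cls_surj β
  rw [cupH_cls, SMap.map_cls, SMap.map_cls, SMap.map_cls, cupH_cls, cls_eq_iff]
  refine LZ.mem_coboundaries fun x _ => LZat.of_eq_zero x fun l _ _ => ?_
  rw [Pi.sub_apply, pull_cup, sub_self]

/-- The formula which gives commutativity in degree one. -/
theorem cup_comm_one_aux (f g : List X → R) (x y z : X) (hf : d f [x, y, z] = 0)
    (hg : d g [x, y, z] = 0) :
    (cup 1 f g + cup 1 g f) [x, y, z] = - d (fun l => f l * g l) [x, y, z] := by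
  simp only [d_cons, d_nil] at hf hg ⊢
  simp only [Pi.add_apply, cup, List.take_succ_cons, List.take_zero, List.drop_succ_cons,
    List.drop_zero, sub_zero] at hf hg ⊢
  have e1 : f [x, z] = f [y, z] + f [x, y] := by linear_combination -hf
  have e2 : g [x, z] = g [y, z] + g [x, y] := by linear_combination -hg
  rw [e1, e2]; ring

/-- Anticommutativity in degree one. -/
theorem cup_comm_one (h : CupFam Φ Ψ Θ T) {f g : List X → R}
    (hf : f ∈ cocycles R Φ T 1) (hg : g ∈ cocycles R Ψ T 1) :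
    cup 1 f g + cup 1 g f ∈ coboundaries R Θ T 2 := by
  refine ⟨- fun l => f l * g l, fun h => by omega, HasSupp.neg ?_, fun x hx => ?_⟩
  · refine ⟨AS.supp T (1 + 1) f ∩ AS.supp T (1 + 1) g, fun x hx => hx.1.1,
      h _ (supp_subset _ _ _) _ (supp_subset _ _ _) hf.1.supp hg.1.supp (closure_supp_inter _ _ _)
        (closure_supp_inter _ _ _), fun x hx hx' => ?_⟩
    by_cases hxf : x ∈ AS.supp T (1 + 1) f
    · obtain ⟨U, hU, h1⟩ := LZat_of_notMem_supp hx fun h' => hx' ⟨hxf, h'⟩
      exact ⟨U, hU, fun l hl hl' => by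
        change f l * g l = 0
        rw [h1 l hl hl', mul_zero]⟩
    · obtain ⟨U, hU, h1⟩ := LZat_of_notMem_supp hx hxf
      exact ⟨U, hU, fun l hl hl' => by
        change f l * g l = 0
        rw [h1 l hl hl', zero_mul]⟩
  · obtain ⟨U, hU, h1⟩ := hf.2 x hx
    obtain ⟨V, hV, h2⟩ := hg.2 x hx
    refine ⟨U ∩ V, inter_mem hU hV, fun l hl hl' => ?_⟩
    have h3 := h1 l hl fun y hy => ⟨(hl' y hy).1.1, (hl' y hy).2⟩
    have h4 := h2 l hl fun y hy => ⟨(hl' y hy).1.2, (hl' y hy).2⟩
    match l, hl with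
    | [a, b, c], _ =>
      rw [Pi.sub_apply, cup_comm_one_aux f g a b c h3 h4, d_neg']
      simp

theorem cupH_comm_one (h : CupFam Φ Ψ Θ T) (h' : CupFam Ψ Φ Θ T) (α : HS R Φ T 1)
    (β : HS R Ψ T 1) : cupH R h 1 1 α β = - cupH R h' 1 1 β α := by
  obtain ⟨f, hf, rfl⟩ := cls_surj α
  obtain ⟨g, hg, rfl⟩ := cls_surj β
  rw [eq_neg_iff_add_eq_zero, cupH_cls, cupH_cls, cls_add, cls_eq_zero_iff]
  exact cup_comm_one h hf hg

end Top

section Delta
variable [MetricSpace X] [CommRing R] {Φ Ψ Θ : Set X → Prop} [SuppFam Φ] [SuppFam Ψ] [SuppFam Θ]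
  {T F : Set X}

theorem CupFam.off (h : CupFam Φ Ψ Θ T) (F : Set X) : CupFam (Off Φ F) Ψ (Off Θ F) T :=
  fun K hK L hL h1 h2 h3 h4 => ⟨h K hK L hL h1.1 h2 h3 h4, h1.2.mono_left inter_subset_left⟩

/-- `δ (α ∪ β|) = δ α ∪ β`. -/
theorem delta_cupH (hF : IsClosed F) (hΦ : Good Φ T) (hΘ : Good Θ T) (h : CupFam Φ Ψ Θ T)
    (h' : CupFam Φ Ψ Θ (T ∩ F)) (p q : ℕ) (α : HS R Φ (T ∩ F) p) (β : HS R Ψ T q) :
    ∃ γ : HS R (Off Θ F) T (p + 1 + q), cupH R (h.off F) (p + 1) q (delta R hF hΦ p α) β = γ ∧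
      ∀ (e : p + 1 + q = p + q + 1), delta R hF hΘ (p + q)
        (cupH R h' p q α ((SMap.incl Ψ T F hF).map R q β)) = e ▸ γ := by
  refine ⟨_, rfl, fun e => ?_⟩
  obtain ⟨f, hs, hd, rfl⟩ := exists_delta hF hΦ α
  obtain ⟨g, hg, rfl⟩ := cls_surj β
  rw [delta_cls hF hΦ hs hd, incl_cls hF, cupH_cls, cupH_cls]
  have h1 : HasSupp Θ T (p + q + 1) (cup p f g) := hs.cup h hg.1
  have h2 : ∀ x ∈ T ∩ F, LZat T (p + q + 2) (d (cup p f g)) x := fun x hx =>
    LZat_d_cup (hd x hx) (hg.2 x hx.1)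
  rw [delta_cls hF hΘ h1 h2]
  have h3 : ∀ (m m' : ℕ) (e : m = m') (u : List X → R) (hu : u ∈ cocycles R (Off Θ F) T m)
      (hu' : u ∈ cocycles R (Off Θ F) T m'), e ▸ cls u hu = cls u hu' := by
    rintro m _ rfl u hu hu'; rfl
  have h4 : cup (p + 1) (d f) g ∈ cocycles R (Off Θ F) T (p + q + 1) := by
    rw [← e]; exact cup_mem_cocycles (h.off F) (d_mem_cocycles_off hs hd) hg
  rw [h3 _ _ e _ _ h4, cls_eq_iff]
  refine LZ.mem_coboundaries fun x hx => ?_
  have h5 : LZat T (p + q + 1 + 1) (cup p f (d g)) x :=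
    (hg.2 x hx).cup_right (p := p) (q := q + 1) f
  refine (h5.smul ((-1) ^ p)).congr fun l hl _ => ?_
  rw [Pi.sub_apply, AS.d_cup p f g l (by omega)]
  simp

end Delta

end Pool.Agent.Helper36.AS
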