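import Mathlib

/-!
# Alexander-Spanier cochains as functions on lists: the algebra (all proofs are inductions)

A cochain of degree `n` on `X` is a function `f : List X → R`, only its values on the lists of
length `n + 1` matter. The coboundary is the usual alternating sum of the faces.
-/

namespace Pool.Agent.Helper36.AS

variable {X Y Z R : Type*}

/-- The coboundary: the alternating sum of the values on the faces. -/
def d [CommRing R] (f : List X → R) (l : List X) : R :=
  ∑ i ∈ Finset.range l.length, (-1) ^ i * f (l.eraseIdx i)

section
variable [CommRing R]

@[simp] theorem d_nil (f : List X → R) : d f [] = 0 := by simp [d]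

theorem d_cons (f : List X → R) (x : X) (l : List X) :
    d f (x :: l) = f l - d (fun m => f (x :: m)) l := by
  unfold d
  rw [List.length_cons, Finset.sum_range_succ']
  simp only [pow_zero, one_mul, List.eraseIdx_cons_succ, List.eraseIdx_cons_zero, pow_succ]
  rw [add_comm, sub_eq_add_neg, ← Finset.sum_neg_distrib]
  congr 1
  refine Finset.sum_congr rfl fun i _ => by ring

theorem d_add (f g : List X → R) (l : List X) : d (fun m => f m + g m) l = d f l + d g l := by
  simp [d, mul_add, Finset.sum_add_distrib]

theorem d_sub (f g : List X → R) (l : List X) : d (fun m => f m - g m) l = d f l - d g l := by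
  simp [d, mul_sub, Finset.sum_sub_distrib]

theorem d_neg (f : List X → R) (l : List X) : d (fun m => - f m) l = - d f l := by
  simp [d, Finset.sum_neg_distrib]

theorem d_smul (c : R) (f : List X → R) (l : List X) : d (fun m => c * f m) l = c * d f l := by
  simp only [d, Finset.mul_sum]
  refine Finset.sum_congr rfl fun i _ => by ring

theorem d_add' (f g : List X → R) : d (f + g) = d f + d g := funext fun l => d_add f g l

theorem d_sub' (f g : List X → R) : d (f - g) = d f - d g := funext fun l => d_sub f g l

theorem d_neg' (f : List X → R) : d (-f) = - d f := funext fun l => d_neg f l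

theorem d_smul' (c : R) (f : List X → R) : d (c • f) = c • d f := funext fun l => d_smul c f l

@[simp] theorem d_zero : d (0 : List X → R) = 0 := by
  funext l; simp [d]

@[simp] theorem d_d (f : List X → R) (l : List X) : d (d f) l = 0 := by
  induction l generalizing f with
  | nil => simp
  | cons x l ih =>
    rw [d_cons]
    have : (fun m => d f (x :: m)) = fun m => f m - d (fun k => f (x :: k)) m := by
      funext m; rw [d_cons]
    rw [this, d_sub, ih]
    ring

theorem d_d' (f : List X → R) : d (d f) = 0 := funext fun l => d_d f l

/-- Pullback of a cochain along an arbitrary map. -/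
def pull (φ : X → Y) (f : List Y → R) : List X → R := fun l => f (l.map φ)

theorem d_pull (φ : X → Y) (f : List Y → R) (l : List X) : d (pull φ f) l = pull φ (d f) l := by
  simp only [d, pull, List.length_map, List.eraseIdx_map]

theorem d_pull' (φ : X → Y) (f : List Y → R) : d (pull φ f) = pull φ (d f) :=
  funext fun l => d_pull φ f l

/-- The prism operator between two arbitrary maps `a`, `b`:
`prism a b f (y₀, …, y_q) = ∑ (-1)^i f (a y₀, …, a y_i, b y_i, …, b y_q)`. -/
def prism (a b : Y → X) : (List X → R) → List Y → R
  | _, [] => 0
  | f, y :: l => f (a y :: b y :: l.map b) - prism a b (fun m => f (a y :: m)) l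

@[simp] theorem prism_nil (a b : Y → X) (f : List X → R) : prism a b f [] = 0 := rfl

theorem prism_cons (a b : Y → X) (f : List X → R) (y : Y) (l : List Y) :
    prism a b f (y :: l) = f (a y :: b y :: l.map b) - prism a b (fun m => f (a y :: m)) l := rfl

theorem prism_sub (a b : Y → X) (f g : List X → R) (l : List Y) :
    prism a b (fun m => f m - g m) l = prism a b f l - prism a b g l := by
  induction l generalizing f g with
  | nil => simp
  | cons y l ih => rw [prism_cons, prism_cons, prism_cons, ih]; ring

theorem prism_add (a b : Y → X) (f g : List X → R) (l : List Y) :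
    prism a b (fun m => f m + g m) l = prism a b f l + prism a b g l := by
  induction l generalizing f g with
  | nil => simp
  | cons y l ih => rw [prism_cons, prism_cons, prism_cons, ih]; ring

theorem prism_smul (a b : Y → X) (c : R) (f : List X → R) (l : List Y) :
    prism a b (fun m => c * f m) l = c * prism a b f l := by
  induction l generalizing f with
  | nil => simp
  | cons y l ih => rw [prism_cons, prism_cons, ih]; ring

/-- The prism identity. -/
theorem prism_identity (a b : Y → X) (f : List X → R) (l : List Y) :
    d (prism a b f) l + prism a b (d f) l = pull b f l - pull a f l := by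
  induction l generalizing f with
  | nil => simp [pull]
  | cons y l ih =>
    have h1 : (fun m => prism a b f (y :: m)) =
        fun m => pull b (fun k => f (a y :: b y :: k)) m - prism a b (fun k => f (a y :: k)) m := by
      funext m; rfl
    have h2 : (fun m => d f (a y :: m)) = fun m => f m - d (fun k => f (a y :: k)) m := by
      funext m; rw [d_cons]
    rw [d_cons, h1, d_sub, prism_cons, h2, prism_sub, d_pull, d_cons, d_cons]
    have h3 := ih (fun k => f (a y :: k))
    simp only [pull, List.map_cons] at h3 ⊢
    linear_combination h3

/-- If `f` vanishes on all lists made of the values `a y`, `b y` of the entries of `l`, so does the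
prism. -/
theorem prism_eq_zero (a b : Y → X) (f : List X → R) (l : List Y)
    (h : ∀ k : List X, k.length = l.length + 1 →
      (∀ x ∈ k, ∃ y ∈ l, x = a y ∨ x = b y) → f k = 0) : prism a b f l = 0 := by
  induction l generalizing f with
  | nil => simp
  | cons y l ih =>
    rw [prism_cons, h, ih]
    · simp
    · intro k hk hk'
      apply h
      · simp [hk]
      · intro x hx
        rcases List.mem_cons.1 hx with rfl | hx
        · exact ⟨y, by simp, Or.inl rfl⟩
        · obtain ⟨z, hz, hz'⟩ := hk' x hx
          exact ⟨z, by simp [hz], hz'⟩
    · simp
    · intro x hx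
      rcases List.mem_cons.1 hx with rfl | hx
      · exact ⟨y, by simp, Or.inl rfl⟩
      rcases List.mem_cons.1 hx with rfl | hx
      · exact ⟨y, by simp, Or.inr rfl⟩
      · obtain ⟨z, hz, rfl⟩ := List.mem_map.1 hx
        exact ⟨z, by simp [hz], Or.inr rfl⟩

/-- The cup product of a cochain of degree `p` with a cochain of any degree: front face times
back face. -/
def cup (p : ℕ) (f g : List X → R) : List X → R := fun l => f (l.take (p + 1)) * g (l.drop p)

theorem cup_zero_cons (f g : List X → R) (x : X) (l : List X) :
    cup 0 f g (x :: l) = f [x] * g (x :: l) := by simp [cup]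

theorem cup_succ_cons (p : ℕ) (f g : List X → R) (x : X) (l : List X) :
    cup (p + 1) f g (x :: l) = cup p (fun m => f (x :: m)) g l := by simp [cup]

/-- The Leibniz rule. -/
theorem d_cup (p : ℕ) (f g : List X → R) (l : List X) (hl : p + 2 ≤ l.length) :
    d (cup p f g) l = cup (p + 1) (d f) g l + (-1) ^ p * cup p f (d g) l := by
  induction p generalizing f l with
  | zero =>
    match l, hl with
    | x :: y :: m, _ =>
      have h : (fun k => cup 0 f g (x :: k)) = fun k => f [x] * g (x :: k) := by
        funext k; rw [cup_zero_cons]
      rw [d_cons, h, d_smul, cup_zero_cons, cup_succ_cons, cup_zero_cons, cup_zero_cons,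
        d_cons g x (y :: m)]
      have : d f [x, y] = f [y] - f [x] := by
        rw [d_cons, d_cons]; simp
      rw [this]; ring
  | succ p ih =>
    match l, hl with
    | x :: l, hl =>
      have hl' : p + 2 ≤ l.length := by simpa using hl
      have h : (fun k => cup (p + 1) f g (x :: k)) = cup p (fun m => f (x :: m)) g := by
        funext k; rw [cup_succ_cons]
      have h2 : (fun m => d f (x :: m)) = fun m => f m - d (fun k => f (x :: k)) m := by
        funext m; rw [d_cons]
      rw [d_cons, h, ih _ _ hl', cup_succ_cons, cup_succ_cons, h2]
      simp only [cup]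
      ring

theorem pull_cup (φ : X → Y) (p : ℕ) (f g : List Y → R) (l : List X) :
    pull φ (cup p f g) l = cup p (pull φ f) (pull φ g) l := by
  simp [pull, cup, List.map_take, List.map_drop]

theorem cup_assoc (p q : ℕ) (f g h : List X → R) (l : List X) :
    cup (p + q) (cup p f g) h l = cup p f (cup q g h) l := by
  have h1 : min (p + 1) (p + q + 1) = p + 1 := by omega
  have h2 : p + q + 1 - p = q + 1 := by omega
  simp only [cup, List.take_take, List.drop_take, List.drop_drop, h1, h2]
  rw [mul_assoc]

end

end Pool.Agent.Helper36.AS
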