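import Pool.Agent.Helper36.AS.Pair

/-!
# Mayer-Vietoris for two relatively closed subsets `A ∪ B = T`
-/

namespace Pool.Agent.Helper36.AS

open Set Filter Topology

variable {X Y Z R : Type*}

section Top
variable [TopologicalSpace X] [CommRing R] {Φ : Set X → Prop} [SuppFam Φ] {T A B S : Set X}

/-- `S` is a relatively closed subset of `T`. -/
structure RelClosed (S T : Set X) : Prop where
  sub : S ⊆ T
  cl : closure S ∩ T ⊆ S

theorem RelClosed.eq (h : RelClosed S T) : T ∩ closure S = S :=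
  Subset.antisymm (fun _ hx => h.cl ⟨hx.2, hx.1⟩) fun _ hx => ⟨h.sub hx, subset_closure hx⟩

theorem RelClosed.of_closed (hS : IsClosed S) (h : S ⊆ T) : RelClosed S T :=
  ⟨h, by rw [hS.closure_eq]; exact inter_subset_left⟩

theorem RelClosed.inter_closed (T : Set X) {F : Set X} (hF : IsClosed F) : RelClosed (T ∩ F) T :=
  ⟨inter_subset_left, fun _ hx => ⟨hx.2, hF.closure_subset_iff.2 inter_subset_right hx.1⟩⟩

theorem RelClosed.refl (T : Set X) : RelClosed T T := ⟨Subset.rfl, inter_subset_right⟩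

theorem RelClosed.inter (hA : RelClosed A T) (hB : RelClosed B T) : RelClosed (A ∩ B) T :=
  ⟨fun _ hx => hA.sub hx.1, fun _ hx => ⟨hA.cl ⟨closure_mono inter_subset_left hx.1, hx.2⟩,
    hB.cl ⟨closure_mono inter_subset_right hx.1, hx.2⟩⟩⟩

theorem RelClosed.mono {U : Set X} (hS : RelClosed S T) (h : S ⊆ U) (h' : U ⊆ T) :
    RelClosed S U := ⟨h, fun _ hx => hS.cl ⟨hx.1, h' hx.2⟩⟩

theorem RelClosed.trans {U : Set X} (hS : RelClosed S T) (hT : RelClosed T U) : RelClosed S U :=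
  ⟨hS.sub.trans hT.sub, fun _ hx => hS.cl ⟨hx.1, hT.cl ⟨closure_mono hS.sub hx.1, hx.2⟩⟩⟩

theorem RelClosed.notMem_nhds (hS : RelClosed S T) {x : X} (hx : x ∈ T) (hxS : x ∉ S) :
    ∃ U ∈ 𝓝 x, ∀ y ∈ U, y ∉ S :=
  ⟨(closure S)ᶜ, isClosed_closure.isOpen_compl.mem_nhds fun h => hxS (hS.cl ⟨h, hx⟩),
    fun _ hy h => hy (subset_closure h)⟩

theorem SMap.sub (Φ : Set X → Prop) [SuppFam Φ] (hS : RelClosed S T) :
    SMap Φ Φ S T (fun x => x) :=
  ⟨continuousOn_id, fun _ h => hS.sub h, fun K hK h => by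
    have : S ∩ (fun x => x) ⁻¹' K = K ∩ closure S :=
      Subset.antisymm (fun x hx => ⟨hx.2, subset_closure hx.1⟩)
        fun x hx => ⟨hS.cl ⟨hx.2, hK hx.1⟩, hx.1⟩
    rw [this]; exact SuppFam.inter _ _ h isClosed_closure⟩

variable (R Φ) in
/-- The restriction to a relatively closed subset. -/
noncomputable def res (hS : RelClosed S T) (n : ℕ) : HS R Φ T n →ₗ[R] HS R Φ S n :=
  (SMap.sub Φ hS).map R n

theorem HasSupp.res (hS : RelClosed S T) {m : ℕ} {f : List X → R} (hf : HasSupp Φ T m f) :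
    HasSupp Φ S m f := by
  have h1 := (SMap.sub Φ hS).hasSupp_pull hf
  have : pull (fun x : X => x) f = f := by funext l; simp [pull]
  rwa [this] at h1

theorem res_mem_cocycles (hS : RelClosed S T) {n : ℕ} {f : List X → R}
    (hf : f ∈ cocycles R Φ T n) : f ∈ cocycles R Φ S n := ⟨hf.1.res hS, hf.2.mono hS.sub⟩

theorem res_cls (hS : RelClosed S T) {n : ℕ} {f : List X → R} (hf : f ∈ cocycles R Φ T n) :
    res R Φ hS n (cls f hf) = cls f (res_mem_cocycles hS hf) := by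
  unfold res
  rw [SMap.map_cls, cls_eq_iff]
  refine LZ.mem_coboundaries fun x _ => LZat.of_eq_zero x fun l _ _ => ?_
  simp [pull]

theorem cls_congr {n : ℕ} {f g : List X → R} (hf : f ∈ cocycles R Φ T n)
    (h : LZ T (n + 1) (g - f)) : g ∈ cocycles R Φ T n := by
  have h1 : g = (g - f) + f := by abel
  rw [h1]
  exact ⟨(HasSupp.of_LZ h).add hf.1, by rw [d_add']; exact h.d.add hf.2⟩

theorem cls_eq_of_LZ {n : ℕ} {f g : List X → R} {hf : f ∈ cocycles R Φ T n}
    {hg : g ∈ cocycles R Φ T n} (h : LZ T (n + 1) (f - g)) : cls f hf = cls g hg :=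
  cls_eq_iff.2 h.mem_coboundaries

/-- Gluing of two functions. -/
noncomputable def glue (A : Set X) (p q : List X → R) : List X → R := by
  classical
  exact fun l => if ∀ y ∈ l, y ∈ A then p l else q l

theorem glue_of_mem {p q : List X → R} {l : List X} (h : ∀ y ∈ l, y ∈ A) :
    glue A p q l = p l := by simp only [glue]; exact if_pos h

theorem glue_of_not {p q : List X → R} {l : List X} (h : ¬ ∀ y ∈ l, y ∈ A) :
    glue A p q l = q l := by simp only [glue]; exact if_neg h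

theorem glue_left (hB : RelClosed B T) (hT : T ⊆ A ∪ B) {m : ℕ} {p q : List X → R}
    (hpq : ∀ x ∈ A ∩ B, LZat T m (p - q) x) {x : X} (hx : x ∈ A) (hxT : x ∈ T) :
    LZat T m (glue A p q - p) x := by
  by_cases hxB : x ∈ B
  · obtain ⟨U, hU, h⟩ := hpq x ⟨hx, hxB⟩
    refine ⟨U, hU, fun l hl hl' => ?_⟩
    have h1 := h l hl hl'
    rw [Pi.sub_apply] at h1 ⊢
    by_cases h2 : ∀ y ∈ l, y ∈ A
    · rw [glue_of_mem h2, sub_self]
    · rw [glue_of_not h2]; linear_combination -h1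
  · obtain ⟨U, hU, h⟩ := hB.notMem_nhds hxT hxB
    refine ⟨U, hU, fun l hl hl' => ?_⟩
    rw [Pi.sub_apply, glue_of_mem, sub_self]
    exact fun y hy => (hT (hl' y hy).2).resolve_right (h y (hl' y hy).1)

theorem glue_right (hA : RelClosed A T) {m : ℕ} (hm : m ≠ 0)
    {p q : List X → R} (hpq : ∀ x ∈ A ∩ B, LZat T m (p - q) x) {x : X} (hx : x ∈ B)
    (hxT : x ∈ T) : LZat T m (glue A p q - q) x := by
  by_cases hxA : x ∈ A
  · obtain ⟨U, hU, h⟩ := hpq x ⟨hxA, hx⟩
    refine ⟨U, hU, fun l hl hl' => ?_⟩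
    have h1 := h l hl hl'
    rw [Pi.sub_apply] at h1 ⊢
    by_cases h2 : ∀ y ∈ l, y ∈ A
    · rw [glue_of_mem h2, h1]
    · rw [glue_of_not h2, sub_self]
  · obtain ⟨U, hU, h⟩ := hA.notMem_nhds hxT hxA
    refine ⟨U, hU, fun l hl hl' => ?_⟩
    rw [Pi.sub_apply, glue_of_not, sub_self]
    intro h2
    cases l with
    | nil => exact hm hl.symm
    | cons y l => exact h y (hl' y (by simp)).1 (h2 y (by simp))

theorem glue_hasSupp (hA : RelClosed A T) (hB : RelClosed B T) (hT : T ⊆ A ∪ B) {m : ℕ}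
    (hm : m ≠ 0) {p q : List X → R} (hpq : ∀ x ∈ A ∩ B, LZat T m (p - q) x)
    (hp : HasSupp Φ T m p) (hq : HasSupp Φ T m q) : HasSupp Φ T m (glue A p q) := by
  refine ⟨AS.supp T m p ∪ AS.supp T m q, union_subset (supp_subset _ _ _) (supp_subset _ _ _),
    SuppFam.union _ _ hp.supp hq.supp, fun x hx hx' => ?_⟩
  rcases hT hx with h | h
  · have := (glue_left hB hT hpq h hx).add
      (LZat_of_notMem_supp hx fun h' => hx' (Or.inl h'))
    rwa [sub_add_cancel] at this
  · have := (glue_right hA hm hpq h hx).add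
      (LZat_of_notMem_supp hx fun h' => hx' (Or.inr h'))
    rwa [sub_add_cancel] at this

end Top

section Metric
variable [MetricSpace X] [CommRing R] {Φ : Set X → Prop} [SuppFam Φ] {T A B S : Set X}

/-- Extension lemma for relatively closed subsets. -/
theorem exists_extension' (hS : RelClosed S T) (hΦ : Good Φ T) {n : ℕ} {c : List X → R}
    (hc : c ∈ cocycles R Φ S n) :
    ∃ h : List X → R, HasSupp Φ T (n + 1) h ∧ LZ S (n + 1) (h - c) ∧
      ∀ x ∈ S, LZat T (n + 2) (d h) x := by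
  have h1 := hS.eq
  obtain ⟨h, h2, h3, h4⟩ := exists_extension (F := closure S) isClosed_closure hΦ (c := c)
    (n := n) (by rw [h1]; exact hc)
  exact ⟨h, h2, by rwa [h1] at h3, fun x hx => h4 x (by rwa [h1])⟩

/-- Lemma (R) for relatively closed subsets. -/
theorem key_R'' (hS : RelClosed S T) (hΦ : Good Φ T) {n : ℕ} {h a : List X → R}
    (hs : HasSupp Φ T (n + 1) h) (hd : ∀ x ∈ S, LZat T (n + 2) (d h) x)
    (ha0 : n = 0 → a [] = 0) (ha : HasSupp Φ S n a) (hha : LZ S (n + 1) (h - d a)) :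
    ∃ g : List X → R, (n = 0 → g [] = 0) ∧ HasSupp Φ T n g ∧ LZ S n (g - a) ∧
      ∀ x ∈ S, LZat T (n + 1) (h - d g) x := by
  have h1 := hS.eq
  obtain ⟨g, h2, h3, h4, h5⟩ := key_R' (F := closure S) isClosed_closure hΦ hs
    (fun x hx => hd x (by rwa [h1] at hx)) ha0 (by rwa [h1]) (by rwa [h1])
  exact ⟨g, h2, h3, by rwa [h1] at h4, fun x hx => h5 x (by rwa [h1])⟩

/-- **Mayer-Vietoris, surjectivity**: classes which agree on `A ∩ B` come from `T`. -/
theorem mv_glue (hA : RelClosed A T) (hB : RelClosed B T) (hT : T ⊆ A ∪ B) (hΦ : Good Φ T)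
    {n : ℕ} (α : HS R Φ A n) (β : HS R Φ B n)
    (h : res R Φ ((hA.inter hB).mono inter_subset_left hA.sub) n α =
      res R Φ ((hA.inter hB).mono inter_subset_right hB.sub) n β) :
    ∃ τ : HS R Φ T n, res R Φ hA n τ = α ∧ res R Φ hB n τ = β := by
  obtain ⟨a, ha, rfl⟩ := cls_surj α
  obtain ⟨b, hb, rfl⟩ := cls_surj β
  obtain ⟨p, hp, hpa, hdp⟩ := exists_extension' hA hΦ ha
  obtain ⟨q, hq, hqb, hdq⟩ := exists_extension' hB hΦ hb
  rw [res_cls, res_cls, cls_eq_iff] at h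
  obtain ⟨c, hc0, hc, hac⟩ := h
  have h1 : LZ (A ∩ B) (n + 1) ((p - q) - d c) := by
    have := (hac.add (hpa.mono inter_subset_left)).sub (hqb.mono inter_subset_right)
    have e : a - b - d c + (p - a) - (q - b) = p - q - d c := by abel
    rwa [e] at this
  obtain ⟨g, hg0, hg, hgc, hpg⟩ := key_R'' (hA.inter hB) hΦ (hp.sub hq)
    (fun x hx => by rw [d_sub']; exact (hdp x hx.1).sub (hdq x hx.2)) hc0 hc h1
  have hpq : ∀ x ∈ A ∩ B, LZat T (n + 1) (p - (q + d g)) x := fun x hx => by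
    rw [← sub_sub]; exact hpg x hx
  have hL : ∀ x ∈ A, LZat T (n + 1) (glue A p (q + d g) - p) x := fun x hx =>
    glue_left hB hT hpq hx (hA.sub hx)
  have hR : ∀ x ∈ B, LZat T (n + 1) (glue A p (q + d g) - (q + d g)) x := fun x hx =>
    glue_right hA (by omega) hpq hx (hB.sub hx)
  have hG : glue A p (q + d g) ∈ cocycles R Φ T n := by
    refine ⟨glue_hasSupp hA hB hT (by omega) hpq hp (hq.add hg.d), fun x hx => ?_⟩
    rcases hT hx with h | h
    · have h2 := (hL x h).d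
      rw [d_sub'] at h2
      have := h2.add (hdp x h)
      rwa [sub_add_cancel] at this
    · have h2 := (hR x h).d
      rw [d_sub', d_add', d_d', add_zero] at h2
      have := h2.add (hdq x h)
      rwa [sub_add_cancel] at this
  refine ⟨cls _ hG, ?_, ?_⟩
  · rw [res_cls]
    refine cls_eq_of_LZ fun x hx => ?_
    have := ((hL x hx).mono hA.sub).add (hpa x hx)
    rwa [sub_add_sub_cancel] at this
  · rw [res_cls, cls_eq_iff]
    refine ⟨g, hg0, hg.res hB, fun x hx => ?_⟩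
    have := ((hR x hx).mono hB.sub).add (hqb x hx)
    have e : glue A p (q + d g) - (q + d g) + (q - b) = glue A p (q + d g) - b - d g := by abel
    rwa [e] at this

/-- Choice of an extension. -/
theorem exists_mvExt (hS : RelClosed S T) (hΦ : Good Φ T) {n : ℕ} (α : HS R Φ S n) :
    ∃ h : List X → R, ∃ _ : HasSupp Φ T (n + 1) h, ∃ _ : ∀ x ∈ S, LZat T (n + 2) (d h) x,
      ∃ hc : h ∈ cocycles R Φ S n, cls h hc = α := by
  obtain ⟨c, hc, rfl⟩ := cls_surj α
  obtain ⟨h, hs, hc', hd⟩ := exists_extension' hS hΦ hc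
  exact ⟨h, hs, hd, cls_congr hc hc', cls_eq_of_LZ hc'⟩

theorem cut_A_sub (hA : RelClosed A T) (hB : RelClosed B T) (hT : T ⊆ A ∪ B) {m : ℕ}
    {u : List X → R} (hu : ∀ x ∈ A ∩ B, LZat T m u x) {x : X} (hx : x ∈ A) :
    LZat T m (cut A u - u) x := by
  by_cases hxB : x ∈ B
  · exact ((hu x ⟨hx, hxB⟩).cut A).sub (hu x ⟨hx, hxB⟩)
  · obtain ⟨U, hU, h⟩ := hB.notMem_nhds (hA.sub hx) hxB
    refine ⟨U, hU, fun l hl hl' => ?_⟩
    rw [Pi.sub_apply, cut_of_mem, sub_self]
    exact fun y hy => (hT (hl' y hy).2).resolve_right (h y (hl' y hy).1)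

theorem cut_A_zero (hA : RelClosed A T) (hB : RelClosed B T) {m : ℕ} (hm : m ≠ 0)
    {u : List X → R} (hu : ∀ x ∈ A ∩ B, LZat T m u x) {x : X} (hx : x ∈ B) :
    LZat T m (cut A u) x := by
  by_cases hxA : x ∈ A
  · exact (hu x ⟨hxA, hx⟩).cut A
  · obtain ⟨U, hU, h⟩ := hA.notMem_nhds (hB.sub hx) hxA
    refine ⟨U, hU, fun l hl hl' => cut_of_not fun h2 => ?_⟩
    cases l with
    | nil => exact hm hl.symm
    | cons y l => exact h y (hl' y (by simp)).1 (h2 y (by simp))

theorem mv_mem (hA : RelClosed A T) (hB : RelClosed B T) (hT : T ⊆ A ∪ B) {n : ℕ}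
    {h : List X → R} (hs : HasSupp Φ T (n + 1) h) (hd : ∀ x ∈ A ∩ B, LZat T (n + 2) (d h) x) :
    cut A (d h) ∈ cocycles R Φ T (n + 1) := by
  have h0 : HasSupp Φ T (n + 2) (cut A (d h)) := by
    have := hs.d.supp
    refine ⟨_, supp_subset _ _ _, this, fun x hx hx' => (LZat_of_notMem_supp hx hx').cut A⟩
  refine ⟨h0, fun x hx => ?_⟩
  rcases hT hx with h | h
  · have := (cut_A_sub hA hB hT hd h).d
    rwa [d_sub', d_d', sub_zero] at this
  · exact (cut_A_zero hA hB (by omega) hd h).d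

theorem mv_aux (hA : RelClosed A T) (hB : RelClosed B T) (hT : T ⊆ A ∪ B) (hΦ : Good Φ T)
    {n : ℕ} {h h' : List X → R} (hs : HasSupp Φ T (n + 1) h)
    (hd : ∀ x ∈ A ∩ B, LZat T (n + 2) (d h) x) (hs' : HasSupp Φ T (n + 1) h')
    (hd' : ∀ x ∈ A ∩ B, LZat T (n + 2) (d h') x) (hc : h - h' ∈ coboundaries R Φ (A ∩ B) n) :
    cls (cut A (d h)) (mv_mem hA hB hT hs hd) = cls (cut A (d h')) (mv_mem hA hB hT hs' hd') := by
  obtain ⟨c, hc0, hc, hhc⟩ := hc
  obtain ⟨g, hg0, hg, hgc, hfg⟩ := key_R'' (hA.inter hB) hΦ (hs.sub hs')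
    (fun x hx => by rw [d_sub']; exact (hd x hx).sub (hd' x hx)) hc0 hc hhc
  set u := h - h' - d g with hu
  have hu' : HasSupp Φ T (n + 1) (cut A u) :=
    ⟨_, supp_subset _ _ _, ((hs.sub hs').sub hg.d).supp,
      fun x hx hx' => (LZat_of_notMem_supp hx hx').cut A⟩
  rw [cls_eq_iff]
  refine ⟨cut A u, fun h => by omega, hu', fun x hx => ?_⟩
  have hdu : d u = d h - d h' := by rw [hu, d_sub', d_sub', d_d', sub_zero]
  have hdd : ∀ y ∈ A ∩ B, LZat T (n + 2) (d h - d h') y := fun y hy => (hd y hy).sub (hd' y hy)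
  rw [← cut_sub]
  rcases hT hx with h | h
  · have h1 := (cut_A_sub hA hB hT hfg h).d
    rw [d_sub', hdu] at h1
    have h2 := (cut_A_sub hA hB hT hdd h).sub h1
    rwa [sub_sub_sub_cancel_right] at h2
  · exact (cut_A_zero hA hB (by omega) hdd h).sub (cut_A_zero hA hB (by omega) hfg h).d

variable (R) in
/-- The connecting map of the Mayer-Vietoris sequence. -/
noncomputable def mvDelta (hA : RelClosed A T) (hB : RelClosed B T) (hT : T ⊆ A ∪ B)
    (hΦ : Good Φ T) (n : ℕ) : HS R Φ (A ∩ B) n →ₗ[R] HS R Φ T (n + 1) where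
  toFun α := cls _ (mv_mem hA hB hT (exists_mvExt (hA.inter hB) hΦ α).choose_spec.choose
    (exists_mvExt (hA.inter hB) hΦ α).choose_spec.choose_spec.choose)
  map_add' α β := by
    obtain ⟨hca, h1⟩ := (exists_mvExt (hA.inter hB) hΦ α).choose_spec.choose_spec.choose_spec
    obtain ⟨hcb, h2⟩ := (exists_mvExt (hA.inter hB) hΦ β).choose_spec.choose_spec.choose_spec
    obtain ⟨hcc, h3⟩ :=
      (exists_mvExt (hA.inter hB) hΦ (α + β)).choose_spec.choose_spec.choose_spec
    have ha := (exists_mvExt (hA.inter hB) hΦ α).choose_spec.choose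
    have hb := (exists_mvExt (hA.inter hB) hΦ β).choose_spec.choose
    have hc := (exists_mvExt (hA.inter hB) hΦ (α + β)).choose_spec.choose
    have ha' := (exists_mvExt (hA.inter hB) hΦ α).choose_spec.choose_spec.choose
    have hb' := (exists_mvExt (hA.inter hB) hΦ β).choose_spec.choose_spec.choose
    have hc' := (exists_mvExt (hA.inter hB) hΦ (α + β)).choose_spec.choose_spec.choose
    have h4 : ∀ x ∈ A ∩ B, LZat T (n + 2) (d ((exists_mvExt (hA.inter hB) hΦ α).choose +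
        (exists_mvExt (hA.inter hB) hΦ β).choose)) x := fun x hx => by
      rw [d_add']; exact (ha' x hx).add (hb' x hx)
    refine (mv_aux hA hB hT hΦ hc hc' (ha.add hb) h4 ?_).trans ?_
    · rw [← cls_eq_iff (hf := hcc) (hg := add_mem hca hcb), h3, ← cls_add hca hcb, h1, h2]
    · rw [cls_add]
      refine cls_eq_of_LZ ?_
      rw [d_add', cut_add, sub_self]; exact LZ.zero T _
  map_smul' c α := by
    obtain ⟨hca, h1⟩ := (exists_mvExt (hA.inter hB) hΦ α).choose_spec.choose_spec.choose_spec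
    obtain ⟨hcc, h3⟩ :=
      (exists_mvExt (hA.inter hB) hΦ (c • α)).choose_spec.choose_spec.choose_spec
    have ha := (exists_mvExt (hA.inter hB) hΦ α).choose_spec.choose
    have hc := (exists_mvExt (hA.inter hB) hΦ (c • α)).choose_spec.choose
    have ha' := (exists_mvExt (hA.inter hB) hΦ α).choose_spec.choose_spec.choose
    have hc' := (exists_mvExt (hA.inter hB) hΦ (c • α)).choose_spec.choose_spec.choose
    have h4 : ∀ x ∈ A ∩ B, LZat T (n + 2) (d (c • (exists_mvExt (hA.inter hB) hΦ α).choose))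
        x := fun x hx => by
      rw [d_smul']; exact (ha' x hx).smul c
    refine (mv_aux hA hB hT hΦ hc hc' (ha.smul c) h4 ?_).trans ?_
    · rw [← cls_eq_iff (hf := hcc) (hg := Submodule.smul_mem _ c hca), h3, ← cls_smul c hca, h1]
    · rw [RingHom.id_apply, cls_smul]
      refine cls_eq_of_LZ ?_
      rw [d_smul', cut_smul, sub_self]; exact LZ.zero T _

/-- Every extension can be used for the connecting map. -/
theorem mvDelta_cls (hA : RelClosed A T) (hB : RelClosed B T) (hT : T ⊆ A ∪ B)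
    (hΦ : Good Φ T) {n : ℕ} {h c : List X → R} (hs : HasSupp Φ T (n + 1) h)
    (hd : ∀ x ∈ A ∩ B, LZat T (n + 2) (d h) x) (hc : c ∈ cocycles R Φ (A ∩ B) n)
    (hhc : h - c ∈ coboundaries R Φ (A ∩ B) n) :
    mvDelta R hA hB hT hΦ n (cls c hc) = cls (cut A (d h)) (mv_mem hA hB hT hs hd) := by
  obtain ⟨hca, h1⟩ :=
    (exists_mvExt (hA.inter hB) hΦ (cls c hc)).choose_spec.choose_spec.choose_spec
  refine mv_aux hA hB hT hΦ (exists_mvExt (hA.inter hB) hΦ (cls c hc)).choose_spec.choose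
    (exists_mvExt (hA.inter hB) hΦ (cls c hc)).choose_spec.choose_spec.choose hs hd ?_
  have h2 := cls_eq_iff.1 h1
  have := sub_mem h2 hhc
  rwa [sub_sub_sub_cancel_right] at this

/-- **Mayer-Vietoris, exactness at `A ∩ B`.** -/
theorem mvDelta_eq_zero_iff (hA : RelClosed A T) (hB : RelClosed B T) (hT : T ⊆ A ∪ B)
    (hΦ : Good Φ T) {n : ℕ} (γ : HS R Φ (A ∩ B) n) :
    mvDelta R hA hB hT hΦ n γ = 0 ↔ ∃ (α : HS R Φ A n) (β : HS R Φ B n),
      γ = res R Φ ((hA.inter hB).mono inter_subset_left hA.sub) n α +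
        res R Φ ((hA.inter hB).mono inter_subset_right hB.sub) n β := by
  constructor
  · intro h0
    obtain ⟨h, hs, hd, hc, rfl⟩ := exists_mvExt (hA.inter hB) hΦ γ
    rw [mvDelta_cls hA hB hT hΦ hs hd hc (by rw [sub_self]; exact zero_mem _),
      cls_eq_zero_iff] at h0
    obtain ⟨k, _, hk, hhk⟩ := h0
    have ha : h - k ∈ cocycles R Φ A n := by
      refine ⟨(hs.sub hk).res hA, fun x hx => ?_⟩
      rw [d_sub']
      have := ((hhk x (hA.sub hx)).sub (cut_A_sub hA hB hT hd hx)).mono hA.sub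
      have e : cut A (d h) - d k - (cut A (d h) - d h) = d h - d k := by abel
      rwa [e] at this
    have hb : k ∈ cocycles R Φ B n := by
      refine ⟨hk.res hB, fun x hx => ?_⟩
      have := ((cut_A_zero hA hB (by omega) hd hx).sub (hhk x (hB.sub hx))).mono hB.sub
      rwa [sub_sub_cancel] at this
    refine ⟨cls _ ha, cls _ hb, ?_⟩
    rw [res_cls, res_cls, cls_add]
    refine cls_eq_of_LZ ?_
    rw [sub_add_cancel, sub_self]; exact LZ.zero _ _
  · rintro ⟨α, β, rfl⟩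
    rw [map_add]
    obtain ⟨p, hp, hdp, hcp, rfl⟩ := exists_mvExt hA hΦ α
    obtain ⟨q, hq, hdq, hcq, rfl⟩ := exists_mvExt hB hΦ β
    have e1 : ∀ x ∈ A ∩ B, LZat T (n + 2) (d p) x := fun x hx => hdp x hx.1
    have e2 : ∀ x ∈ A ∩ B, LZat T (n + 2) (d q) x := fun x hx => hdq x hx.2
    rw [res_cls, res_cls, mvDelta_cls hA hB hT hΦ hp e1 _ (by rw [sub_self]; exact zero_mem _),
      mvDelta_cls hA hB hT hΦ hq e2 _ (by rw [sub_self]; exact zero_mem _)]
    have h1 : LZ T (n + 2) (cut A (d p)) := fun x hx => by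
      rcases hT hx with h | h
      · exact (hdp x h).cut A
      · exact cut_A_zero hA hB (by omega) e1 h
    have h2 : cut A (d q) ∈ coboundaries R Φ T (n + 1) := by
      refine ⟨q, fun h => by omega, hq, fun x hx => ?_⟩
      rcases hT hx with h | h
      · exact cut_A_sub hA hB hT e2 h
      · exact (cut_A_zero hA hB (by omega) e2 h).sub (hdq x h)
    rw [cls_eq_zero_iff.2 h1.mem_coboundaries, cls_eq_zero_iff.2 h2, add_zero]

/-- **Mayer-Vietoris, exactness at `T`** (positive degree). -/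
theorem res_eq_zero_iff (hA : RelClosed A T) (hB : RelClosed B T) (hT : T ⊆ A ∪ B)
    (hΦ : Good Φ T) {n : ℕ} (τ : HS R Φ T (n + 1)) :
    (res R Φ hA (n + 1) τ = 0 ∧ res R Φ hB (n + 1) τ = 0) ↔
      ∃ γ : HS R Φ (A ∩ B) n, mvDelta R hA hB hT hΦ n γ = τ := by
  constructor
  · rintro ⟨h1, h2⟩
    obtain ⟨u, hu, rfl⟩ := cls_surj τ
    rw [res_cls, cls_eq_zero_iff] at h1 h2
    obtain ⟨a, ha0, ha, hua⟩ := h1
    obtain ⟨b, hb0, hb, hub⟩ := h2
    obtain ⟨p, hp0, hp, hpa, hup⟩ := key_R'' hA hΦ hu.1 (fun x hx => hu.2 x (hA.sub hx)) ha0 ha hua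
    obtain ⟨q, hq0, hq, hqb, huq⟩ := key_R'' hB hΦ hu.1 (fun x hx => hu.2 x (hB.sub hx)) hb0 hb hub
    -- `u = d p` near `A`, `u = d q` near `B`, so `p - q` is a cocycle near `A ∩ B`
    have hd : ∀ x ∈ A ∩ B, LZat T (n + 2) (d (p - q)) x := fun x hx => by
      rw [d_sub']
      have := (huq x hx.2).sub (hup x hx.1)
      rwa [sub_sub_sub_cancel_left] at this
    have hc : p - q ∈ cocycles R Φ (A ∩ B) n :=
      ⟨(hp.sub hq).res (hA.inter hB), fun x hx => (hd x hx).mono (hA.inter hB).sub⟩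
    refine ⟨cls _ hc, ?_⟩
    rw [mvDelta_cls hA hB hT hΦ (hp.sub hq) hd hc (by rw [sub_self]; exact zero_mem _),
      cls_eq_iff]
    refine ⟨-q, fun h => by omega, hq.neg, fun x hx => ?_⟩
    have e : cut A (d (p - q)) - u - d (-q) = (cut A (d (p - q)) - d (p - q)) - (u - d p) := by
      rw [d_neg', d_sub']; abel
    have e' : cut A (d (p - q)) - u - d (-q) = cut A (d (p - q)) - (u - d q) := by
      rw [d_neg']; abel
    rcases hT hx with h | h
    · rw [e]
      exact (cut_A_sub hA hB hT hd h).sub (hup x h)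
    · rw [e']
      exact (cut_A_zero hA hB (by omega) hd h).sub (huq x h)
  · rintro ⟨γ, rfl⟩
    obtain ⟨h, hs, hd, hc, rfl⟩ := exists_mvExt (hA.inter hB) hΦ γ
    rw [mvDelta_cls hA hB hT hΦ hs hd hc (by rw [sub_self]; exact zero_mem _), res_cls, res_cls,
      cls_eq_zero_iff, cls_eq_zero_iff]
    constructor
    · exact ⟨h, fun h => by omega, hs.res hA, fun x hx =>
        (cut_A_sub hA hB hT hd hx).mono hA.sub⟩
    · exact LZ.mem_coboundaries fun x hx => (cut_A_zero hA hB (by omega) hd hx).mono hB.sub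

/-- **Mayer-Vietoris, degree zero**: restriction to `A` and `B` is injective. -/
theorem res_zero_injective (hA : RelClosed A T) (hB : RelClosed B T) (hT : T ⊆ A ∪ B)
    (τ : HS R Φ T 0) (h1 : res R Φ hA 0 τ = 0) (h2 : res R Φ hB 0 τ = 0) : τ = 0 := by
  obtain ⟨u, hu, rfl⟩ := cls_surj τ
  rw [res_cls, cls_eq_zero_iff] at h1 h2
  rw [cls_eq_zero_iff]
  have key : ∀ S : Set X, u ∈ coboundaries R Φ S 0 → ∀ x ∈ S, u [x] = 0 := by
    rintro S ⟨g, hg0, _, hg⟩ x hx
    obtain ⟨U, hU, h⟩ := hg x hx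
    have := h [x] rfl (by simpa using ⟨mem_of_mem_nhds hU, hx⟩)
    rw [Pi.sub_apply, d_cons, hg0 rfl] at this
    simpa using this
  refine LZ.mem_coboundaries fun x hx => LZat.of_eq_zero x fun l hl hl' => ?_
  match l, hl with
  | [y], _ =>
    rcases hT (hl' y (by simp)) with h | h
    · exact key A h1 y h
    · exact key B h2 y h

end Metric

end Pool.Agent.Helper36.AS
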