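import Pool.Agent.Helper36.AS.Homotopy
import Pool.Agent.Helper36.AS.MV

/-!
# Compact supports: locally compact subsets, proper maps and homotopies, the push-off lemma
-/

namespace Pool.Agent.Helper36.AS

open Set Filter Topology

variable {X Y Z R : Type*}

section Top
variable [TopologicalSpace X] [T2Space X]

/-- Locally compact subsets. -/
def LCpt (T : Set X) : Prop := ∀ x ∈ T, ∃ U ∈ 𝓝 x, ∃ L ⊆ T, IsCompact L ∧ U ∩ T ⊆ L

theorem LCpt.good {T : Set X} (hT : LCpt T) : Good IsCompact T := by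
  intro K hK hKc _
  choose! U hU L hLT hL hUL using hT
  obtain ⟨t, htK, ht⟩ := hKc.elim_nhds_subcover (fun x => interior (U x))
    fun x hx => interior_mem_nhds.2 (hU x (hK hx))
  have hLc : IsCompact (⋃ x ∈ t, L x) := t.isCompact_biUnion fun x hx => hL x (hK (htK x hx))
  refine ⟨⋃ x ∈ t, interior (U x), isOpen_biUnion fun _ _ => isOpen_interior, ht,
    ⋃ x ∈ t, L x, iUnion₂_subset fun x hx => hLT x (hK (htK x hx)), hLc, ?_, ?_⟩
  · rintro x ⟨hx, hxT⟩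
    obtain ⟨y, hy, hxy⟩ := mem_iUnion₂.1 hx
    exact mem_iUnion₂.2 ⟨y, hy, hUL y (hK (htK y hy)) ⟨interior_subset hxy, hxT⟩⟩
  · rw [hLc.isClosed.closure_eq]; exact inter_subset_left

theorem LCpt.of_locallyClosed [LocallyCompactSpace X] {T : Set X} (hT : IsLocallyClosed T) :
    LCpt T := by
  obtain ⟨U, Z, hU, hZ, rfl⟩ := hT
  rintro x ⟨hxU, hxZ⟩
  obtain ⟨K, hK, hKU, hKc⟩ := local_compact_nhds (hU.mem_nhds hxU)
  exact ⟨K, hK, K ∩ Z, inter_subset_inter_left Z hKU, hKc.inter_right hZ,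
    fun y hy => ⟨hy.1, hy.2.2⟩⟩

theorem LCpt.of_open [LocallyCompactSpace X] {T : Set X} (hT : IsOpen T) : LCpt T :=
  LCpt.of_locallyClosed hT.isLocallyClosed

theorem LCpt.of_closed [LocallyCompactSpace X] {T : Set X} (hT : IsClosed T) : LCpt T :=
  LCpt.of_locallyClosed hT.isLocallyClosed

theorem LCpt.univ [LocallyCompactSpace X] : LCpt (Set.univ : Set X) := LCpt.of_open isOpen_univ

theorem LCpt.of_isCompact {T : Set X} (hT : IsCompact T) : LCpt T := fun _ _ =>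
  ⟨Set.univ, univ_mem, T, Subset.rfl, hT, inter_subset_right⟩

theorem LCpt.relClosed {S T : Set X} (hT : LCpt T) (hS : RelClosed S T) : LCpt S := by
  intro x hx
  obtain ⟨U, hU, L, hLT, hL, hUL⟩ := hT x (hS.sub hx)
  exact ⟨U, hU, L ∩ closure S, fun y hy => hS.cl ⟨hy.2, hLT hy.1⟩, hL.inter_right isClosed_closure,
    fun y hy => ⟨hUL ⟨hy.1, hS.sub hy.2⟩, subset_closure hy.2⟩⟩

/-- A relatively open subset of `T`. -/
theorem LCpt.relOpen {S T : Set X} (hT : LCpt T) (hS : RelClosed (T \ S) T) (hST : S ⊆ T) :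
    LCpt S := by
  intro x hx
  obtain ⟨U, hU, L, hLT, hL, hUL⟩ := hT x (hST hx)
  -- a compact neighbourhood of `x` in `L`
  have h1 : x ∉ closure (T \ S) := fun h => (hS.cl ⟨h, hST hx⟩).2 hx
  have hxL : x ∈ L := hUL ⟨mem_of_mem_nhds hU, hST hx⟩
  haveI : CompactSpace L := isCompact_iff_compactSpace.1 hL
  obtain ⟨V, hV, hVc, hVL⟩ := exists_mem_nhds_isCompact_mapsTo (f := (Subtype.val : L → X))
    continuous_subtype_val (x := ⟨x, hxL⟩) (s := (closure (T \ S))ᶜ)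
    (isClosed_closure.isOpen_compl.mem_nhds h1)
  obtain ⟨W, hW, hWV⟩ := mem_nhds_subtype L ⟨x, hxL⟩ V |>.1 hV
  refine ⟨U ∩ W, inter_mem hU hW, Subtype.val '' V, ?_, hVc.image continuous_subtype_val, ?_⟩
  · rintro _ ⟨y, hy, rfl⟩
    by_contra h
    exact hVL hy (subset_closure ⟨hLT y.2, h⟩)
  · rintro y ⟨⟨hyU, hyW⟩, hyS⟩
    exact ⟨⟨y, hUL ⟨hyU, hST hyS⟩⟩, hWV hyW, rfl⟩

theorem LCpt.prod [TopologicalSpace Y] [T2Space Y] {S : Set X} {T : Set Y} (hS : LCpt S)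
    (hT : LCpt T) : LCpt (S ×ˢ T) := by
  rintro ⟨x, y⟩ ⟨hx, hy⟩
  obtain ⟨U, hU, L, hL, hLc, hUL⟩ := hS x hx
  obtain ⟨V, hV, M, hM, hMc, hVM⟩ := hT y hy
  exact ⟨U ×ˢ V, prod_mem_nhds hU hV, L ×ˢ M, prod_mono hL hM, hLc.prod hMc,
    fun p hp => ⟨hUL ⟨hp.1.1, hp.2.1⟩, hVM ⟨hp.1.2, hp.2.2⟩⟩⟩

end Top

section Proper
variable [TopologicalSpace X] [TopologicalSpace Y] [T2Space X] [T2Space Y]

/-- Proper maps. -/
theorem SMap.of_proper {T : Set X} {B : Set Y} {φ : X → Y} (h : ContinuousOn φ T)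
    (h' : MapsTo φ T B) (hp : ∀ K ⊆ B, IsCompact K → ∃ C ⊆ T, IsCompact C ∧
      ∀ x ∈ T, φ x ∈ K → x ∈ C) : SMap IsCompact IsCompact T B φ := by
  refine ⟨h, h', fun K hK hKc => ?_⟩
  obtain ⟨C, hCT, hC, hC'⟩ := hp K hK hKc
  have h1 : T ∩ φ ⁻¹' K = C ∩ φ ⁻¹' K :=
    Subset.antisymm (fun x hx => ⟨hC' x hx.1 hx.2, hx.2⟩) fun x hx => ⟨hCT hx.1, hx.2⟩
  rw [h1]
  obtain ⟨F, hF, hF'⟩ := (continuousOn_iff_isClosed.1 (h.mono hCT)) K hKc.isClosed
  rw [inter_comm, hF', inter_comm]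
  exact hC.inter_right hF

/-- Homeomorphisms between subsets. -/
theorem SMap.of_homeo {T : Set X} {B : Set Y} {φ : X → Y} {ψ : Y → X} (h : ContinuousOn φ T)
    (h' : MapsTo φ T B) (hψ : ContinuousOn ψ B) (hψ' : MapsTo ψ B T)
    (hl : ∀ x ∈ T, ψ (φ x) = x) : SMap IsCompact IsCompact T B φ :=
  SMap.of_proper h h' fun K hK hKc => ⟨ψ '' K, by
    rintro _ ⟨y, hy, rfl⟩; exact hψ' (hK hy), hKc.image_of_continuousOn (hψ.mono hK),
    fun x hx hxK => ⟨φ x, hxK, hl x hx⟩⟩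

end Proper

section Homotopy
variable [MetricSpace X] [MetricSpace Y]

/-- Proper homotopies. -/
theorem SHomotopy.of_proper {T : Set X} {B : Set Y} {G : X → ℝ → Y}
    (h : ContinuousOn (fun p : X × ℝ => G p.1 p.2) (T ×ˢ Icc 0 1))
    (h' : ∀ x ∈ T, ∀ s ∈ Icc (0 : ℝ) 1, G x s ∈ B)
    (hp : ∀ K ⊆ B, IsCompact K → ∃ C ⊆ T, IsCompact C ∧
      ∀ x ∈ T, ∀ s ∈ Icc (0 : ℝ) 1, G x s ∈ K → x ∈ C) :
    SHomotopy IsCompact IsCompact T B G := by
  refine ⟨h, h', fun K hK hKc _ => ?_⟩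
  obtain ⟨C, hCT, hC, hC'⟩ := hp K hK hKc
  obtain ⟨F, hF, hF'⟩ := (continuousOn_iff_isClosed.1
    (h.mono (prod_mono_left hCT : C ×ˢ Icc (0 : ℝ) 1 ⊆ T ×ˢ Icc 0 1))) K hKc.isClosed
  have h2 : IsCompact ((C ×ˢ Icc (0 : ℝ) 1) ∩ F) := (hC.prod isCompact_Icc).inter_right hF
  have h3 : {x | x ∈ T ∧ ∃ s ∈ Icc (0 : ℝ) 1, G x s ∈ K} =
      Prod.fst '' ((C ×ˢ Icc (0 : ℝ) 1) ∩ F) := by
    rw [inter_comm, ← hF']
    ext x
    constructor
    · rintro ⟨hx, s, hs, hxs⟩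
      exact ⟨(x, s), ⟨hxs, hC' x hx s hs hxs, hs⟩, rfl⟩
    · rintro ⟨⟨y, s⟩, ⟨hys, hy, hs⟩, rfl⟩
      exact ⟨hCT hy, s, hs, hys⟩
  rw [h3]
  exact h2.image continuous_fst

variable [CommRing R]

/-- **Push-off lemma**: if every compact subset of `T` can be left by a proper homotopy, then the
compactly supported cohomology of `T` vanishes. -/
theorem subsingleton_of_push {T : Set X} (hT : LCpt T)
    (h : ∀ K ⊆ T, IsCompact K → ∃ G : X → ℝ → X, SHomotopy IsCompact IsCompact T T G ∧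
      (∀ x ∈ T, G x 0 = x) ∧ ∀ x ∈ T, G x 1 ∉ K) (n : ℕ) : Subsingleton (Hc R T n) := by
  refine ⟨fun α β => ?_⟩
  have key : ∀ α : Hc R T n, α = 0 := by
    intro α
    obtain ⟨f, hf, rfl⟩ := cls_surj α
    rw [cls_eq_zero_iff]
    obtain ⟨G, hG, h0, h1⟩ := h (supp T (n + 1) f) (supp_subset _ _ _) hf.1.supp
    have h2 := hG.mem_coboundaries hT.good hf
    have hc : ContinuousOn (fun x => G x 1) T :=
      hG.cont.comp (continuousOn_id.prodMk continuousOn_const) fun x hx =>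
        ⟨hx, zero_le_one, le_rfl⟩
    have hm : MapsTo (fun x => G x 1) T T := fun x hx => hG.maps x hx 1 ⟨zero_le_one, le_rfl⟩
    have h3 : LZ T (n + 1) (pull (fun x => G x 1) f) := fun x hx =>
      LZat.pull (φ := fun x => G x 1) (LZat_of_notMem_supp (hm hx) (h1 x hx)) (hc x hx) hm
    have h4 : LZ T (n + 1) (f - pull (fun x => G x 0) f) := fun x hx =>
      LZat.of_eq_zero x fun l _ hl => by
        have : l.map (fun x => G x 0) = l := by
          conv_rhs => rw [← List.map_id l]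
          exact List.map_congr_left fun y hy => h0 y (hl y hy)
        simp [pull, this]
    have h6 := sub_mem (h3.mem_coboundaries (Φ := IsCompact)) h2
    have e : f = (f - pull (fun x => G x 0) f) + (pull (fun x => G x 1) f -
      (pull (fun x => G x 1) f - pull (fun x => G x 0) f)) := by abel
    rw [e]
    exact add_mem h4.mem_coboundaries h6
  rw [key α, key β]

/-- The half-open factor `[0, ∞)` kills the compactly supported cohomology. -/
theorem subsingleton_prod_Ici {A : Set X} (hA : LCpt A) (n : ℕ) :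
    Subsingleton (Hc R (A ×ˢ Ici (0 : ℝ)) n) := by
  refine subsingleton_of_push (hA.prod (LCpt.of_closed isClosed_Ici)) (fun K hK hKc => ?_) n
  obtain ⟨N, hN⟩ := (hKc.image continuous_snd).bddAbove
  set N' : ℝ := max N 0 + 1 with hN'
  have hN0 : 0 < N' := by positivity
  refine ⟨fun p s => (p.1, p.2 + s * N'), SHomotopy.of_proper ?_ ?_ ?_, fun p _ => by simp,
    fun p hp hpK => ?_⟩
  · fun_prop
  · rintro p ⟨hp1, hp2⟩ s hs
    refine ⟨hp1, ?_⟩
    have h1 : 0 ≤ p.2 := hp2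
    have h2 : 0 ≤ s * N' := mul_nonneg hs.1 hN0.le
    show 0 ≤ p.2 + s * N'
    linarith
  · intro C hC hCc
    obtain ⟨M, hM⟩ := (hCc.image continuous_snd).bddAbove
    refine ⟨(Prod.fst '' C) ×ˢ Icc 0 M, ?_, (hCc.image continuous_fst).prod isCompact_Icc, ?_⟩
    · rintro p ⟨⟨q, hq, hq'⟩, hp⟩
      exact ⟨hq' ▸ (hC hq).1, hp.1⟩
    · rintro p ⟨hp1, hp2⟩ s hs hps
      refine ⟨⟨_, hps, rfl⟩, hp2, ?_⟩
      have h1 : p.2 + s * N' ≤ M := hM ⟨_, hps, rfl⟩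
      have h2 : 0 ≤ s * N' := mul_nonneg hs.1 hN0.le
      linarith
  · have h1 : p.2 + 1 * N' ≤ N := hN ⟨_, hpK, rfl⟩
    have h2 : 0 ≤ p.2 := hp.2
    have h3 : N ≤ max N 0 := le_max_left _ _
    linarith

/-- Homeomorphic subsets have the same compactly supported cohomology. -/
theorem homeo_bijective {T : Set X} {B : Set Y} {φ : X → Y} {ψ : Y → X} (h : ContinuousOn φ T)
    (h' : MapsTo φ T B) (hψ : ContinuousOn ψ B) (hψ' : MapsTo ψ B T)
    (hl : ∀ x ∈ T, ψ (φ x) = x) (hr : ∀ y ∈ B, φ (ψ y) = y) (n : ℕ) :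
    Function.Bijective ((SMap.of_homeo h h' hψ hψ' hl).map R n) := by
  set a := SMap.of_homeo h h' hψ hψ' hl
  set b := SMap.of_homeo hψ hψ' h h' hr
  have h1 : ∀ α, a.map R n (b.map R n α) = α := by
    intro α
    rw [← SMap.map_comp, SMap.map_congr (b.comp a) (SMap.refl IsCompact T) (fun x hx => hl x hx),
      SMap.map_refl]
  have h2 : ∀ α, b.map R n (a.map R n α) = α := by
    intro α
    rw [← SMap.map_comp, SMap.map_congr (a.comp b) (SMap.refl IsCompact B) (fun x hx => hr x hx),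
      SMap.map_refl]
  exact ⟨fun α β hαβ => by rw [← h2 α, ← h2 β, hαβ], fun α => ⟨_, h1 α⟩⟩

variable (R) in
/-- Homeomorphic subsets have the same compactly supported cohomology. -/
noncomputable def homeoEquiv {T : Set X} {B : Set Y} {φ : X → Y} {ψ : Y → X}
    (h : ContinuousOn φ T) (h' : MapsTo φ T B) (hψ : ContinuousOn ψ B) (hψ' : MapsTo ψ B T)
    (hl : ∀ x ∈ T, ψ (φ x) = x) (hr : ∀ y ∈ B, φ (ψ y) = y) (n : ℕ) :
    Hc R B n ≃ₗ[R] Hc R T n :=
  LinearEquiv.ofBijective _ (homeo_bijective h h' hψ hψ' hl hr n)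

/-- The half-open factor `(-∞, 0]`. -/
theorem subsingleton_prod_Iic {A : Set X} (hA : LCpt A) (n : ℕ) :
    Subsingleton (Hc R (A ×ˢ Iic (0 : ℝ)) n) := by
  haveI := subsingleton_prod_Ici (R := R) hA n
  have h1 : Continuous fun p : X × ℝ => (p.1, -p.2) := by fun_prop
  exact (homeoEquiv R (T := A ×ˢ Iic (0 : ℝ)) (B := A ×ˢ Ici (0 : ℝ))
    (φ := fun p => (p.1, -p.2)) (ψ := fun p => (p.1, -p.2)) h1.continuousOn
    (fun p hp => ⟨hp.1, by have h2 : p.2 ≤ 0 := hp.2; show 0 ≤ -p.2; linarith⟩) h1.continuousOn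
    (fun p hp => ⟨hp.1, by have h2 : 0 ≤ p.2 := hp.2; show -p.2 ≤ 0; linarith⟩) (fun p _ => by simp) (fun p _ => by simp)
    n).symm.toEquiv.subsingleton

end Homotopy

end Pool.Agent.Helper36.AS
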