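import Pool.Agent.Helper36.AS.Pair

/-!
# Homotopy invariance (all metric spaces, supports in families)
-/

namespace Pool.Agent.Helper36.AS

open Set Filter Topology

variable {X Y Z R : Type*}

section Prism
variable [CommRing R]

theorem prism_congr {a b a' b' : Y → X} (f : List X → R) {l : List Y}
    (ha : ∀ y ∈ l, a y = a' y) (hb : ∀ y ∈ l, b y = b' y) : prism a b f l = prism a' b' f l := by
  induction l generalizing f with
  | nil => rfl
  | cons y l ih =>
    rw [prism_cons, prism_cons, ha y (by simp), hb y (by simp),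
      List.map_congr_left fun z hz => hb z (by simp [hz]),
      ih _ (fun z hz => ha z (by simp [hz])) fun z hz => hb z (by simp [hz])]

end Prism

section Lebesgue
variable [MetricSpace X] [TopologicalSpace Y] [CommRing R]

/-- The good radii at `x`. -/
def GoodRadius (T : Set X) (G : X → ℝ → Y) (m : ℕ) (g : List Y → R) (x : X) (r : ℝ) : Prop :=
  ∀ s ∈ Icc (0 : ℝ) 1, ∀ l : List Y, l.length = m →
    (∀ z ∈ l, ∃ y ∈ T, dist y x < r ∧ ∃ s' ∈ Icc (0 : ℝ) 1, |s' - s| < r ∧ z = G y s') → g l = 0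

theorem GoodRadius.mono {T : Set X} {G : X → ℝ → Y} {m : ℕ} {g : List Y → R} {x x' : X}
    {r r' : ℝ} (h : GoodRadius T G m g x r) (hr : r' + dist x' x ≤ r) :
    GoodRadius T G m g x' r' := by
  intro s hs l hl hl'
  refine h s hs l hl fun z hz => ?_
  obtain ⟨y, hy, hyx, s', hs', hss, rfl⟩ := hl' z hz
  have h0 : 0 ≤ dist x' x := dist_nonneg
  refine ⟨y, hy, ?_, s', hs', by linarith, rfl⟩
  linarith [dist_triangle y x' x]

theorem exists_goodRadius {T : Set X} {B : Set Y} {G : X → ℝ → Y}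
    (hG : ContinuousOn (fun p : X × ℝ => G p.1 p.2) (T ×ˢ Icc 0 1))
    (hB : ∀ x ∈ T, ∀ s ∈ Icc (0 : ℝ) 1, G x s ∈ B) {m : ℕ} {g : List Y → R} (hg : LZ B m g)
    {x : X} (hx : x ∈ T) : ∃ r : ℝ, 0 < r ∧ r ≤ 1 ∧ GoodRadius T G m g x r := by
  have key : ∀ s : ℝ, s ∈ Icc (0 : ℝ) 1 → ∃ r : ℝ, 0 < r ∧ ∀ l : List Y, l.length = m →
      (∀ z ∈ l, ∃ y ∈ T, dist y x < r + r ∧ ∃ s' ∈ Icc (0 : ℝ) 1, |s' - s| < r + r ∧
        z = G y s') → g l = 0 := by
    intro s hs
    obtain ⟨U, hU, h⟩ := hg (G x s) (hB x hx s hs)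
    have h1 := hG (x, s) ⟨hx, hs⟩ hU
    obtain ⟨r, hr, h2⟩ := Metric.mem_nhdsWithin_iff.1 h1
    refine ⟨r / 2, half_pos hr, fun l hl hl' => h l hl fun z hz => ?_⟩
    obtain ⟨y, hy, hyx, s', hs', hss, rfl⟩ := hl' z hz
    refine ⟨?_, hB y hy s' hs'⟩
    have h3 : (y, s') ∈ Metric.ball (x, s) r ∩ T ×ˢ Icc (0 : ℝ) 1 := by
      refine ⟨?_, hy, hs'⟩
      rw [Metric.mem_ball, Prod.dist_eq, Real.dist_eq]
      refine max_lt ?_ ?_ <;> linarith
    exact h2 h3
  choose! r hr h using key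
  obtain ⟨t, htc⟩ := isCompact_Icc.elim_nhds_subcover' (fun s _ => Metric.ball s (r s))
    (fun s hs => Metric.ball_mem_nhds s (hr s hs))
  have hfin : ∃ ρ : ℝ, 0 < ρ ∧ ρ ≤ 1 ∧ ∀ s ∈ t, ρ ≤ r s := by
    have h1 : ∀ᶠ ρ in 𝓝[>] (0 : ℝ), ρ ≤ 1 ∧ ∀ s ∈ t, ρ ≤ r s := by
      refine Filter.Eventually.and ?_ ((Finset.eventually_all t).2 fun s _ => ?_)
      · exact nhdsWithin_le_nhds (eventually_le_nhds one_pos)
      · exact nhdsWithin_le_nhds (eventually_le_nhds (hr s s.2))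
    obtain ⟨ρ, hρ, hρ0⟩ := (h1.and self_mem_nhdsWithin).exists
    exact ⟨ρ, hρ0, hρ.1, hρ.2⟩
  obtain ⟨ρ, hρ, hρ1, hρt⟩ := hfin
  refine ⟨ρ, hρ, hρ1, fun s hs l hl hl' => ?_⟩
  obtain ⟨i, hi⟩ := mem_iUnion.1 (htc hs)
  obtain ⟨hit, hi⟩ := mem_iUnion.1 hi
  refine h i i.2 l hl fun z hz => ?_
  obtain ⟨y, hy, hyx, s', hs', hss, rfl⟩ := hl' z hz
  have h1 := hρt i hit
  have h2 : |s - i| < r i := by
    have := hi
    rwa [Metric.mem_ball, Real.dist_eq] at this
  have h3 := hr i i.2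
  refine ⟨y, hy, by linarith, s', hs', ?_, rfl⟩
  have h4 : |s' - i| ≤ |s' - s| + |s - i| := abs_sub_le _ _ _
  linarith

/-- The Lebesgue function. -/
theorem exists_lebesgue {T : Set X} {B : Set Y} {G : X → ℝ → Y}
    (hG : ContinuousOn (fun p : X × ℝ => G p.1 p.2) (T ×ˢ Icc 0 1))
    (hB : ∀ x ∈ T, ∀ s ∈ Icc (0 : ℝ) 1, G x s ∈ B) {m : ℕ} {g : List Y → R} (hg : LZ B m g) :
    ∃ ε : X → ℝ, ContinuousOn ε T ∧ (∀ x, 0 < ε x) ∧ (∀ x, ε x ≤ 1) ∧
      ∀ x ∈ T, GoodRadius T G m g x (ε x) := by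
  classical
  obtain ⟨φ, hφ⟩ := exists_continuous_forall_mem_convex_of_local_const (X := T) (E := ℝ)
    (t := fun x => {r | 0 < r ∧ r ≤ 1 ∧ GoodRadius T G m g (x : X) r}) (fun x => by
      rintro r hr r' hr' a b ha hb hab
      simp only [smul_eq_mul, mem_setOf_eq] at hr hr' ⊢
      rcases le_total r r' with h | h
      · have h1 : a * r + b * r' ≤ r' := by nlinarith
        refine ⟨by nlinarith, by linarith [hr'.2.1], hr'.2.2.mono ?_⟩
        simpa using h1
      · have h1 : a * r + b * r' ≤ r := by nlinarith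
        refine ⟨by nlinarith, by linarith [hr.2.1], hr.2.2.mono ?_⟩
        simpa using h1) (fun x => by
      obtain ⟨r, hr, hr1, hr2⟩ := exists_goodRadius hG hB hg x.2
      refine ⟨r / 2, ?_⟩
      filter_upwards [Metric.ball_mem_nhds x (half_pos hr)] with y hy
      refine ⟨half_pos hr, by linarith, hr2.mono ?_⟩
      have : dist (y : X) (x : X) < r / 2 := hy
      linarith)
  refine ⟨fun x => if h : x ∈ T then φ ⟨x, h⟩ else 1, ?_, fun x => ?_, fun x => ?_,
    fun x hx => ?_⟩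
  · rw [continuousOn_iff_continuous_restrict]
    refine φ.continuous.congr fun x => ?_
    simp
  · by_cases h : x ∈ T
    · simp only [h, dif_pos]; exact (hφ ⟨x, h⟩).1
    · simp [h]
  · by_cases h : x ∈ T
    · simp only [h, dif_pos]; exact (hφ ⟨x, h⟩).2.1
    · simp [h]
  · simp only [hx, dif_pos]; exact (hφ ⟨x, hx⟩).2.2

end Lebesgue

section Steps

/-- The steps. -/
noncomputable def step (η : X → ℝ) (k : ℕ) (x : X) : ℝ := min 1 (k * η x)

theorem step_zero (η : X → ℝ) (x : X) : step η 0 x = 0 := by simp [step]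

theorem step_mem {η : X → ℝ} (hη : ∀ x, 0 < η x) (k : ℕ) (x : X) : step η k x ∈ Icc (0 : ℝ) 1 :=
  ⟨le_min zero_le_one (mul_nonneg (Nat.cast_nonneg k) (hη x).le), min_le_left _ _⟩

theorem step_eq_one {η : X → ℝ} {k : ℕ} {x : X} (h : 1 ≤ k * η x) : step η k x = 1 :=
  min_eq_left h

theorem step_succ {η : X → ℝ} (hη : ∀ x, 0 < η x) (k : ℕ) (x : X) :
    |step η (k + 1) x - step η k x| ≤ η x := by
  unfold step
  have h1 := abs_min_sub_min_le_max (1 : ℝ) ((k + 1 : ℕ) * η x) 1 (k * η x)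
  refine h1.trans (max_le (by simpa using (hη x).le) ?_)
  push_cast
  rw [show ((k : ℝ) + 1) * η x - k * η x = η x by ring, abs_of_pos (hη x)]

theorem step_near {η : X → ℝ} {x y : X} (hx : 0 < η x) (hx' : η x ≤ 1 / 4)
    (h : |η y - η x| ≤ η x ^ 2 / 2) (k : ℕ) : |step η k y - step η k x| ≤ η x := by
  rw [abs_le] at h
  have hk : (0 : ℝ) ≤ k := Nat.cast_nonneg k
  by_cases h2 : 2 ≤ k * η x
  · rw [step_eq_one, step_eq_one, sub_self, abs_zero]
    · exact hx.le
    · linarith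
    · nlinarith [mul_nonneg hk hx.le]
  · rw [not_le] at h2
    unfold step
    have h1 := abs_min_sub_min_le_max (1 : ℝ) (k * η y) 1 (k * η x)
    refine h1.trans (max_le (by simpa using hx.le) ?_)
    rw [← mul_sub, abs_le]
    constructor <;> nlinarith [mul_nonneg hk hx.le]

end Steps

section Main
variable [MetricSpace X] [TopologicalSpace Y] [CommRing R]

/-- One step of the homotopy operator. -/
noncomputable def pstep (G : X → ℝ → Y) (η : X → ℝ) (f : List Y → R) (k : ℕ) (l : List X) : R :=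
  prism (fun x => G x (step η k x)) (fun x => G x (step η (k + 1) x)) f l -
    prism (fun x => G x (step η (k + 1) x)) (fun x => G x (step η (k + 1) x)) f l

theorem pstep_eq_zero {G : X → ℝ → Y} {η : X → ℝ} {f : List Y → R} {k : ℕ} {l : List X}
    (h : ∀ x ∈ l, 1 ≤ k * η x) : pstep G η f k l = 0 := by
  have h1 : ∀ x ∈ l, G x (step η k x) = G x (step η (k + 1) x) := by
    intro x hx
    have h2 := h x hx
    have h3 : 1 ≤ ((k + 1 : ℕ) : ℝ) * η x := by
      have hη : 0 < η x := by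
        by_contra h'
        rw [not_lt] at h'
        nlinarith [mul_nonneg (Nat.cast_nonneg (α := ℝ) k) (neg_nonneg.2 h')]
      push_cast; linarith
    rw [step_eq_one h2, step_eq_one h3]
  rw [pstep, prism_congr f h1 fun _ _ => rfl, sub_self]

/-- The number of steps. -/
noncomputable def steps (η : X → ℝ) (l : List X) : ℕ := ⌈(l.map fun x => (η x)⁻¹).sum⌉₊

theorem le_steps {η : X → ℝ} (hη : ∀ x, 0 < η x) {l : List X} {k : ℕ} (hk : steps η l ≤ k)
    {x : X} (hx : x ∈ l) : 1 ≤ k * η x := by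
  have h1 : (η x)⁻¹ ≤ (l.map fun x => (η x)⁻¹).sum :=
    List.single_le_sum (fun y hy => by
      obtain ⟨z, _, rfl⟩ := List.mem_map.1 hy
      exact (inv_pos.2 (hη z)).le) _ (List.mem_map.2 ⟨x, hx, rfl⟩)
  have h2 : (η x)⁻¹ ≤ k := h1.trans ((Nat.le_ceil _).trans (Nat.cast_le.2 hk))
  have h3 := mul_le_mul_of_nonneg_right h2 (hη x).le
  rwa [inv_mul_cancel₀ (hη x).ne'] at h3

/-- The homotopy operator. -/
noncomputable def hop (G : X → ℝ → Y) (η : X → ℝ) (f : List Y → R) (l : List X) : R :=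
  ∑ k ∈ Finset.range (steps η l), pstep G η f k l

theorem hop_eq {G : X → ℝ → Y} {η : X → ℝ} (hη : ∀ x, 0 < η x) (f : List Y → R) {l : List X}
    {N : ℕ} (h : ∀ x ∈ l, 1 ≤ N * η x) : hop G η f l = ∑ k ∈ Finset.range N, pstep G η f k l := by
  have key : ∀ M : ℕ, (∀ x ∈ l, 1 ≤ M * η x) → ∀ K, M ≤ K →
      ∑ k ∈ Finset.range M, pstep G η f k l = ∑ k ∈ Finset.range K, pstep G η f k l := by
    intro M hM K hMK
    refine Finset.sum_subset (Finset.range_mono hMK) fun k _ hk => pstep_eq_zero fun x hx => ?_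
    have h1 : M ≤ k := by simpa using hk
    have h2 : (M : ℝ) ≤ k := Nat.cast_le.2 h1
    exact (hM x hx).trans (mul_le_mul_of_nonneg_right h2 (hη x).le)
  rw [hop, key _ (fun x hx => le_steps hη le_rfl hx) (max (steps η l) N) (le_max_left _ _),
    key N h (max (steps η l) N) (le_max_right _ _)]

theorem hop_identity {G : X → ℝ → Y} {η : X → ℝ} (hη : ∀ x, 0 < η x) (f : List Y → R)
    (l : List X) :
    d (hop G η f) l + hop G η (d f) l =
      pull (fun x => G x 1) f l - pull (fun x => G x 0) f l := by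
  set N := steps η l with hN
  have hl : ∀ x ∈ l, 1 ≤ N * η x := fun x hx => le_steps hη le_rfl hx
  have h1 : d (hop G η f) l = ∑ k ∈ Finset.range N, d (pstep G η f k) l := by
    simp only [d]
    rw [Finset.sum_comm]
    refine Finset.sum_congr rfl fun i _ => ?_
    rw [hop_eq hη f (N := N) fun x hx => hl x (List.mem_of_mem_eraseIdx hx), Finset.mul_sum]
  rw [h1, hop_eq hη (d f) hl, ← Finset.sum_add_distrib]
  have h2 : ∀ k, d (pstep G η f k) l + pstep G η (d f) k l =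
      pull (fun x => G x (step η (k + 1) x)) f l - pull (fun x => G x (step η k x)) f l := by
    intro k
    have h3 := prism_identity (fun x => G x (step η k x)) (fun x => G x (step η (k + 1) x)) f l
    have h4 := prism_identity (fun x => G x (step η (k + 1) x))
      (fun x => G x (step η (k + 1) x)) f l
    have h5 : d (pstep G η f k) l =
        d (prism (fun x => G x (step η k x)) (fun x => G x (step η (k + 1) x)) f) l -
        d (prism (fun x => G x (step η (k + 1) x)) (fun x => G x (step η (k + 1) x)) f) l := by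
      rw [← d_sub]; rfl
    rw [h5, pstep]
    linear_combination h3 - h4
  rw [Finset.sum_congr rfl fun k _ => h2 k,
    Finset.sum_range_sub (fun k => pull (fun x => G x (step η k x)) f l)]
  have h6 : l.map (fun x => G x (step η N x)) = l.map fun x => G x 1 :=
    List.map_congr_left fun x hx => by rw [step_eq_one (hl x hx)]
  have h7 : l.map (fun x => G x (step η 0 x)) = l.map fun x => G x 0 :=
    List.map_congr_left fun x hx => by rw [step_zero]
  simp only [pull, h6, h7]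

theorem hop_LZ {T : Set X} {G : X → ℝ → Y} {m : ℕ} {g : List Y → R} {ε : X → ℝ}
    (hε : ContinuousOn ε T) (hε0 : ∀ x, 0 < ε x) (hε1 : ∀ x, ε x ≤ 1)
    (hgood : ∀ x ∈ T, GoodRadius T G (m + 1) g x (ε x)) :
    LZ T m (hop G (fun x => ε x / 4) g) := by
  set η : X → ℝ := fun x => ε x / 4 with hη
  have hη0 : ∀ x, 0 < η x := fun x => by simp only [hη]; linarith [hε0 x]
  intro x hx
  have hηx : η x = ε x / 4 := rfl
  have hx1 := hε1 x
  have hx0 := hε0 x
  have h1 : ∀ᶠ y in 𝓝[T] x, |η y - η x| ≤ η x ^ 2 / 2 := by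
    have h2 : ContinuousOn η T := hε.div_const 4
    have h3 := (Metric.continuousWithinAt_iff.1 (h2 x hx)) (η x ^ 2 / 2)
      (by have := hη0 x; positivity)
    obtain ⟨δ, hδ, h3⟩ := h3
    rw [eventually_nhdsWithin_iff]
    filter_upwards [Metric.ball_mem_nhds x hδ] with y hy hyT
    exact (h3 hyT hy).le
  rw [eventually_nhdsWithin_iff] at h1
  refine ⟨_, inter_mem h1 (Metric.ball_mem_nhds x (hε0 x)), fun l hl hl' => ?_⟩
  refine Finset.sum_eq_zero fun k _ => ?_
  have key : ∀ z : Y, (∃ y ∈ l, z = G y (step η k y) ∨ z = G y (step η (k + 1) y)) →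
      ∃ y ∈ T, dist y x < ε x ∧ ∃ s' ∈ Icc (0 : ℝ) 1, |s' - step η k x| < ε x ∧ z = G y s' := by
    rintro z ⟨y, hy, hz⟩
    have h2 := hl' y hy
    have h3 : |η y - η x| ≤ η x ^ 2 / 2 := h2.1.1 h2.2
    have h4 := step_near (hη0 x) (by linarith) h3
    refine ⟨y, h2.2, h2.1.2, ?_⟩
    rcases hz with rfl | rfl
    · exact ⟨_, step_mem hη0 k y, by linarith [h4 k], rfl⟩
    · refine ⟨_, step_mem hη0 (k + 1) y, ?_, rfl⟩
      have h5 := step_succ hη0 k x
      have h6 := abs_sub_le (step η (k + 1) y) (step η (k + 1) x) (step η k x)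
      linarith [h4 (k + 1)]
  rw [pstep, prism_eq_zero _ _ g l, prism_eq_zero _ _ g l, sub_zero]
  · intro k' hk' hk''
    refine hgood x hx _ (step_mem hη0 k x) k' (by rw [hk', hl]) fun z hz => key z ?_
    obtain ⟨y, hy, h⟩ := hk'' z hz
    exact ⟨y, hy, Or.inr (h.elim id id)⟩
  · intro k' hk' hk''
    exact hgood x hx _ (step_mem hη0 k x) k' (by rw [hk', hl]) fun z hz => key z (hk'' z hz)

/-- A homotopy through maps from `T` to `B`, with control of the supports. -/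
structure SHomotopy (Φ : Set X → Prop) (Ψ : Set Y → Prop) (T : Set X) (B : Set Y)
    (G : X → ℝ → Y) : Prop where
  cont : ContinuousOn (fun p : X × ℝ => G p.1 p.2) (T ×ˢ Icc 0 1)
  maps : ∀ x ∈ T, ∀ s ∈ Icc (0 : ℝ) 1, G x s ∈ B
  supp : ∀ K ⊆ B, Ψ K → closure K ∩ B ⊆ K → Φ {x | x ∈ T ∧ ∃ s ∈ Icc (0 : ℝ) 1, G x s ∈ K}

/-- Homotopy invariance on cochains. -/
theorem SHomotopy.mem_coboundaries {Φ : Set X → Prop} [SuppFam Φ] {Ψ : Set Y → Prop} [SuppFam Ψ]
    {T : Set X} {B : Set Y} {G : X → ℝ → Y} (hG : SHomotopy Φ Ψ T B G) (hΨ : Good Ψ B) {n : ℕ}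
    {f : List Y → R} (hf : f ∈ cocycles R Ψ B n) :
    pull (fun x => G x 1) f - pull (fun x => G x 0) f ∈ coboundaries R Φ T n := by
  have h0 : (0 : ℝ) ∈ Icc (0 : ℝ) 1 := ⟨le_rfl, zero_le_one⟩
  have h1 : (1 : ℝ) ∈ Icc (0 : ℝ) 1 := ⟨zero_le_one, le_rfl⟩
  have hcs : ∀ s ∈ Icc (0 : ℝ) 1, ContinuousOn (fun x => G x s) T := fun s hs =>
    hG.cont.comp (continuousOn_id.prodMk continuousOn_const) fun x hx => ⟨hx, hs⟩
  obtain ⟨V, hV, hKV, L, hLB, hΨL, hVL, hLcl⟩ := hΨ (AS.supp B (n + 1) f) (supp_subset _ _ _)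
    hf.1.supp (closure_supp_inter _ _ _)
  set f' := cut V f with hf'
  have hff' : LZ B (n + 1) (f' - f) := by
    intro y hy
    by_cases hyK : y ∈ AS.supp B (n + 1) f
    · exact LZat.cut_sub_self (hV.mem_nhds (hKV hyK)) _ _
    · have := LZat_of_notMem_supp hy hyK
      exact (this.cut V).sub this
  have hdf' : LZ B (n + 2) (d f') := by
    have h2 := hff'.d
    rw [d_sub'] at h2
    have := h2.add hf.2
    rwa [sub_add_cancel] at this
  obtain ⟨ε, hε, hε0, hε1, hgood⟩ := exists_lebesgue hG.cont hG.maps hdf'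
  set P := hop G (fun x => ε x / 4) f' with hP
  have hη0 : ∀ x, 0 < ε x / 4 := fun x => by linarith [hε0 x]
  have hPd : LZ T (n + 1) (hop G (fun x => ε x / 4) (d f')) := hop_LZ hε hε0 hε1 hgood
  have hPs : HasSupp Φ T n P := by
    refine ⟨{x | x ∈ T ∧ ∃ s ∈ Icc (0 : ℝ) 1, G x s ∈ L}, fun x hx => hx.1,
      hG.supp L hLB hΨL hLcl, fun x hx hx' => ?_⟩
    have h2 : ∀ s ∈ Icc (0 : ℝ) 1, ∀ᶠ p : X × ℝ in 𝓝[T ×ˢ Icc (0 : ℝ) 1] (x, s),
        G p.1 p.2 ∉ closure L := by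
      intro s hs
      have h3 : G x s ∉ closure L := fun h => hx' ⟨hx, s, hs, hLcl ⟨h, hG.maps x hx s hs⟩⟩
      exact hG.cont (x, s) ⟨hx, hs⟩ (isClosed_closure.isOpen_compl.mem_nhds h3)
    have h4 : ∀ᶠ y in 𝓝 x, ∀ s ∈ Icc (0 : ℝ) 1, (y ∈ T ∧ s ∈ Icc (0 : ℝ) 1 →
        G y s ∉ closure L) := by
      refine isCompact_Icc.eventually_forall_of_forall_eventually fun s hs => ?_
      have h3 := h2 s hs
      rw [eventually_nhdsWithin_iff] at h3
      filter_upwards [h3] with p hp hp'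
      exact hp ⟨hp'.1, hp'.2⟩
    refine ⟨_, h4, fun l hl hl' => Finset.sum_eq_zero fun k _ => ?_⟩
    have h5 : ∀ k' : List Y, k'.length = l.length + 1 → (∀ z ∈ k', ∃ y ∈ l,
        z = G y (step (fun x => ε x / 4) k y) ∨ z = G y (step (fun x => ε x / 4) (k + 1) y)) →
        f' k' = 0 := by
      intro k' hk' hk''
      refine cut_of_not fun h => ?_
      cases k' with
      | nil => simp at hk'
      | cons z k' =>
        have hz : z ∈ z :: k' := by simp
        obtain ⟨y, hy, hzy⟩ := hk'' z hz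
        have hzV := h z hz
        have h6 : ∀ s ∈ Icc (0 : ℝ) 1, G y s ∉ closure L := fun s hs =>
          (hl' y hy).1 s hs ⟨(hl' y hy).2, hs⟩
        rcases hzy with h7 | h7
        · exact h6 _ (step_mem hη0 k y) (subset_closure (hVL ⟨h7 ▸ hzV,
            hG.maps y (hl' y hy).2 _ (step_mem hη0 k y)⟩))
        · exact h6 _ (step_mem hη0 (k + 1) y) (subset_closure (hVL ⟨h7 ▸ hzV,
            hG.maps y (hl' y hy).2 _ (step_mem hη0 (k + 1) y)⟩))
    rw [pstep, prism_eq_zero _ _ f' l h5, prism_eq_zero _ _ f' l, sub_zero]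
    intro k' hk' hk''
    refine h5 k' hk' fun z hz => ?_
    obtain ⟨y, hy, h⟩ := hk'' z hz
    exact ⟨y, hy, Or.inr (h.elim id id)⟩
  refine ⟨P, fun hn => by simp [hP, hop, pstep], hPs, ?_⟩
  have h2 : pull (fun x => G x 1) f - pull (fun x => G x 0) f - d P =
      hop G (fun x => ε x / 4) (d f') - (pull (fun x => G x 1) (f' - f) -
        pull (fun x => G x 0) (f' - f)) := by
    funext l
    have h3 := hop_identity (G := G) hη0 f' l
    simp only [pull_sub, Pi.sub_apply] at h3 ⊢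
    linear_combination -h3
  rw [h2]
  exact hPd.sub ((hff'.pull (hcs 1 h1) fun x hx => hG.maps x hx 1 h1).sub
    (hff'.pull (hcs 0 h0) fun x hx => hG.maps x hx 0 h0))

/-- **Homotopy invariance.** -/
theorem SHomotopy.map_eq {Φ : Set X → Prop} [SuppFam Φ] {Ψ : Set Y → Prop} [SuppFam Ψ]
    {T : Set X} {B : Set Y} {G : X → ℝ → Y} (hG : SHomotopy Φ Ψ T B G) (hΨ : Good Ψ B)
    {φ ψ : X → Y} (hφ : SMap Φ Ψ T B φ) (hψ : SMap Φ Ψ T B ψ) (h0 : ∀ x ∈ T, G x 0 = φ x)
    (h1 : ∀ x ∈ T, G x 1 = ψ x) (n : ℕ) (α : HS R Ψ B n) :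
    hφ.map R n α = hψ.map R n α := by
  obtain ⟨f, hf, rfl⟩ := cls_surj α
  rw [SMap.map_cls, SMap.map_cls, eq_comm, cls_eq_iff]
  have h2 := hG.mem_coboundaries hΨ hf
  have h3 : LZ T (n + 1) ((pull ψ f - pull φ f) -
      (pull (fun x => G x 1) f - pull (fun x => G x 0) f)) := fun x _ =>
    LZat.of_eq_zero x fun l _ hl => by
      have e1 : l.map (fun x => G x 1) = l.map ψ := List.map_congr_left fun y hy => h1 y (hl y hy)
      have e0 : l.map (fun x => G x 0) = l.map φ := List.map_congr_left fun y hy => h0 y (hl y hy)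
      simp [pull, e0, e1]
  have := add_mem h3.mem_coboundaries h2
  rwa [sub_add_cancel] at this

/-- Without conditions on supports. -/
theorem SHomotopy.of_all {T : Set X} {B : Set Y} {G : X → ℝ → Y}
    (h : ContinuousOn (fun p : X × ℝ => G p.1 p.2) (T ×ˢ Icc 0 1))
    (h' : ∀ x ∈ T, ∀ s ∈ Icc (0 : ℝ) 1, G x s ∈ B) (Ψ : Set Y → Prop) :
    SHomotopy AllSupp Ψ T B G := ⟨h, h', fun _ _ _ _ => trivial⟩

end Main

end Pool.Agent.Helper36.AS
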