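import Pool.Agent.Helper36.AS.Space

/-!
# The two key lemmas (metric spaces): extension of cocycles from closed subsets, and lemma (R)

Both use a discontinuous retraction onto the closed subset which is continuous at its points.
-/

namespace Pool.Agent.Helper36.AS

open Set Filter Topology

variable {X Y Z R : Type*}

section Top
variable [TopologicalSpace X] [TopologicalSpace Y] [TopologicalSpace Z] [CommRing R]

/-- Every support on `T` has a neighbourhood in `T` which is a support. -/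
def Good (Φ : Set X → Prop) (T : Set X) : Prop :=
  ∀ K ⊆ T, Φ K → closure K ∩ T ⊆ K →
    ∃ V, IsOpen V ∧ K ⊆ V ∧ ∃ L ⊆ T, Φ L ∧ V ∩ T ⊆ L ∧ closure L ∩ T ⊆ L

theorem good_all (T : Set X) : Good AllSupp T := fun _ hK _ _ =>
  ⟨univ, isOpen_univ, subset_univ _, T, Subset.rfl, trivial, inter_subset_right,
    inter_subset_right⟩

/-- The function `f` restricted to the lists of points of `V`. -/
noncomputable def cut (V : Set X) (f : List X → R) : List X → R := by
  classical
  exact fun l => if ∀ y ∈ l, y ∈ V then f l else 0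

theorem cut_of_mem {V : Set X} {f : List X → R} {l : List X} (h : ∀ y ∈ l, y ∈ V) :
    cut V f l = f l := by simp only [cut]; exact if_pos h

theorem cut_of_not {V : Set X} {f : List X → R} {l : List X} (h : ¬ ∀ y ∈ l, y ∈ V) :
    cut V f l = 0 := by simp only [cut]; exact if_neg h

@[simp] theorem cut_nil (V : Set X) (f : List X → R) : cut V f [] = f [] :=
  cut_of_mem (by simp)

theorem cut_eq_zero_of {V : Set X} {f : List X → R} {l : List X} (h : f l = 0) :
    cut V f l = 0 := by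
  by_cases hV : ∀ y ∈ l, y ∈ V
  · rw [cut_of_mem hV, h]
  · exact cut_of_not hV

theorem cut_add (V : Set X) (f g : List X → R) : cut V (f + g) = cut V f + cut V g := by
  funext l
  by_cases hV : ∀ y ∈ l, y ∈ V
  · simp [cut_of_mem hV]
  · simp [cut_of_not hV]

theorem cut_sub (V : Set X) (f g : List X → R) : cut V (f - g) = cut V f - cut V g := by
  funext l
  by_cases hV : ∀ y ∈ l, y ∈ V
  · simp [cut_of_mem hV]
  · simp [cut_of_not hV]

theorem cut_smul (V : Set X) (c : R) (f : List X → R) : cut V (c • f) = c • cut V f := by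
  funext l
  by_cases hV : ∀ y ∈ l, y ∈ V
  · simp [cut_of_mem hV]
  · simp [cut_of_not hV]

theorem LZat.cut {T : Set X} {m : ℕ} {f : List X → R} {x : X} (hf : LZat T m f x) (V : Set X) :
    LZat T m (cut V f) x := by
  obtain ⟨U, hU, hf⟩ := hf
  exact ⟨U, hU, fun l hl hl' => cut_eq_zero_of (hf l hl hl')⟩

theorem LZat.cut_sub_self {T V : Set X} {x : X} (hV : V ∈ 𝓝 x) (m : ℕ) (f : List X → R) :
    LZat T m (AS.cut V f - f) x :=
  ⟨V, hV, fun l _ hl' => by rw [Pi.sub_apply, cut_of_mem fun y hy => (hl' y hy).1, sub_self]⟩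

/-- At interior points of `V` the cut function and the function behave in the same way. -/
theorem LZat.cut_iff {T V : Set X} {x : X} (hV : V ∈ 𝓝 x) {m : ℕ} {f : List X → R} :
    LZat T m (AS.cut V f) x ↔ LZat T m f x := by
  refine ⟨fun h => ?_, fun h => h.cut V⟩
  have := h.sub (LZat.cut_sub_self (T := T) hV m f)
  rwa [sub_sub_cancel] at this

/-- At points outside of the closure of `V` in `T` the cut function is locally zero. -/
theorem LZat.cut_of_notMem {T V L : Set X} (hL : V ∩ T ⊆ L) (hL' : closure L ∩ T ⊆ L) {x : X}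
    (hxT : x ∈ T) (hx : x ∉ L) {m : ℕ} (hm : m ≠ 0) (f : List X → R) : LZat T m (AS.cut V f) x := by
  refine ⟨(closure L)ᶜ, isClosed_closure.isOpen_compl.mem_nhds fun h => hx (hL' ⟨h, hxT⟩),
    fun l hl hl' => cut_of_not fun h => ?_⟩
  cases l with
  | nil => exact hm (by simpa using hl.symm)
  | cons y l =>
    have h1 := hl' y (by simp)
    exact h1.1 (subset_closure (hL ⟨h y (by simp), h1.2⟩))

theorem HasSupp.cut {Φ : Set X → Prop} {T V L : Set X} (hΦL : Φ L) (hLT : L ⊆ T)
    (hL : V ∩ T ⊆ L) (hL' : closure L ∩ T ⊆ L) {m : ℕ} {f : List X → R} (hf : m = 0 → f [] = 0) :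
    HasSupp Φ T m (AS.cut V f) := by
  refine ⟨L, hLT, hΦL, fun x hxT hx => ?_⟩
  by_cases hm : m = 0
  · refine LZat.of_eq_zero x fun l hl _ => ?_
    have : l = [] := List.length_eq_zero_iff.1 (hl.trans hm)
    rw [this, cut_nil, hf hm]
  · exact LZat.cut_of_notMem hL hL' hxT hx hm f

/-- The exact support. -/
def supp (T : Set X) (m : ℕ) (f : List X → R) : Set X := {x | x ∈ T ∧ ¬ LZat T m f x}

theorem supp_subset (T : Set X) (m : ℕ) (f : List X → R) : supp T m f ⊆ T := fun _ h => h.1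

theorem isOpen_LZat (T : Set X) (m : ℕ) (f : List X → R) : IsOpen {x | LZat T m f x} := by
  rw [isOpen_iff_mem_nhds]
  rintro x ⟨U, hU, hf⟩
  obtain ⟨V, hVU, hV, hxV⟩ := mem_nhds_iff.1 hU
  exact mem_nhds_iff.2 ⟨V, fun y hy => ⟨V, hV.mem_nhds hy, fun l hl hl' => hf l hl fun z hz =>
    ⟨hVU (hl' z hz).1, (hl' z hz).2⟩⟩, hV, hxV⟩

theorem closure_supp_inter (T : Set X) (m : ℕ) (f : List X → R) :
    closure (supp T m f) ∩ T ⊆ supp T m f := by
  rintro x ⟨hx, hxT⟩
  refine ⟨hxT, fun h => ?_⟩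
  obtain ⟨y, hy, hy'⟩ := mem_closure_iff.1 hx _ (isOpen_LZat T m f) h
  exact hy'.2 hy

theorem HasSupp.supp {Φ : Set X → Prop} [SuppFam Φ] {T : Set X} {m : ℕ} {f : List X → R}
    (hf : HasSupp Φ T m f) : Φ (supp T m f) := by
  obtain ⟨K, hK, hΦK, hf⟩ := hf
  have h1 := SuppFam.inter K {x | LZat T m f x}ᶜ hΦK (isOpen_LZat T m f).isClosed_compl
  have h2 : K ∩ {x | LZat T m f x}ᶜ = AS.supp T m f := by
    ext x
    simp only [mem_inter_iff, mem_compl_iff, mem_setOf_eq, AS.supp]
    exact ⟨fun h => ⟨hK h.1, h.2⟩, fun h => ⟨by_contra fun h' => h.2 (hf x h.1 h'), h.2⟩⟩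
  rwa [h2] at h1

theorem LZat_of_notMem_supp {T : Set X} {m : ℕ} {f : List X → R} {x : X} (hxT : x ∈ T)
    (hx : x ∉ supp T m f) : LZat T m f x := by
  by_contra h
  exact hx ⟨hxT, h⟩

theorem hasSupp_iff {Φ : Set X → Prop} [SuppFam Φ] {T : Set X} {m : ℕ} {f : List X → R} :
    HasSupp Φ T m f ↔ Φ (supp T m f) :=
  ⟨HasSupp.supp, fun h => ⟨_, supp_subset T m f, h, fun _ hx hx' => LZat_of_notMem_supp hx hx'⟩⟩

/-- Two maps which agree at `x` and are continuous there: the prism of a cochain which is locally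
zero at the image is locally zero. -/
theorem LZat.prism {T : Set X} {B : Set Y} {m : ℕ} {f : List Y → R} {φ ψ : X → Y} {x : X}
    (hf : LZat B (m + 1) f (φ x)) (hxy : φ x = ψ x) (hφ : ContinuousWithinAt φ T x)
    (hψ : ContinuousWithinAt ψ T x) (hφB : MapsTo φ T B) (hψB : MapsTo ψ T B) :
    LZat T m (prism φ ψ f) x := by
  obtain ⟨U, hU, hf⟩ := hf
  obtain ⟨V, hV, hVU⟩ := mem_nhdsWithin_iff_exists_mem_nhds_inter.1 (hφ hU)
  obtain ⟨W, hW, hWU⟩ := mem_nhdsWithin_iff_exists_mem_nhds_inter.1 (hψ (hxy ▸ hU))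
  refine ⟨V ∩ W, inter_mem hV hW, fun l hl hl' => prism_eq_zero φ ψ f l fun k hk hk' => ?_⟩
  refine hf k (by rw [hk, hl]) fun z hz => ?_
  obtain ⟨y, hy, hy'⟩ := hk' z hz
  have h1 := hl' y hy
  rcases hy' with rfl | rfl
  · exact ⟨hVU ⟨h1.1.1, h1.2⟩, hφB h1.2⟩
  · exact ⟨hWU ⟨h1.1.2, h1.2⟩, hψB h1.2⟩

end Top

section Metric
variable [MetricSpace X] [CommRing R]

/-- The discontinuous retraction. -/
theorem exists_retraction (T F : Set X) (hF : IsClosed F) (hne : (T ∩ F).Nonempty) :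
    ∃ ρ : X → X, (∀ x, ρ x ∈ T ∩ F) ∧ (∀ x ∈ T ∩ F, ρ x = x) ∧
      ∀ a ∈ T ∩ F, ContinuousWithinAt ρ T a := by
  classical
  obtain ⟨a₀, ha₀⟩ := hne
  have key : ∀ x, ∃ y, y ∈ T ∩ F ∧ (x ∈ T ∩ F → y = x) ∧
      (x ∈ T → ∀ a ∈ T ∩ F, dist y a ≤ 3 * dist x a) := by
    intro x
    by_cases hx : x ∈ T ∩ F
    · exact ⟨x, hx, fun _ => rfl, fun _ a _ => by linarith [dist_nonneg (x := x) (y := a)]⟩
    by_cases hxT : x ∈ T
    · have hxF : x ∉ F := fun h => hx ⟨hxT, h⟩
      have h1 : x ∉ closure (T ∩ F) := fun h => hxF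
        (hF.closure_subset_iff.2 inter_subset_right h)
      have h2 : 0 < Metric.infDist x (T ∩ F) :=
        (Metric.infDist_pos_iff_notMem_closure ⟨a₀, ha₀⟩).1 h1
      obtain ⟨y, hy, hy'⟩ := (Metric.infDist_lt_iff (r := 2 * Metric.infDist x (T ∩ F))
        ⟨a₀, ha₀⟩).1 (by linarith)
      refine ⟨y, hy, fun h => absurd h hx, fun _ a ha => ?_⟩
      have h3 : Metric.infDist x (T ∩ F) ≤ dist x a := Metric.infDist_le_dist_of_mem ha
      calc dist y a ≤ dist y x + dist x a := dist_triangle _ _ _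
        _ ≤ 3 * dist x a := by rw [dist_comm y x]; linarith
    · exact ⟨a₀, ha₀, fun h => absurd h hx, fun h => absurd h hxT⟩
  choose ρ h1 h2 h3 using key
  refine ⟨ρ, h1, h2, fun a ha => ?_⟩
  rw [Metric.continuousWithinAt_iff]
  intro ε hε
  refine ⟨ε / 3, by positivity, fun x hxT hx => ?_⟩
  rw [h2 a ha]
  calc dist (ρ x) a ≤ 3 * dist x a := h3 x hxT a ha
    _ < ε := by linarith

/-- **Extension lemma**: a cocycle on the closed subset `T ∩ F` of `T` extends to a cochain on `T`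
(with support in the family) whose coboundary is locally zero at the points of `T ∩ F`. -/
theorem exists_extension {Φ : Set X → Prop} [SuppFam Φ] {T F : Set X} (hF : IsClosed F)
    (hΦ : Good Φ T) {n : ℕ} {c : List X → R} (hc : c ∈ cocycles R Φ (T ∩ F) n) :
    ∃ h : List X → R, HasSupp Φ T (n + 1) h ∧ LZ (T ∩ F) (n + 1) (h - c) ∧
      ∀ x ∈ T ∩ F, LZat T (n + 2) (d h) x := by
  by_cases hne : (T ∩ F).Nonempty
  swap
  · rw [not_nonempty_iff_eq_empty] at hne
    refine ⟨0, HasSupp.of_LZ (LZ.zero T _), ?_, ?_⟩ <;> · rw [hne]; simp [LZ]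
  obtain ⟨ρ, h1, h2, h3⟩ := exists_retraction T F hF hne
  set K := supp (T ∩ F) (n + 1) c with hK
  have hKT : K ⊆ T := (supp_subset _ _ _).trans inter_subset_left
  have hKF : K ⊆ F := (supp_subset _ _ _).trans inter_subset_right
  have hKcl : closure K ∩ T ⊆ K := fun x hx =>
    closure_supp_inter _ _ _ ⟨hx.1, hx.2, (hF.closure_subset_iff.2 hKF) hx.1⟩
  obtain ⟨V, hV, hKV, L, hLT, hΦL, hVL, hLcl⟩ := hΦ K hKT hc.1.supp hKcl
  have hmaps : MapsTo ρ T (T ∩ F) := fun x _ => h1 x
  refine ⟨cut V (pull ρ c), HasSupp.cut hΦL hLT hVL hLcl (by simp), fun x hx => ?_,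
    fun x hx => ?_⟩
  · by_cases hxK : x ∈ K
    · refine ⟨V, hV.mem_nhds (hKV hxK), fun l _ hl' => ?_⟩
      rw [Pi.sub_apply, cut_of_mem fun y hy => (hl' y hy).1, pull]
      have : l.map ρ = l := by
        conv_rhs => rw [← List.map_id l]
        exact List.map_congr_left fun y hy => h2 y (hl' y hy).2
      rw [this, sub_self]
    · have h4 : LZat (T ∩ F) (n + 1) c x := LZat_of_notMem_supp hx hxK
      have h5 : LZat (T ∩ F) (n + 1) (pull ρ c) x := by
        refine (by rw [h2 x hx]; exact h4 : LZat (T ∩ F) (n + 1) c (ρ x)).pull ?_ fun x _ => h1 x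
        exact (h3 x hx).mono inter_subset_left
      exact (h5.cut V).sub h4
  · by_cases hxK : x ∈ K
    · have h4 : LZat T (n + 2) (pull ρ (d c)) x := by
        exact (by rw [h2 x hx]; exact hc.2 x hx :
          LZat (T ∩ F) (n + 2) (d c) (ρ x)).pull (h3 x hx) hmaps
      have h5 := (LZat.cut_sub_self (T := T) (hV.mem_nhds (hKV hxK)) (n + 1) (pull ρ c)).d
      rw [d_sub', d_pull'] at h5
      have := h5.add h4
      rwa [sub_add_cancel] at this
    · have h4 : LZat (T ∩ F) (n + 1) c x := LZat_of_notMem_supp hx hxK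
      have h5 : LZat T (n + 1) (pull ρ c) x :=
        (by rw [h2 x hx]; exact h4 : LZat (T ∩ F) (n + 1) c (ρ x)).pull (h3 x hx) hmaps
      exact (h5.cut V).d

/-- **Lemma (R)**, precise form: a cochain `h` on `T` whose coboundary is locally zero at the
points of `T ∩ F` and whose restriction to `T ∩ F` is the coboundary of `a` is near `T ∩ F` the
coboundary of an extension `g` of `a`. -/
theorem key_R' {Φ : Set X → Prop} [SuppFam Φ] {T F : Set X} (hF : IsClosed F)
    (hΦ : Good Φ T) {n : ℕ} {h a : List X → R} (hs : HasSupp Φ T (n + 1) h)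
    (hd : ∀ x ∈ T ∩ F, LZat T (n + 2) (d h) x) (ha0 : n = 0 → a [] = 0)
    (ha : HasSupp Φ (T ∩ F) n a) (hha : LZ (T ∩ F) (n + 1) (h - d a)) :
    ∃ g : List X → R, (n = 0 → g [] = 0) ∧ HasSupp Φ T n g ∧ LZ (T ∩ F) n (g - a) ∧
      ∀ x ∈ T ∩ F, LZat T (n + 1) (h - d g) x := by
  by_cases hne : (T ∩ F).Nonempty
  swap
  · rw [not_nonempty_iff_eq_empty] at hne
    refine ⟨0, fun _ => rfl, HasSupp.of_LZ (LZ.zero T _), ?_, ?_⟩ <;> · rw [hne]; simp [LZ]
  obtain ⟨ρ, h1, h2, h3⟩ := exists_retraction T F hF hne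
  have hmaps : MapsTo ρ T (T ∩ F) := fun x _ => h1 x
  have hmaps' : MapsTo ρ T T := fun x _ => (h1 x).1
  have hmapsid : MapsTo (fun x : X => x) T T := fun x hx => hx
  set K := (supp T (n + 1) h ∩ F) ∪ supp (T ∩ F) n a with hK
  have hKT : K ⊆ T := union_subset (inter_subset_left.trans (supp_subset _ _ _))
    ((supp_subset _ _ _).trans inter_subset_left)
  have hKcl : closure K ∩ T ⊆ K := by
    rintro x ⟨hx, hxT⟩
    rw [hK, closure_union] at hx
    rcases hx with hx | hx
    · left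
      have hxF : x ∈ F := hF.closure_subset_iff.2 inter_subset_right hx
      exact ⟨closure_supp_inter _ _ _ ⟨closure_mono inter_subset_left hx, hxT⟩, hxF⟩
    · right
      have hxF : x ∈ F := hF.closure_subset_iff.2
        ((supp_subset _ _ _).trans inter_subset_right) hx
      exact closure_supp_inter _ _ _ ⟨hx, hxT, hxF⟩
  obtain ⟨V, hV, hKV, L, hLT, hΦL, hVL, hLcl⟩ := hΦ K hKT
    (SuppFam.union _ _ (SuppFam.inter _ _ hs.supp hF) ha.supp) hKcl
  set e : List X → R := pull ρ a - (prism (fun x => x) ρ h - prism ρ ρ h) with he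
  have he0 : n = 0 → e [] = 0 := fun hn => by simp [he, pull, ha0 hn]
  -- `h - d e` is locally zero at the points of `T ∩ F`
  have hde : ∀ x ∈ T ∩ F, LZat T (n + 1) (h - d e) x := by
    intro x hx
    have h4 : LZat T (n + 1) (pull ρ (h - d a)) x :=
      (by rw [h2 x hx]; exact hha x hx :
        LZat (T ∩ F) (n + 1) (h - d a) (ρ x)).pull (h3 x hx) hmaps
    have h5 : LZat T (n + 1) (prism (fun x => x) ρ (d h)) x :=
      LZat.prism (hd x hx) (h2 x hx).symm continuousWithinAt_id (h3 x hx) hmapsid hmaps'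
    have h5' : LZat T (n + 1) (prism ρ ρ (d h)) x :=
      LZat.prism (by rw [h2 x hx]; exact hd x hx) rfl (h3 x hx) (h3 x hx) hmaps' hmaps'
    have h6 : h - d e = pull ρ (h - d a) - (prism (fun x => x) ρ (d h) - prism ρ ρ (d h)) := by
      funext l
      have h7 := prism_identity (fun x : X => x) ρ h l
      have h8 := prism_identity ρ ρ h l
      simp only [he, d_sub', Pi.sub_apply, d_pull', pull_sub, pull] at h7 h8 ⊢
      rw [List.map_id'] at h7
      linear_combination h7 - h8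
    rw [h6]; exact h4.sub (h5.sub h5')
  have hea : ∀ l : List X, (∀ y ∈ l, y ∈ T ∩ F) → e l = a l := by
    intro l hl
    have e1 : l.map ρ = l := by
      conv_rhs => rw [← List.map_id l]
      exact List.map_congr_left fun y hy => h2 y (hl y hy)
    have e2 : prism (fun x => x) ρ h l = prism ρ ρ h l := by
      have : ∀ (u v : X → X) (f : List X → R) (l : List X), (∀ y ∈ l, u y = v y) →
          prism u ρ f l = prism v ρ f l := by
        intro u v f l
        induction l generalizing f with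
        | nil => intro _; rfl
        | cons y l ih =>
          intro h
          rw [prism_cons, prism_cons, h y (by simp), ih _ fun z hz => h z (by simp [hz])]
      exact this _ _ h l fun y hy => (h2 y (hl y hy)).symm
    simp only [he, Pi.sub_apply, pull, e1, e2]; ring
  refine ⟨cut V e, fun hn => by simp [he0 hn], HasSupp.cut hΦL hLT hVL hLcl he0,
    fun x hx => ?_, fun x hx => ?_⟩
  · by_cases hxK : x ∈ K
    · refine ⟨V, hV.mem_nhds (hKV hxK), fun l _ hl' => ?_⟩
      rw [Pi.sub_apply, cut_of_mem fun y hy => (hl' y hy).1, hea l fun y hy => (hl' y hy).2,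
        sub_self]
    · have hxa : LZat (T ∩ F) n a x := LZat_of_notMem_supp hx fun h' => hxK (Or.inr h')
      have hxe : LZat (T ∩ F) n e x := hxa.congr fun l _ hl => hea l hl
      exact (hxe.cut V).sub hxa
  by_cases hxK : x ∈ K
  · have h5 := (LZat.cut_sub_self (T := T) (hV.mem_nhds (hKV hxK)) n e).d
    rw [d_sub'] at h5
    have := (hde x hx).sub h5
    rwa [sub_sub_sub_cancel_right] at this
  · have hxh : LZat T (n + 1) h x :=
      LZat_of_notMem_supp hx.1 fun h' => hxK (Or.inl ⟨h', hx.2⟩)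
    have hxa : LZat (T ∩ F) n a x := LZat_of_notMem_supp hx fun h' => hxK (Or.inr h')
    have h4 : LZat T n (pull ρ a) x :=
      (by rw [h2 x hx]; exact hxa : LZat (T ∩ F) n a (ρ x)).pull (h3 x hx) hmaps
    have h5 : LZat T n (prism (fun x => x) ρ h) x :=
      LZat.prism hxh (h2 x hx).symm continuousWithinAt_id (h3 x hx) hmapsid hmaps'
    have h5' : LZat T n (prism ρ ρ h) x :=
      LZat.prism (by rw [h2 x hx]; exact hxh) rfl (h3 x hx) (h3 x hx) hmaps' hmaps'
    exact hxh.sub ((h4.sub (h5.sub h5')).cut V).d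

/-- **Lemma (R)**: a cochain on `T` whose coboundary is locally zero at the points of `T ∩ F` and
whose restriction to `T ∩ F` is a coboundary is, up to the coboundary of a cochain on `T`, locally
zero at the points of `T ∩ F`. -/
theorem key_R {Φ : Set X → Prop} [SuppFam Φ] {T F : Set X} (hF : IsClosed F)
    (hΦ : Good Φ T) {n : ℕ} {h : List X → R} (hs : HasSupp Φ T (n + 1) h)
    (hd : ∀ x ∈ T ∩ F, LZat T (n + 2) (d h) x) (hb : h ∈ coboundaries R Φ (T ∩ F) n) :
    ∃ g : List X → R, (n = 0 → g [] = 0) ∧ HasSupp Φ T n g ∧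
      ∀ x ∈ T ∩ F, LZat T (n + 1) (h - d g) x := by
  obtain ⟨a, ha0, ha, hha⟩ := hb
  obtain ⟨g, h0, h1, _, h2⟩ := key_R' hF hΦ hs hd ha0 ha hha
  exact ⟨g, h0, h1, h2⟩

end Metric

end Pool.Agent.Helper36.AS
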