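import Pool.Agent.Helper36.AS.Compact
import Pool.Agent.Helper36.AS.Cup

/-!
# Compactly supported cohomology of `ℝ × B`

`Hc (ℝ × B) 0 = 0` and `Hc (ℝ × B) (n + 1) = Hc B n`, by `f ↦ d [0 < t] ∪ f`.
-/

namespace Pool.Agent.Helper36.AS

open Set Filter Topology

variable {X Y Z R : Type*}

section Ind
variable [CommRing R]

/-- The indicator function of a predicate as a cochain of degree zero. -/
noncomputable def ind (P : X → Prop) : List X → R := by
  classical
  exact fun l => match l with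
    | [x] => if P x then 1 else 0
    | _ => 0

theorem ind_pos {P : X → Prop} {x : X} (h : P x) : (ind P : List X → R) [x] = 1 := by
  simp [ind, h]

theorem ind_neg {P : X → Prop} {x : X} (h : ¬ P x) : (ind P : List X → R) [x] = 0 := by
  simp [ind, h]

@[simp] theorem ind_nil {P : X → Prop} : (ind P : List X → R) [] = 0 := rfl

theorem pull_ind (φ : X → Y) (P : Y → Prop) : pull φ (ind P : List Y → R) =
    ind (fun x => P (φ x)) := by
  funext l
  match l with
  | [] => rfl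
  | [x] =>
    show (ind P : List Y → R) [φ x] = _
    by_cases h : P (φ x)
    · rw [ind_pos h]; exact (ind_pos (P := fun x => P (φ x)) h).symm
    · rw [ind_neg h]; exact (ind_neg (P := fun x => P (φ x)) h).symm
  | _ :: _ :: _ => rfl

theorem d_pair (f : List X → R) (x y : X) : d f [x, y] = f [y] - f [x] := by
  rw [d_cons, d_cons]; simp

end Ind

section Top
variable [TopologicalSpace X] [CommRing R]

/-- The coboundary of `[0 < c]` is locally zero where `c ≠ 0`. -/
theorem LZat_d_ind {T : Set X} {c : X → ℝ} {x : X} (hc : ContinuousWithinAt c T x)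
    (hx : c x ≠ 0) : LZat T 2 (d (ind (fun y => 0 < c y) : List X → R)) x := by
  have key : ∃ U ∈ 𝓝 x, ∀ y ∈ U ∩ T, (0 < c y ↔ 0 < c x) := by
    rcases lt_or_gt_of_ne hx with h | h
    · obtain ⟨U, hU, hU'⟩ := mem_nhdsWithin_iff_exists_mem_nhds_inter.1
        (hc (isOpen_Iio.mem_nhds h))
      exact ⟨U, hU, fun y hy => ⟨fun h' => absurd h' (not_lt.2 (le_of_lt (hU' hy))),
        fun h' => absurd h' (not_lt.2 h.le)⟩⟩
    · obtain ⟨U, hU, hU'⟩ := mem_nhdsWithin_iff_exists_mem_nhds_inter.1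
        (hc (isOpen_Ioi.mem_nhds h))
      exact ⟨U, hU, fun y hy => ⟨fun _ => h, fun _ => hU' hy⟩⟩
  obtain ⟨U, hU, h⟩ := key
  refine ⟨U, hU, fun l hl hl' => ?_⟩
  match l, hl with
  | [a, b], _ =>
    have ha := h a (hl' a (by simp))
    have hb := h b (hl' b (by simp))
    rw [d_pair]
    by_cases hx' : 0 < c x
    · rw [ind_pos (P := fun y => 0 < c y) (hb.2 hx'), ind_pos (P := fun y => 0 < c y) (ha.2 hx'),
        sub_self]
    · rw [ind_neg (P := fun y => 0 < c y) fun h' => hx' (hb.1 h'),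
        ind_neg (P := fun y => 0 < c y) fun h' => hx' (ha.1 h'), sub_self]

end Top

section Line
variable [MetricSpace Y] [CommRing R] {B : Set Y}

/-- The cocycle `d [0 < t] ∪ f` on `ℝ × B`. -/
noncomputable def lineC (f : List Y → R) : List (ℝ × Y) → R :=
  cup 1 (d (ind fun p : ℝ × Y => 0 < p.1)) (pull Prod.snd f)

theorem lineC_LZat {n : ℕ} {f : List Y → R} {p : ℝ × Y} (hp : p.2 ∈ B)
    (h : p.1 ≠ 0 ∨ LZat B (n + 1) f p.2) : LZat (univ ×ˢ B) (n + 2) (lineC f) p := by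
  unfold lineC
  have e : 1 + n + 1 = n + 2 := by omega
  rcases h with h | h
  · have := (LZat_d_ind (R := R) (T := univ ×ˢ B) (c := Prod.fst)
      continuous_fst.continuousWithinAt h).cup_left (p := 1) (q := n) (pull Prod.snd f)
    rwa [e] at this
  · have h1 : LZat (univ ×ˢ B) (n + 1) (pull (Prod.snd : ℝ × Y → Y) f) p :=
      h.pull continuous_snd.continuousWithinAt fun _ hx => hx.2
    have := h1.cup_right (p := 1) (d (ind fun p : ℝ × Y => 0 < p.1))
    rwa [e] at this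

theorem pull_snd_LZ {m : ℕ} {f : List Y → R} (hf : LZ B m f) :
    LZ (univ ×ˢ B) m (pull (Prod.snd : ℝ × Y → Y) f) :=
  hf.pull continuous_snd.continuousOn fun _ hx => hx.2

theorem lineC_mem {n : ℕ} {f : List Y → R} (hf : f ∈ cocycles R IsCompact B n) :
    lineC f ∈ cocycles R IsCompact (univ ×ˢ B) (n + 1) := by
  obtain ⟨K, hK, hKc, hfK⟩ := hf.1
  refine ⟨⟨{0} ×ˢ K, prod_mono (subset_univ _) hK, isCompact_singleton.prod hKc,
    fun p hp hp' => lineC_LZat hp.2 ?_⟩, fun p hp => ?_⟩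
  · by_cases h : p.1 = 0
    · exact Or.inr (hfK p.2 hp.2 fun h' => hp' ⟨h, h'⟩)
    · exact Or.inl h
  · have h1 : LZat (univ ×ˢ B) (n + 3) (cup 1 (d (ind fun p : ℝ × Y => 0 < p.1))
        (pull Prod.snd (d f))) p := by
      have := ((pull_snd_LZ hf.2) p hp).cup_right (p := 1) (d (ind fun p : ℝ × Y => 0 < p.1))
      rwa [show 1 + (n + 1) + 1 = n + 3 by omega] at this
    refine h1.neg.congr fun l hl _ => ?_
    unfold lineC
    rw [d_cup _ _ _ _ (by omega), d_d', d_pull']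
    simp [cup]

variable (B) in
theorem relClosed_neg : RelClosed (Iic (0 : ℝ) ×ˢ B) (univ ×ˢ B) :=
  ⟨prod_mono (subset_univ _) Subset.rfl, fun p hp => ⟨by
    have h1 : closure (Iic (0 : ℝ) ×ˢ B) ⊆ Prod.fst ⁻¹' Iic 0 :=
      closure_minimal (fun _ h => h.1) (isClosed_Iic.preimage continuous_fst)
    exact h1 hp.1, hp.2.2⟩⟩

variable (B) in
theorem relClosed_pos : RelClosed (Ici (0 : ℝ) ×ˢ B) (univ ×ˢ B) :=
  ⟨prod_mono (subset_univ _) Subset.rfl, fun p hp => ⟨by
    have h1 : closure (Ici (0 : ℝ) ×ˢ B) ⊆ Prod.fst ⁻¹' Ici 0 :=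
      closure_minimal (fun _ h => h.1) (isClosed_Ici.preimage continuous_fst)
    exact h1 hp.1, hp.2.2⟩⟩

theorem line_cover : (univ ×ˢ B : Set (ℝ × Y)) ⊆ (Iic (0 : ℝ) ×ˢ B) ∪ (Ici (0 : ℝ) ×ˢ B) :=
  fun p hp => (le_total p.1 0).imp (fun h => ⟨h, hp.2⟩) fun h => ⟨h, hp.2⟩

/-- The half line to the left of `B`: no cohomology. -/
theorem subsingleton_Ici_prod (hB : LCpt B) (n : ℕ) :
    Subsingleton (Hc R (Ici (0 : ℝ) ×ˢ B) n) := by
  haveI := subsingleton_prod_Ici (R := R) hB n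
  have h1 : Continuous fun p : Y × ℝ => (p.2, p.1) := by fun_prop
  have h2 : Continuous fun p : ℝ × Y => (p.2, p.1) := by fun_prop
  exact (homeoEquiv R (T := Ici (0 : ℝ) ×ˢ B) (B := B ×ˢ Ici (0 : ℝ))
    (φ := fun p => (p.2, p.1)) (ψ := fun p => (p.2, p.1)) h2.continuousOn
    (fun p hp => ⟨hp.2, hp.1⟩) h1.continuousOn
    (fun p hp => ⟨hp.2, hp.1⟩) (fun p _ => rfl) (fun p _ => rfl) n).symm.toEquiv.subsingleton

theorem subsingleton_Iic_prod (hB : LCpt B) (n : ℕ) :
    Subsingleton (Hc R (Iic (0 : ℝ) ×ˢ B) n) := by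
  haveI := subsingleton_prod_Iic (R := R) hB n
  have h1 : Continuous fun p : Y × ℝ => (p.2, p.1) := by fun_prop
  have h2 : Continuous fun p : ℝ × Y => (p.2, p.1) := by fun_prop
  exact (homeoEquiv R (T := Iic (0 : ℝ) ×ˢ B) (B := B ×ˢ Iic (0 : ℝ))
    (φ := fun p => (p.2, p.1)) (ψ := fun p => (p.2, p.1)) h2.continuousOn
    (fun p hp => ⟨hp.2, hp.1⟩) h1.continuousOn
    (fun p hp => ⟨hp.2, hp.1⟩) (fun p _ => rfl) (fun p _ => rfl) n).symm.toEquiv.subsingleton

theorem LCpt.line (hB : LCpt B) : LCpt ((Set.univ : Set ℝ) ×ˢ B) := LCpt.univ.prod hB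

/-- The middle fibre, on representatives. -/
theorem mid_mem {n : ℕ} {f : List Y → R} (hf : f ∈ cocycles R IsCompact B n) :
    pull (Prod.snd : ℝ × Y → Y) f ∈
      cocycles R IsCompact ((Iic (0 : ℝ) ×ˢ B) ∩ (Ici (0 : ℝ) ×ˢ B)) n := by
  obtain ⟨K, hK, hKc, hfK⟩ := hf.1
  refine ⟨⟨{0} ×ˢ K, fun p hp => ?_, isCompact_singleton.prod hKc, fun p hp hp' => ?_⟩, ?_⟩
  · have h1 : p.1 = 0 := hp.1
    exact ⟨⟨h1.le, hK hp.2⟩, ⟨h1.ge, hK hp.2⟩⟩
  · have h1 : p.1 = 0 := le_antisymm hp.1.1 hp.2.1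
    exact (hfK p.2 hp.1.2 fun h' => hp' ⟨h1, h'⟩).pull continuous_snd.continuousWithinAt
      fun _ hx => hx.1.2
  · rw [d_pull']
    exact hf.2.pull continuous_snd.continuousOn fun _ hx => hx.1.2

theorem line_delta (hB : LCpt B) {n : ℕ} {f : List Y → R} (hf : f ∈ cocycles R IsCompact B n) :
    mvDelta R (relClosed_neg B) (relClosed_pos B) line_cover hB.line.good n
      (cls _ (mid_mem hf)) = cls _ (lineC_mem hf) := by
  obtain ⟨K, hK, hKc, hfK⟩ := hf.1
  set V : Set (ℝ × Y) := {p | p.1 ∈ Ioo (-1 : ℝ) 1} with hV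
  have hVo : IsOpen V := isOpen_Ioo.preimage continuous_fst
  set h := cut V (pull (Prod.snd : ℝ × Y → Y) f) with hh
  have hs : HasSupp IsCompact (univ ×ˢ B) (n + 1) h := by
    refine ⟨Icc (-1) 1 ×ˢ K, prod_mono (subset_univ _) hK, isCompact_Icc.prod hKc,
      fun p hp hp' => ?_⟩
    by_cases hpK : p.2 ∈ K
    · have hp1 : p.1 ∉ Icc (-1 : ℝ) 1 := fun h => hp' ⟨h, hpK⟩
      refine ⟨Prod.fst ⁻¹' (Icc (-1 : ℝ) 1)ᶜ, (isClosed_Icc.isOpen_compl.preimage
        continuous_fst).mem_nhds hp1, fun l hl hl' => cut_of_not fun h2 => ?_⟩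
      cases l with
      | nil => simp at hl
      | cons y l => exact (hl' y (by simp)).1 (Ioo_subset_Icc_self (h2 y (by simp)))
    · exact ((hfK p.2 hp.2 hpK).pull (A := univ ×ˢ B) (φ := (Prod.snd : ℝ × Y → Y))
        continuous_snd.continuousWithinAt fun _ hx => hx.2).cut V
  have hnear : ∀ p : ℝ × Y, p.1 = 0 → LZat (univ ×ˢ B) (n + 1) (h - pull Prod.snd f) p :=
    fun p hp => LZat.cut_sub_self (hVo.mem_nhds (by simp [hV, hp])) _ _
  have hdh : ∀ p : ℝ × Y, p.1 = 0 → p.2 ∈ B → LZat (univ ×ˢ B) (n + 2) (d h) p := by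
    intro p hp hpB
    have h1 := (hnear p hp).d
    rw [d_sub', d_pull'] at h1
    have := h1.add (pull_snd_LZ hf.2 p ⟨mem_univ _, hpB⟩)
    rwa [sub_add_cancel] at this
  have hd : ∀ p ∈ (Iic (0 : ℝ) ×ˢ B) ∩ (Ici (0 : ℝ) ×ˢ B), LZat (univ ×ˢ B) (n + 2) (d h) p :=
    fun p hp => hdh p (le_antisymm hp.1.1 hp.2.1) hp.1.2
  have hhc : h - pull Prod.snd f ∈
      coboundaries R IsCompact ((Iic (0 : ℝ) ×ˢ B) ∩ (Ici (0 : ℝ) ×ˢ B)) n :=
    LZ.mem_coboundaries fun p hp => (hnear p (le_antisymm hp.1.1 hp.2.1)).mono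
      (inter_subset_left.trans (relClosed_neg B).sub)
  rw [mvDelta_cls _ _ line_cover _ hs hd (mid_mem hf) hhc, cls_eq_iff]
  set st : List (ℝ × Y) → R := ind fun p : ℝ × Y => 0 < p.1 with hst
  refine ⟨h - cup 0 st h, fun h => by omega, hs.sub ?_, fun p hp => ?_⟩
  · have := HasSupp.cup (cupFam_right AllSupp IsCompact (univ ×ˢ B)) (p := 0) (q := n)
      (hasSupp_all (univ ×ˢ B) 1 st) hs
    rwa [show 0 + n + 1 = n + 1 by omega] at this
  · -- the difference is locally zero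
    have hcl : LZat (univ ×ˢ B) (n + 2) (lineC f - cup 1 (d st) h) p := by
      have e : lineC f - cup 1 (d st) h = cup 1 (d st) (pull Prod.snd f - h) := by
        rw [cup_sub_right]; rfl
      rw [e]
      by_cases hp0 : p.1 = 0
      · have h1 : LZat (univ ×ˢ B) (n + 1) (pull Prod.snd f - h) p := by
          rw [← neg_sub]; exact (hnear p hp0).neg
        have := h1.cup_right (p := 1) (d st)
        rwa [show 1 + n + 1 = n + 2 by omega] at this
      · have := (LZat_d_ind (R := R) (T := univ ×ˢ B) (c := Prod.fst)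
          continuous_fst.continuousWithinAt hp0).cup_left (p := 1) (q := n) (pull Prod.snd f - h)
        rwa [show 1 + n + 1 = n + 2 by omega] at this
    have hcut : LZat (univ ×ˢ B) (n + 2) (cut (Iic (0 : ℝ) ×ˢ B) (d h) -
        (d h - cup 0 st (d h))) p := by
      by_cases hp0 : p.1 = 0
      · have h1 := hdh p hp0 hp.2
        have h2 := h1.cup_right (p := 0) (q := n + 1) st
        rw [show 0 + (n + 1) + 1 = n + 2 by omega] at h2
        exact (h1.cut _).sub (h1.sub h2)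
      · rcases lt_or_gt_of_ne hp0 with hlt | hgt
        · refine ⟨Prod.fst ⁻¹' Iio 0, (isOpen_Iio.preimage continuous_fst).mem_nhds hlt,
            fun l hl hl' => ?_⟩
          cases l with
          | nil => simp at hl
          | cons y l =>
            have h1 : cut (Iic (0 : ℝ) ×ˢ B) (d h) (y :: l) = d h (y :: l) :=
              cut_of_mem fun z hz => ⟨(show z.1 < 0 from (hl' z hz).1).le, (hl' z hz).2.2⟩
            have h0 : y.1 < 0 := (hl' y (by simp)).1
            have h2 : st [y] = 0 := ind_neg (P := fun p : ℝ × Y => 0 < p.1) (not_lt.2 h0.le)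
            rw [Pi.sub_apply, Pi.sub_apply, h1, cup_zero_cons, h2]; ring
        · refine ⟨Prod.fst ⁻¹' Ioi 0, (isOpen_Ioi.preimage continuous_fst).mem_nhds hgt,
            fun l hl hl' => ?_⟩
          cases l with
          | nil => simp at hl
          | cons y l =>
            have h0 : 0 < y.1 := (hl' y (by simp)).1
            have h1 : cut (Iic (0 : ℝ) ×ˢ B) (d h) (y :: l) = 0 :=
              cut_of_not fun h' => absurd (show y.1 ≤ 0 from (h' y (by simp)).1) (not_le.2 h0)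
            have h2 : st [y] = 1 := ind_pos (P := fun p : ℝ × Y => 0 < p.1) h0
            rw [Pi.sub_apply, Pi.sub_apply, h1, cup_zero_cons, h2]; ring
    have := hcut.sub hcl
    refine this.congr fun l hl _ => ?_
    simp only [Pi.sub_apply, d_sub', d_cup 0 st h l (by omega)]
    ring

/-- `d [0 < t] ∪ f` and all classes. -/
theorem line_surj (hB : LCpt B) {n : ℕ} (α : Hc R (univ ×ˢ B : Set (ℝ × Y)) (n + 1)) :
    ∃ f, ∃ hf : f ∈ cocycles R IsCompact B n, cls _ (lineC_mem hf) = α := by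
  haveI := subsingleton_Ici_prod (R := R) hB (n + 1)
  haveI := subsingleton_Iic_prod (R := R) hB (n + 1)
  obtain ⟨γ, hγ⟩ := (res_eq_zero_iff (relClosed_neg B) (relClosed_pos B) line_cover
    hB.line.good α).1 ⟨Subsingleton.elim _ _, Subsingleton.elim _ _⟩
  obtain ⟨g, hg, rfl⟩ := cls_surj γ
  have hc : Continuous fun y : Y => ((0 : ℝ), y) := by fun_prop
  have hm : SMap IsCompact IsCompact B ((Iic (0 : ℝ) ×ˢ B) ∩ (Ici (0 : ℝ) ×ˢ B))
      fun y => ((0 : ℝ), y) :=
    SMap.of_homeo (ψ := Prod.snd) hc.continuousOn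
      (fun y hy => ⟨⟨le_refl (0 : ℝ), hy⟩, ⟨le_refl (0 : ℝ), hy⟩⟩) continuous_snd.continuousOn
      (fun p hp => hp.1.2) fun _ _ => rfl
  have hf := hm.pull_mem_cocycles hg
  refine ⟨_, hf, ?_⟩
  rw [← line_delta hB hf, ← hγ]
  congr 1
  refine cls_eq_of_LZ fun p _ => LZat.of_eq_zero p fun l _ hl => ?_
  have e : l.map ((fun y : Y => ((0 : ℝ), y)) ∘ Prod.snd) = l := by
    conv_rhs => rw [← List.map_id l]
    refine List.map_congr_left fun q hq => ?_
    have h1 : q.1 = 0 := le_antisymm (hl q hq).1.1 (hl q hq).2.1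
    simp [← h1]
  simp [pull, List.map_map, e]

theorem line_inj (hB : LCpt B) {n : ℕ} {f : List Y → R} (hf : f ∈ cocycles R IsCompact B n)
    (h : (cls _ (lineC_mem hf) : Hc R (univ ×ˢ B : Set (ℝ × Y)) (n + 1)) = 0) :
    cls f hf = 0 := by
  haveI := subsingleton_Ici_prod (R := R) hB n
  haveI := subsingleton_Iic_prod (R := R) hB n
  rw [← line_delta hB hf, mvDelta_eq_zero_iff] at h
  obtain ⟨α, β, h⟩ := h
  rw [Subsingleton.elim α 0, Subsingleton.elim β 0, map_zero, map_zero, add_zero,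
    cls_eq_zero_iff] at h
  have hc : Continuous fun y : Y => ((0 : ℝ), y) := by fun_prop
  have hm : SMap IsCompact IsCompact B ((Iic (0 : ℝ) ×ˢ B) ∩ (Ici (0 : ℝ) ×ˢ B))
      fun y => ((0 : ℝ), y) :=
    SMap.of_homeo (ψ := Prod.snd) hc.continuousOn
      (fun y hy => ⟨⟨le_refl (0 : ℝ), hy⟩, ⟨le_refl (0 : ℝ), hy⟩⟩) continuous_snd.continuousOn
      (fun p hp => hp.1.2) fun _ _ => rfl
  have h1 := hm.pull_mem_coboundaries h
  have e : pull (fun y : Y => ((0 : ℝ), y)) (pull Prod.snd f) = f := by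
    funext l; simp [pull, List.map_map, Function.comp_def]
  rw [e] at h1
  exact cls_eq_zero_iff.2 h1

theorem line_zero (hB : LCpt B) : Subsingleton (Hc R (univ ×ˢ B : Set (ℝ × Y)) 0) := by
  haveI := subsingleton_Ici_prod (R := R) hB 0
  haveI := subsingleton_Iic_prod (R := R) hB 0
  have key : ∀ τ : Hc R (univ ×ˢ B : Set (ℝ × Y)) 0, τ = 0 := fun τ =>
    res_zero_injective (relClosed_neg B) (relClosed_pos B) line_cover τ
      (Subsingleton.elim _ _) (Subsingleton.elim _ _)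
  exact ⟨fun α β => by rw [key α, key β]⟩

end Line

end Pool.Agent.Helper36.AS
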