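import Pool.Agent.Helper36.AS.Cochain

/-!
# Alexander-Spanier cohomology of subsets of topological spaces, with families of supports

A space is a subset `A : Set X` of an ambient topological space `X` (`A = Set.univ` is allowed).
`HS R Φ A n` is the cohomology of `A` in degree `n` with coefficients in `R` and supports in `Φ`.
`H R A n` are all supports, `Hc R A n` compact supports.
-/

namespace Pool.Agent.Helper36.AS

open Set Filter Topology

variable {X Y Z R : Type*}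

section Top
variable [TopologicalSpace X] [TopologicalSpace Y] [TopologicalSpace Z] [CommRing R]

/-- `f` vanishes on the lists of length `m` of points of `A` which are close to `x`. -/
def LZat (A : Set X) (m : ℕ) (f : List X → R) (x : X) : Prop :=
  ∃ U ∈ 𝓝 x, ∀ l : List X, l.length = m → (∀ y ∈ l, y ∈ U ∧ y ∈ A) → f l = 0

/-- `f` is locally zero on `A` (as a function of `m` points). -/
def LZ (A : Set X) (m : ℕ) (f : List X → R) : Prop := ∀ x ∈ A, LZat A m f x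

/-- The support of `f` (as a function of `m` points of `A`) lies in `K`. -/
def SuppIn (A : Set X) (m : ℕ) (f : List X → R) (K : Set X) : Prop :=
  ∀ x ∈ A, x ∉ K → LZat A m f x

/-- Families of supports. -/
class SuppFam (Φ : Set X → Prop) : Prop where
  empty : Φ ∅
  union : ∀ K L, Φ K → Φ L → Φ (K ∪ L)
  inter : ∀ K F, Φ K → IsClosed F → Φ (K ∩ F)

/-- All subsets are allowed as supports. -/
def AllSupp (_ : Set X) : Prop := True

instance : SuppFam (AllSupp (X := X)) := ⟨trivial, fun _ _ _ _ => trivial, fun _ _ _ _ => trivial⟩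

instance : SuppFam (IsCompact (X := X)) :=
  ⟨isCompact_empty, fun _ _ h h' => h.union h', fun _ _ h h' => h.inter_right h'⟩

/-- `f` has support in the family `Φ`. -/
def HasSupp (Φ : Set X → Prop) (A : Set X) (m : ℕ) (f : List X → R) : Prop :=
  ∃ K, K ⊆ A ∧ Φ K ∧ SuppIn A m f K

theorem LZat.mono {A B : Set X} {m : ℕ} {f : List X → R} {x : X} (h : LZat B m f x)
    (hAB : A ⊆ B) : LZat A m f x := by
  obtain ⟨U, hU, h⟩ := h
  exact ⟨U, hU, fun l hl hl' => h l hl fun y hy => ⟨(hl' y hy).1, hAB (hl' y hy).2⟩⟩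

theorem LZat.add {A : Set X} {m : ℕ} {f g : List X → R} {x : X} (hf : LZat A m f x)
    (hg : LZat A m g x) : LZat A m (f + g) x := by
  obtain ⟨U, hU, hf⟩ := hf
  obtain ⟨V, hV, hg⟩ := hg
  refine ⟨U ∩ V, inter_mem hU hV, fun l hl hl' => ?_⟩
  rw [Pi.add_apply, hf l hl fun y hy => ⟨(hl' y hy).1.1, (hl' y hy).2⟩,
    hg l hl fun y hy => ⟨(hl' y hy).1.2, (hl' y hy).2⟩, add_zero]

theorem LZat.smul {A : Set X} {m : ℕ} {f : List X → R} {x : X} (c : R) (hf : LZat A m f x) :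
    LZat A m (c • f) x := by
  obtain ⟨U, hU, hf⟩ := hf
  exact ⟨U, hU, fun l hl hl' => by rw [Pi.smul_apply, hf l hl hl', smul_zero]⟩

theorem LZat.neg {A : Set X} {m : ℕ} {f : List X → R} {x : X} (hf : LZat A m f x) :
    LZat A m (-f) x := by
  obtain ⟨U, hU, hf⟩ := hf
  exact ⟨U, hU, fun l hl hl' => by rw [Pi.neg_apply, hf l hl hl', neg_zero]⟩

theorem LZat.sub {A : Set X} {m : ℕ} {f g : List X → R} {x : X} (hf : LZat A m f x)
    (hg : LZat A m g x) : LZat A m (f - g) x := by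
  rw [sub_eq_add_neg]; exact hf.add hg.neg

theorem LZat.zero (A : Set X) (m : ℕ) (x : X) : LZat A m (0 : List X → R) x :=
  ⟨univ, univ_mem, fun _ _ _ => rfl⟩

/-- Only the values on the lists of length `m` of points of `A` matter. -/
theorem LZat.congr {A : Set X} {m : ℕ} {f g : List X → R} {x : X} (hf : LZat A m f x)
    (h : ∀ l : List X, l.length = m → (∀ y ∈ l, y ∈ A) → g l = f l) : LZat A m g x := by
  obtain ⟨U, hU, hf⟩ := hf
  exact ⟨U, hU, fun l hl hl' => by rw [h l hl fun y hy => (hl' y hy).2, hf l hl hl']⟩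

theorem LZat.of_eq_zero {A : Set X} {m : ℕ} {f : List X → R} (x : X)
    (h : ∀ l : List X, l.length = m → (∀ y ∈ l, y ∈ A) → f l = 0) : LZat A m f x :=
  (LZat.zero A m x).congr h

theorem LZat.d {A : Set X} {m : ℕ} {f : List X → R} {x : X} (hf : LZat A m f x) :
    LZat A (m + 1) (d f) x := by
  obtain ⟨U, hU, hf⟩ := hf
  refine ⟨U, hU, fun l hl hl' => ?_⟩
  unfold AS.d
  refine Finset.sum_eq_zero fun i hi => ?_
  rw [hf, mul_zero]
  · rw [List.length_eraseIdx_of_lt (Finset.mem_range.1 hi), hl]; rfl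
  · exact fun y hy => hl' y (List.mem_of_mem_eraseIdx hy)

theorem LZat.pull {A : Set X} {B : Set Y} {m : ℕ} {f : List Y → R} {φ : X → Y} {x : X}
    (hf : LZat B m f (φ x)) (hφ : ContinuousWithinAt φ A x) (hAB : MapsTo φ A B) :
    LZat A m (pull φ f) x := by
  obtain ⟨U, hU, hf⟩ := hf
  obtain ⟨V, hV, hVU⟩ := mem_nhdsWithin_iff_exists_mem_nhds_inter.1 (hφ hU)
  refine ⟨V, hV, fun l hl hl' => hf _ (by simpa using hl) fun y hy => ?_⟩
  obtain ⟨z, hz, rfl⟩ := List.mem_map.1 hy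
  exact ⟨hVU (hl' z hz), hAB (hl' z hz).2⟩

theorem LZat.cup_left {A : Set X} {p q : ℕ} {f : List X → R} {x : X}
    (hf : LZat A (p + 1) f x) (g : List X → R) : LZat A (p + q + 1) (cup p f g) x := by
  obtain ⟨U, hU, hf⟩ := hf
  refine ⟨U, hU, fun l hl hl' => ?_⟩
  rw [cup, hf, zero_mul]
  · rw [List.length_take]; omega
  · exact fun y hy => hl' y (List.mem_of_mem_take hy)

theorem LZat.cup_right {A : Set X} {p q : ℕ} {g : List X → R} {x : X}
    (hg : LZat A (q + 1) g x) (f : List X → R) : LZat A (p + q + 1) (cup p f g) x := by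
  obtain ⟨U, hU, hg⟩ := hg
  refine ⟨U, hU, fun l hl hl' => ?_⟩
  rw [cup, hg, mul_zero]
  · rw [List.length_drop]; omega
  · exact fun y hy => hl' y (List.mem_of_mem_drop hy)

theorem LZ.congr {A : Set X} {m : ℕ} {f g : List X → R} (hf : LZ A m f)
    (h : ∀ l : List X, l.length = m → (∀ y ∈ l, y ∈ A) → g l = f l) : LZ A m g :=
  fun x hx => (hf x hx).congr h

theorem LZ.mono {A B : Set X} {m : ℕ} {f : List X → R} (h : LZ B m f) (hAB : A ⊆ B) : LZ A m f :=
  fun x hx => (h x (hAB hx)).mono hAB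

theorem LZ.add {A : Set X} {m : ℕ} {f g : List X → R} (hf : LZ A m f) (hg : LZ A m g) :
    LZ A m (f + g) := fun x hx => (hf x hx).add (hg x hx)

theorem LZ.sub {A : Set X} {m : ℕ} {f g : List X → R} (hf : LZ A m f) (hg : LZ A m g) :
    LZ A m (f - g) := fun x hx => (hf x hx).sub (hg x hx)

theorem LZ.neg {A : Set X} {m : ℕ} {f : List X → R} (hf : LZ A m f) : LZ A m (-f) :=
  fun x hx => (hf x hx).neg

theorem LZ.smul {A : Set X} {m : ℕ} {f : List X → R} (c : R) (hf : LZ A m f) : LZ A m (c • f) :=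
  fun x hx => (hf x hx).smul c

theorem LZ.d {A : Set X} {m : ℕ} {f : List X → R} (hf : LZ A m f) : LZ A (m + 1) (d f) :=
  fun x hx => (hf x hx).d

theorem LZ.zero (A : Set X) (m : ℕ) : LZ A m (0 : List X → R) := fun x _ => LZat.zero A m x

theorem LZ.pull {A : Set X} {B : Set Y} {m : ℕ} {f : List Y → R} {φ : X → Y}
    (hf : LZ B m f) (hφ : ContinuousOn φ A) (hAB : MapsTo φ A B) : LZ A m (pull φ f) :=
  fun x hx => (hf _ (hAB hx)).pull (hφ x hx) hAB

theorem HasSupp.add {Φ : Set X → Prop} [SuppFam Φ] {A : Set X} {m : ℕ} {f g : List X → R}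
    (hf : HasSupp Φ A m f) (hg : HasSupp Φ A m g) : HasSupp Φ A m (f + g) := by
  obtain ⟨K, hK, hΦK, hf⟩ := hf
  obtain ⟨L, hL, hΦL, hg⟩ := hg
  exact ⟨K ∪ L, union_subset hK hL, SuppFam.union K L hΦK hΦL,
    fun x hx hx' => (hf x hx fun h => hx' (Or.inl h)).add (hg x hx fun h => hx' (Or.inr h))⟩

theorem HasSupp.smul {Φ : Set X → Prop} {A : Set X} {m : ℕ} {f : List X → R} (c : R)
    (hf : HasSupp Φ A m f) : HasSupp Φ A m (c • f) := by
  obtain ⟨K, hK, hΦK, hf⟩ := hf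
  exact ⟨K, hK, hΦK, fun x hx hx' => (hf x hx hx').smul c⟩

theorem HasSupp.neg {Φ : Set X → Prop} {A : Set X} {m : ℕ} {f : List X → R}
    (hf : HasSupp Φ A m f) : HasSupp Φ A m (-f) := by
  obtain ⟨K, hK, hΦK, hf⟩ := hf
  exact ⟨K, hK, hΦK, fun x hx hx' => (hf x hx hx').neg⟩

theorem HasSupp.sub {Φ : Set X → Prop} [SuppFam Φ] {A : Set X} {m : ℕ} {f g : List X → R}
    (hf : HasSupp Φ A m f) (hg : HasSupp Φ A m g) : HasSupp Φ A m (f - g) := by
  rw [sub_eq_add_neg]; exact hf.add hg.neg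

theorem HasSupp.of_LZ {Φ : Set X → Prop} [SuppFam Φ] {A : Set X} {m : ℕ} {f : List X → R}
    (hf : LZ A m f) : HasSupp Φ A m f :=
  ⟨∅, empty_subset _, SuppFam.empty, fun x hx _ => hf x hx⟩

theorem HasSupp.d {Φ : Set X → Prop} {A : Set X} {m : ℕ} {f : List X → R}
    (hf : HasSupp Φ A m f) : HasSupp Φ A (m + 1) (d f) := by
  obtain ⟨K, hK, hΦK, hf⟩ := hf
  exact ⟨K, hK, hΦK, fun x hx hx' => (hf x hx hx').d⟩

theorem hasSupp_all (A : Set X) (m : ℕ) (f : List X → R) : HasSupp AllSupp A m f :=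
  ⟨A, Subset.rfl, trivial, fun _ hx hx' => absurd hx hx'⟩

variable (R) in
/-- Cocycles of degree `n` on `A` with supports in `Φ`. -/
def cocycles (Φ : Set X → Prop) [SuppFam Φ] (A : Set X) (n : ℕ) : Submodule R (List X → R) where
  carrier := {f | HasSupp Φ A (n + 1) f ∧ LZ A (n + 2) (d f)}
  add_mem' := fun hf hg => ⟨hf.1.add hg.1, by rw [d_add']; exact hf.2.add hg.2⟩
  zero_mem' := ⟨HasSupp.of_LZ (LZ.zero A _), by rw [d_zero]; exact LZ.zero A _⟩
  smul_mem' := fun c f hf => ⟨hf.1.smul c, by rw [d_smul']; exact hf.2.smul c⟩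

variable (R) in
/-- Coboundaries of degree `n` on `A` with supports in `Φ`. -/
def coboundaries (Φ : Set X → Prop) [SuppFam Φ] (A : Set X) (n : ℕ) :
    Submodule R (List X → R) where
  carrier := {f | ∃ g : List X → R, (n = 0 → g [] = 0) ∧ HasSupp Φ A n g ∧
    LZ A (n + 1) (f - d g)}
  add_mem' := by
    rintro f f' ⟨g, hg0, hg, hfg⟩ ⟨g', hg0', hg', hfg'⟩
    refine ⟨g + g', fun h => by simp [hg0 h, hg0' h], hg.add hg', ?_⟩
    have : f + f' - AS.d (g + g') = (f - AS.d g) + (f' - AS.d g') := by rw [d_add']; abel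
    rw [this]; exact hfg.add hfg'
  zero_mem' := ⟨0, fun _ => rfl, HasSupp.of_LZ (LZ.zero A _), by
    rw [d_zero, sub_zero]; exact LZ.zero A _⟩
  smul_mem' := by
    rintro c f ⟨g, hg0, hg, hfg⟩
    refine ⟨c • g, fun h => by simp [hg0 h], hg.smul c, ?_⟩
    have : c • f - AS.d (c • g) = c • (f - AS.d g) := by rw [d_smul', smul_sub]
    rw [this]; exact hfg.smul c

theorem mem_cocycles {Φ : Set X → Prop} [SuppFam Φ] {A : Set X} {n : ℕ} {f : List X → R} :
    f ∈ cocycles R Φ A n ↔ HasSupp Φ A (n + 1) f ∧ LZ A (n + 2) (d f) := Iff.rfl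

theorem mem_coboundaries {Φ : Set X → Prop} [SuppFam Φ] {A : Set X} {n : ℕ} {f : List X → R} :
    f ∈ coboundaries R Φ A n ↔
      ∃ g : List X → R, (n = 0 → g [] = 0) ∧ HasSupp Φ A n g ∧ LZ A (n + 1) (f - d g) := Iff.rfl

theorem coboundaries_le_cocycles (Φ : Set X → Prop) [SuppFam Φ] (A : Set X) (n : ℕ) :
    coboundaries R Φ A n ≤ cocycles R Φ A n := by
  rintro f ⟨g, hg0, hg, hfg⟩
  have h1 : f = (f - d g) + d g := by abel
  refine ⟨?_, ?_⟩
  · rw [h1]; exact (HasSupp.of_LZ hfg).add hg.d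
  · have h2 : d f = d (f - d g) := by rw [d_sub', d_d', sub_zero]
    rw [h2]; exact hfg.d

theorem LZ.mem_coboundaries {Φ : Set X → Prop} [SuppFam Φ] {A : Set X} {n : ℕ} {f : List X → R}
    (hf : LZ A (n + 1) f) : f ∈ coboundaries R Φ A n :=
  ⟨0, fun _ => rfl, HasSupp.of_LZ (LZ.zero A _), by rwa [d_zero, sub_zero]⟩

variable (R) in
/-- Alexander-Spanier cohomology of the set `A` with supports in `Φ`. -/
abbrev HS (Φ : Set X → Prop) [SuppFam Φ] (A : Set X) (n : ℕ) : Type _ :=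
  (cocycles R Φ A n) ⧸ (coboundaries R Φ A n).submoduleOf (cocycles R Φ A n)

variable (R) in
/-- Alexander-Spanier cohomology of the set `A`. -/
abbrev H (A : Set X) (n : ℕ) : Type _ := HS R AllSupp A n

variable (R) in
/-- Alexander-Spanier cohomology with compact supports of the set `A`. -/
abbrev Hc (A : Set X) (n : ℕ) : Type _ := HS R IsCompact A n

/-- The class of a cocycle. -/
def cls {Φ : Set X → Prop} [SuppFam Φ] {A : Set X} {n : ℕ} (f : List X → R)
    (hf : f ∈ cocycles R Φ A n) : HS R Φ A n := Submodule.Quotient.mk ⟨f, hf⟩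

theorem cls_eq_iff {Φ : Set X → Prop} [SuppFam Φ] {A : Set X} {n : ℕ} {f g : List X → R}
    {hf : f ∈ cocycles R Φ A n} {hg : g ∈ cocycles R Φ A n} :
    cls f hf = cls g hg ↔ f - g ∈ coboundaries R Φ A n := by
  unfold cls
  rw [Submodule.Quotient.eq]
  rfl

theorem cls_eq_zero_iff {Φ : Set X → Prop} [SuppFam Φ] {A : Set X} {n : ℕ} {f : List X → R}
    {hf : f ∈ cocycles R Φ A n} : cls f hf = 0 ↔ f ∈ coboundaries R Φ A n := by
  unfold cls
  rw [Submodule.Quotient.mk_eq_zero]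
  rfl

theorem cls_surj {Φ : Set X → Prop} [SuppFam Φ] {A : Set X} {n : ℕ} (α : HS R Φ A n) :
    ∃ f, ∃ hf : f ∈ cocycles R Φ A n, cls f hf = α := by
  obtain ⟨⟨f, hf⟩, rfl⟩ := Submodule.Quotient.mk_surjective _ α
  exact ⟨f, hf, rfl⟩

theorem cls_add {Φ : Set X → Prop} [SuppFam Φ] {A : Set X} {n : ℕ} {f g : List X → R}
    (hf : f ∈ cocycles R Φ A n) (hg : g ∈ cocycles R Φ A n) :
    cls f hf + cls g hg = cls (f + g) (add_mem hf hg) := rfl

theorem cls_smul {Φ : Set X → Prop} [SuppFam Φ] {A : Set X} {n : ℕ} {f : List X → R} (c : R)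
    (hf : f ∈ cocycles R Φ A n) :
    c • cls f hf = cls (c • f) (Submodule.smul_mem _ c hf) := rfl

/-- The maps which induce maps in cohomology: `φ` is continuous on `A`, maps `A` to `B`, and the
preimages (in `A`) of the supports on `B` are supports. -/
structure SMap (Φ : Set X → Prop) (Ψ : Set Y → Prop) (A : Set X) (B : Set Y) (φ : X → Y) :
    Prop where
  cont : ContinuousOn φ A
  maps : MapsTo φ A B
  supp : ∀ K ⊆ B, Ψ K → Φ (A ∩ φ ⁻¹' K)

theorem SMap.of_all {A : Set X} {B : Set Y} {φ : X → Y} (h : ContinuousOn φ A)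
    (h' : MapsTo φ A B) (Ψ : Set Y → Prop) : SMap AllSupp Ψ A B φ :=
  ⟨h, h', fun _ _ _ => trivial⟩

theorem SMap.incl (Φ : Set X → Prop) [SuppFam Φ] (A F : Set X) (hF : IsClosed F) :
    SMap Φ Φ (A ∩ F) A (fun x => x) :=
  ⟨continuousOn_id, fun _ h => h.1, fun K hK h => by
    have : A ∩ F ∩ (fun x => x) ⁻¹' K = K ∩ F := by
      ext x; simp only [mem_inter_iff, mem_preimage, id_eq]
      exact ⟨fun h => ⟨h.2, h.1.2⟩, fun h => ⟨⟨hK h.1, h.2⟩, h.1⟩⟩
    rw [this]; exact SuppFam.inter _ _ h hF⟩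

theorem SMap.refl (Φ : Set X → Prop) (A : Set X) : SMap Φ Φ A A (fun x => x) :=
  ⟨continuousOn_id, fun _ h => h, fun K hK h => by
    have : A ∩ (fun x => x) ⁻¹' K = K := inter_eq_right.2 hK
    rwa [this]⟩

theorem SMap.comp {Φ : Set X → Prop} {Ψ : Set Y → Prop} {Θ : Set Z → Prop} {A : Set X}
    {B : Set Y} {C : Set Z} {φ : X → Y} {ψ : Y → Z} (hψ : SMap Ψ Θ B C ψ) (hφ : SMap Φ Ψ A B φ) :
    SMap Φ Θ A C (ψ ∘ φ) :=
  ⟨hψ.cont.comp hφ.cont hφ.maps, hψ.maps.comp hφ.maps, fun K hK h => by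
    have h1 := hφ.supp (B ∩ ψ ⁻¹' K) inter_subset_left (hψ.supp K hK h)
    have : A ∩ φ ⁻¹' (B ∩ ψ ⁻¹' K) = A ∩ ψ ∘ φ ⁻¹' K := by
      ext x; simp only [mem_inter_iff, mem_preimage, Function.comp]
      exact ⟨fun h => ⟨h.1, h.2.2⟩, fun h => ⟨h.1, hφ.maps h.1, h.2⟩⟩
    rwa [this] at h1⟩

theorem SMap.hasSupp_pull {Φ : Set X → Prop} {Ψ : Set Y → Prop} {A : Set X} {B : Set Y}
    {φ : X → Y} (hφ : SMap Φ Ψ A B φ) {m : ℕ} {f : List Y → R} (hf : HasSupp Ψ B m f) :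
    HasSupp Φ A m (pull φ f) := by
  obtain ⟨K, hK, hΨK, hf⟩ := hf
  refine ⟨A ∩ φ ⁻¹' K, inter_subset_left, hφ.supp K hK hΨK, fun x hx hx' => ?_⟩
  exact (hf _ (hφ.maps hx) fun h => hx' ⟨hx, h⟩).pull (hφ.cont x hx) hφ.maps

theorem SMap.pull_mem_cocycles {Φ : Set X → Prop} [SuppFam Φ] {Ψ : Set Y → Prop} [SuppFam Ψ]
    {A : Set X} {B : Set Y} {φ : X → Y} (hφ : SMap Φ Ψ A B φ) {n : ℕ} {f : List Y → R}
    (hf : f ∈ cocycles R Ψ B n) : pull φ f ∈ cocycles R Φ A n :=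
  ⟨hφ.hasSupp_pull hf.1, by rw [d_pull']; exact hf.2.pull hφ.cont hφ.maps⟩

theorem pull_sub (φ : X → Y) (f g : List Y → R) : pull φ (f - g) = pull φ f - pull φ g := rfl

theorem SMap.pull_mem_coboundaries {Φ : Set X → Prop} [SuppFam Φ] {Ψ : Set Y → Prop} [SuppFam Ψ]
    {A : Set X} {B : Set Y} {φ : X → Y} (hφ : SMap Φ Ψ A B φ) {n : ℕ} {f : List Y → R}
    (hf : f ∈ coboundaries R Ψ B n) : pull φ f ∈ coboundaries R Φ A n := by
  obtain ⟨g, hg0, hg, hfg⟩ := hf
  refine ⟨pull φ g, fun h => by simpa [pull] using hg0 h, hφ.hasSupp_pull hg, ?_⟩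
  rw [d_pull', ← pull_sub]
  exact hfg.pull hφ.cont hφ.maps

/-- The linear map on cochains given by a map of sets. -/
def pullₗ (φ : X → Y) : (List Y → R) →ₗ[R] (List X → R) where
  toFun := pull φ
  map_add' _ _ := rfl
  map_smul' _ _ := rfl

variable (R) in
/-- The map induced in cohomology. -/
def SMap.map {Φ : Set X → Prop} [SuppFam Φ] {Ψ : Set Y → Prop} [SuppFam Ψ]
    {A : Set X} {B : Set Y} {φ : X → Y} (hφ : SMap Φ Ψ A B φ) (n : ℕ) :
    HS R Ψ B n →ₗ[R] HS R Φ A n :=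
  Submodule.mapQ _ _ ((pullₗ φ).restrict fun _ hf => hφ.pull_mem_cocycles hf)
    fun _ hf => hφ.pull_mem_coboundaries hf

@[simp] theorem SMap.map_cls {Φ : Set X → Prop} [SuppFam Φ] {Ψ : Set Y → Prop} [SuppFam Ψ]
    {A : Set X} {B : Set Y} {φ : X → Y} (hφ : SMap Φ Ψ A B φ) {n : ℕ} {f : List Y → R}
    (hf : f ∈ cocycles R Ψ B n) :
    hφ.map R n (cls f hf) = cls (pull φ f) (hφ.pull_mem_cocycles hf) := rfl

/-- Only the restriction of `φ` to `A` matters. -/
theorem SMap.map_congr {Φ : Set X → Prop} [SuppFam Φ] {Ψ : Set Y → Prop} [SuppFam Ψ]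
    {A : Set X} {B : Set Y} {φ ψ : X → Y} (hφ : SMap Φ Ψ A B φ) (hψ : SMap Φ Ψ A B ψ)
    (h : EqOn φ ψ A) (n : ℕ) (α : HS R Ψ B n) : hφ.map R n α = hψ.map R n α := by
  obtain ⟨f, hf, rfl⟩ := cls_surj α
  rw [SMap.map_cls, SMap.map_cls, cls_eq_iff]
  refine LZ.mem_coboundaries fun x _ => LZat.of_eq_zero x fun l _ hl => ?_
  have : l.map φ = l.map ψ := List.map_congr_left fun y hy => h (hl y hy)
  simp [pull, this]

theorem SMap.map_comp {Φ : Set X → Prop} [SuppFam Φ] {Ψ : Set Y → Prop} [SuppFam Ψ]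
    {Θ : Set Z → Prop} [SuppFam Θ] {A : Set X}
    {B : Set Y} {C : Set Z} {φ : X → Y} {ψ : Y → Z} (hψ : SMap Ψ Θ B C ψ) (hφ : SMap Φ Ψ A B φ)
    (n : ℕ) (α : HS R Θ C n) : (hψ.comp hφ).map R n α = hφ.map R n (hψ.map R n α) := by
  obtain ⟨f, hf, rfl⟩ := cls_surj α
  simp only [SMap.map_cls, cls_eq_iff]
  refine LZ.mem_coboundaries fun x _ => LZat.of_eq_zero x fun l _ hl => ?_
  simp [pull]

theorem SMap.map_refl (Φ : Set X → Prop) [SuppFam Φ] (A : Set X) (n : ℕ) (α : HS R Φ A n) :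
    (SMap.refl Φ A).map R n α = α := by
  obtain ⟨f, hf, rfl⟩ := cls_surj α
  simp only [SMap.map_cls, cls_eq_iff]
  refine LZ.mem_coboundaries fun x _ => LZat.of_eq_zero x fun l _ hl => ?_
  simp [pull]

end Top

end Pool.Agent.Helper36.AS
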